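import Pool.Agent.Work.MP_47f387_co.Bd.B03

/-!
# MP_47f387_co, maximum degree 5: definitions and basic lemmas

The definitions `Near`, `Proper`, `Sees`, `Switch`, `Flex`, `Deg`, `BD`, `InK`, `cnt`, `Good`, `Tt`,
`pr`, `II`, `Mut`, `CC` are those of `Bd/B01.lean` (namespace `Large`).
-/

namespace Pool.Agent.Work.MP_47f387_co.Five

open Finset Classical Large

noncomputable section

/-- The two-coloured path `p v p'` (a whole component of the subgraph of the colours `i`, `j`) can
be recoloured: `p`, `p'` get `j` and `v` gets `i`; and `v`, `g`, `p`, `p'` form a diamond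
(`K_4` minus the edge `p p'`). -/
def Dm {V : Type} {d : ℕ} (G : SimpleGraph V) (f : V → Option (Fin d)) (i j : Fin d) (v : V) :
    Prop :=
  ∃ p p' g, p ≠ p' ∧ ¬ G.Adj p p' ∧ G.Adj v p ∧ G.Adj v p' ∧ G.Adj v g ∧ G.Adj g p ∧
    G.Adj g p' ∧ f v = some j ∧ f p = some i ∧ f p' = some i ∧
    (∀ u, G.Adj v u → f u = some i → u = p ∨ u = p') ∧
    (∀ u, G.Adj p u → f u = some j → u = v) ∧ ∀ u, G.Adj p' u → f u = some j → u = v

/-- flexible in one of the two ways -/
def FX {V : Type} {d : ℕ} (G : SimpleGraph V) (f : V → Option (Fin d)) (i j : Fin d) (v : V) :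
    Prop := Flex G f i j v ∨ Dm G f i j v

/-- rigid, also for diamonds -/
def Good5 {V : Type} (G : SimpleGraph V) (f : V → Option (Fin 5)) (v : V) : Prop :=
  Good G f v ∧ ∀ i j, ¬ Dm G f i j v

/-- rigid, of degree five and in exactly two pairs -/
def Rg {V : Type} [Fintype V] (G : SimpleGraph V) (f : V → Option (Fin 5)) (v : V) : Prop :=
  Good5 G f v ∧ Deg G v = 5 ∧ (II G f v).card = 2

/-- Seven bags `{p k, q k}` (`k ≤ 6`), consecutive bags being completely joined, with 14 different
vertices; the vertices of the bags `1, ..., 5` have no other neighbours. -/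
def Chain {V : Type} (G : SimpleGraph V) (p q : ℕ → V) : Prop :=
  (∀ k l, k ≤ 6 → l ≤ 6 → k ≠ l → p k ≠ p l ∧ q k ≠ q l ∧ p k ≠ q l) ∧
  (∀ k, k ≤ 6 → p k ≠ q k) ∧ G.Adj (p 0) (q 0) ∧ G.Adj (p 6) (q 6) ∧
  ∀ k, 1 ≤ k → k ≤ 5 → ∀ u,
    (G.Adj (p k) u ↔ u = q k ∨ u = p (k - 1) ∨ u = q (k - 1) ∨ u = p (k + 1) ∨ u = q (k + 1)) ∧
    (G.Adj (q k) u ↔ u = p k ∨ u = p (k - 1) ∨ u = q (k - 1) ∨ u = p (k + 1) ∨ u = q (k + 1))

/-- `v` is a place of type `(i, j)`: there is no hole within distance 4; the ball of radius 3 can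
be recoloured so that `i` loses one vertex and `j` gains one; and a hole which arrives at distance
exactly 4 can be filled by recolouring the ball of radius 4. -/
def Pl {V : Type} [Fintype V] {d : ℕ} (G : SimpleGraph V) (f : V → Option (Fin d)) (i j : Fin d)
    (v : V) : Prop :=
  (∀ u, Near G 4 v u → f u ≠ none) ∧
  (∃ f₁ : V → Option (Fin d), Proper G f₁ ∧ (∀ u, ¬ Near G 3 v u → f₁ u = f u) ∧
    (∀ u, Near G 3 v u → f₁ u ≠ none) ∧
    ∀ c, cnt f₁ (some c) + (if c = i then 1 else 0) = cnt f (some c) + (if c = j then 1 else 0)) ∧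
  ∀ (g : V → Option (Fin d)) (u : V), Proper G g → Near G 4 v u → ¬ Near G 3 v u → g u = none →
    (∀ w, Near G 4 v w → w ≠ u → g w = f w) →
    ∃ g' : V → Option (Fin d), Proper G g' ∧ (∀ w, ¬ Near G 4 v w → g' w = g w) ∧
      ∀ w, Near G 4 v w → g' w ≠ none

/-- `W` is a set of places (`w` is of type `(a w, b w)`) with pairwise distances greater than 10 -/
def PS {V : Type} [Fintype V] {d : ℕ} (G : SimpleGraph V) (f : V → Option (Fin d)) (W : Finset V)
    (a b : V → Fin d) : Prop :=
  (∀ w ∈ W, Pl G f (a w) (b w) w) ∧ ∀ w ∈ W, ∀ w' ∈ W, w ≠ w' → ¬ Near G 10 w w'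

/-! ### Basic lemmas on rigid vertices -/

section

variable {V : Type} [Fintype V] {d : ℕ} {G : SimpleGraph V} {f : V → Option (Fin d)}

/-- everything within distance 2 of a good vertex is tight -/
lemma tight (hf : Proper G f) {v w : V} (hv : Good G f v) (hw : Near G 2 v w) : Tt G f w :=
  prfA3 d V G f hf v hv w hw

lemma tight0 (hf : Proper G f) {v : V} (hv : Good G f v) : Tt G f v :=
  tight hf hv (near_refl 2 v)

lemma tight1 (hf : Proper G f) {v u : V} (hv : Good G f v) (hu : G.Adj v u) : Tt G f u :=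
  tight hf hv (near_mono (by norm_num) (near_of_adj hu))

/-- the pair of a tight vertex of degree `d` -/
lemma pair (hd : BD d G) (hf : Proper G f) {v : V} (hv : Tt G f v) (hdeg : Deg G v = d) :
    ∃ p p', p ≠ p' ∧ f p = f p' ∧ G.Adj v p ∧ G.Adj v p' ∧ ¬ G.Adj p p' ∧
      pr G f v = {p, p'} := by
  rcases prfA1 d V G f hd hf v hv with ⟨_, h⟩ | ⟨h, _⟩
  · exact h
  · omega

/-- three elements of `pr v` are not distinct -/
lemma three (hd : BD d G) (hf : Proper G f) {v : V} (hv : Tt G f v) (hdeg : Deg G v = d)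
    {a b c : V} (ha : a ∈ pr G f v) (hb : b ∈ pr G f v) (hc : c ∈ pr G f v) (hab : a ≠ b) :
    c = a ∨ c = b := by
  obtain ⟨p, p', _, _, _, _, _, hpr⟩ := pair hd hf hv hdeg
  rw [hpr, mem_insert, mem_singleton] at ha hb hc
  rcases ha with rfl | rfl <;> rcases hb with rfl | rfl <;> rcases hc with rfl | rfl <;>
    simp_all

/-- two different elements of `pr v` have the same colour and are not adjacent -/
lemma two (hd : BD d G) (hf : Proper G f) {v : V} (hv : Tt G f v) (hdeg : Deg G v = d)
    {a b : V} (ha : a ∈ pr G f v) (hb : b ∈ pr G f v) (hab : a ≠ b) :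
    f a = f b ∧ ¬ G.Adj a b ∧ pr G f v = {a, b} := by
  obtain ⟨p, p', _, hfp, _, _, hn, hpr⟩ := pair hd hf hv hdeg
  have ha' := ha
  have hb' := hb
  rw [hpr, mem_insert, mem_singleton] at ha' hb'
  rcases ha' with rfl | rfl
  · rcases hb' with rfl | rfl
    · exact absurd rfl hab
    · exact ⟨hfp, hn, hpr⟩
  · rcases hb' with rfl | rfl
    · exact ⟨hfp.symm, fun h => hn h.symm, by rw [hpr]; exact Finset.pair_comm _ _⟩
    · exact absurd rfl hab

lemma mem_pr_of {y a b : V} (ha : G.Adj y a) (hb : G.Adj y b) (hne : a ≠ b) (hfe : f a = f b) :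
    a ∈ pr G f y ∧ b ∈ pr G f y :=
  ⟨mem_pr.2 ⟨ha, b, hne.symm, hb, hfe.symm⟩, mem_pr.2 ⟨hb, a, hne, ha, hfe⟩⟩

/-- `v` good, `u` a neighbour outside of `pr v` and `II v`: `u` is adjacent to all other
neighbours of `v` outside of `II v` -/
lemma key (hf : Proper G f) {v : V} (hv : Good G f v) {u w : V} (hu : G.Adj v u)
    (hup : u ∉ pr G f v) (huI : u ∉ II G f v) (hw : G.Adj v w) (hwu : w ≠ u)
    (hwI : w ∉ II G f v) : G.Adj w u :=
  IA6.key prfA3 asmA4 hf hv hu hup huI hw hwu hwI

/-- `v` good, `u` a neighbour outside of `pr v` and `II v`: mutual -/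
lemma mut_of (hf : Proper G f) {v u : V} (hv : Good G f v) (hu : G.Adj v u)
    (hup : u ∉ pr G f v) (huI : u ∉ II G f v) : Mut G f v u :=
  ⟨hu, fun h => huI (mem_II.mpr ⟨tight1 hf hv hu, h⟩), hup⟩

/-- a good vertex is in some pair -/
lemma II_nonempty (hd : BD d G) (hf : Proper G f) {v : V} (hv : Good G f v) :
    (II G f v).Nonempty := asmA5 d V G f hd hf v hv

/-- the double swap -/
lemma DS (hP : Proper G f) {p x x' y y' : V} (hg : Good G f p) (hxx' : x ≠ x')
    (hfx : f x = f x') (hpx : G.Adj p x) (hpx' : G.Adj p x') (hnadj : ¬ G.Adj x x')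
    (hpr : pr G f p = {x, x'}) (hM : Mut G f x y) (hM' : Mut G f x' y') (hpy : ¬ G.Adj p y)
    (hpy' : ¬ G.Adj p y') (hpny : p ≠ y) (hpny' : p ≠ y') (d1 : x ≠ y') (d2 : y ≠ x')
    (d3 : y ≠ y') (hyy' : ¬ G.Adj y y') : False :=
  IZ.DS prfA2 hP hg (tight1 hP hg hpx).1 (tight0 hP hg).1 hxx' hfx hpx hpx' hnadj hpr hM hM'
    hpy hpy' hpny hpny' d1 d2 d3 hyy'

/-- `card (N(v) \ S) + card S = d` if `S ⊆ N(v)` and `v` has degree `d` -/
lemma cover {v : V} (hdeg : Deg G v = d) {S : Finset V} (hS : ∀ a ∈ S, G.Adj v a) :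
    ((univ.filter (fun u => G.Adj v u)) \ S).card + S.card = d :=
  IZ.cover hdeg hS

/-- the neighbourhood of a vertex in exactly one pair: the pair does not contain the tight
vertex -/
lemma disj (hf : Proper G f) {v p p' e : V} (hv : Good G f v) (hdeg : Deg G v = d)
    (hpr : pr G f v = {p, p'}) (he : II G f v = {e}) (hep : e ∈ pr G f v) : False :=
  IA6.disj prfA3 asmA4 hf hv hdeg hpr he hep

/-- a hole which sees all colours: the neighbours are coloured, with different colours -/
lemma distinct (hd : BD d G) (f : V → Option (Fin d)) (x : V) (hx : ∀ c, Sees G f x c) :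
    (∀ u, G.Adj x u → f u ≠ none) ∧ ∀ u u', G.Adj x u → G.Adj x u' → f u = f u' → u = u' :=
  IC4.distinct hd f x hx

omit [Fintype V] in
/-- a vertex which does not see `c` can get the colour `c` -/
lemma fill (hf : Proper G f) {x : V} {c : Fin d} (hc : ¬ Sees G f x c) :
    Proper G (IC4.upd f x (some c)) := by
  intro u v e huv hu hv
  by_cases hux : u = x
  · subst hux
    rw [IC4.upd_self] at hu
    rw [IC4.upd_ne f u _ huv.ne'] at hv
    exact hc ⟨v, huv, by rw [hv, ← hu]⟩
  · by_cases hvx : v = x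
    · subst hvx
      rw [IC4.upd_self] at hv
      rw [IC4.upd_ne f v _ hux] at hu
      exact hc ⟨u, huv.symm, by rw [hu, ← hv]⟩
    · rw [IC4.upd_ne f x _ hux] at hu
      rw [IC4.upd_ne f x _ hvx] at hv
      exact hf u v e huv hu hv

/-- a hole which sees all colours can be moved to a neighbour -/
lemma move (hd : BD d G) (hf : Proper G f) {x y : V} (hx : f x = none)
    (hc : ∀ c, Sees G f x c) (hxy : G.Adj x y) :
    Proper G (fun u => f (Equiv.swap x y u)) := by
  obtain ⟨-, hdis⟩ := IC4.distinct hd f x hc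
  have hy : f (Equiv.swap x y y) = none := by rw [Equiv.swap_apply_right, hx]
  have hxx : f (Equiv.swap x y x) = f y := by rw [Equiv.swap_apply_left]
  have ho : ∀ u, u ≠ x → u ≠ y → f (Equiv.swap x y u) = f u := fun u h1 h2 => by
    rw [Equiv.swap_apply_of_ne_of_ne h1 h2]
  intro u v e huv hu hv
  beta_reduce at hu hv
  by_cases huy : u = y
  · subst huy
    rw [hy] at hu
    exact absurd hu (by simp)
  · by_cases hvy : v = y
    · subst hvy
      rw [hy] at hv
      exact absurd hv (by simp)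
    · by_cases hux : u = x
      · subst hux
        rw [hxx] at hu
        rw [ho v huv.ne' hvy] at hv
        exact hvy (hdis v y huv hxy (by rw [hu, hv]))
      · by_cases hvx : v = x
        · subst hvx
          rw [hxx] at hv
          rw [ho u hux huy] at hu
          exact huy (hdis u y huv.symm hxy (by rw [hu, hv]))
        · rw [ho u hux huy] at hu
          rw [ho v hvx hvy] at hv
          exact hf u v e huv hu hv

/-- permutations do not change the number of vertices of a colour -/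
lemma cnt_perm (f : V → Option (Fin d)) (e : Equiv.Perm V) (o : Option (Fin d)) :
    cnt (fun u => f (e u)) o = cnt f o := by
  unfold cnt
  exact Finset.card_equiv e (by intro i; simp)

omit [Fintype V] in
/-- first vertices at distance `r + 1` -/
lemma exists_far (hG : G.Connected) (v : V) (r : ℕ) {w : V} (hw : ¬ Near G r v w) :
    ∃ u, Near G (r + 1) v u ∧ ¬ Near G r v u := by
  obtain ⟨s, hs⟩ := IC4.exists_near hG v w
  induction s generalizing w with
  | zero =>
    cases hs
    exact absurd (near_refl r v) hw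
  | succ s ih =>
    rcases hs with hs | ⟨x, hx, hxw⟩
    · exact ih hw hs
    · by_cases hxr : Near G r v x
      · exact ⟨w, near_adj hxr hxw, hw⟩
      · exact ih hxr hx

end

end

end Pool.Agent.Work.MP_47f387_co.Five
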