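import Pool.Agent.Work.MP_47f387_co.Five.Base

/-!
# MP_47f387_co, maximum degree 5: the statements of the items
-/

namespace Pool.Agent.Work.MP_47f387_co.Five

open Finset Classical Large

noncomputable section

/-! ## Part F: there is no rigid region -/

/-- SF1: the pair of a rigid vertex meets `II`; and `II` has at least two elements. -/
def SF1 : Prop := ∀ (V : Type) [Fintype V] (G : SimpleGraph V) (f : V → Option (Fin 5)),
  BD 5 G → Proper G f → ∀ v, Good5 G f v → Deg G v = 5 →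
    ((II G f v).card ≤ 2 → ∃ x ∈ pr G f v, x ∈ II G f v) ∧ 2 ≤ (II G f v).card

/-- SF2: discharging. -/
def SF2 : Prop := ∀ (V : Type) [Fintype V] (G : SimpleGraph V) (f : V → Option (Fin 5)),
  BD 5 G → Proper G f →
  3 * 6 ^ 10 * (univ.filter (fun v => ¬ Good5 G f v)).card < Fintype.card V →
    ∃ v₀, ∀ u, Near G 10 v₀ u → Rg G f u

/-- SF3: `CC v` is a clique. -/
def SF3 : Prop := ∀ (V : Type) [Fintype V] (G : SimpleGraph V) (f : V → Option (Fin 5)),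
  BD 5 G → Proper G f → ∀ v, Rg G f v → G.IsNClique 4 (CC G f v)

/-- SF4: two different 4-cliques never have three common vertices. -/
def SF4 : Prop := ∀ (V : Type) [Fintype V] (G : SimpleGraph V) (f : V → Option (Fin 5)),
  BD 5 G → G.CliqueFree 5 → Proper G f → ∀ a₁, (∀ u, Near G 1 a₁ u → Rg G f u) →
    ∀ a₂ a₃ x x', G.Adj a₁ a₂ → G.Adj a₁ a₃ → G.Adj a₂ a₃ → G.Adj a₁ x → G.Adj a₂ x → G.Adj a₃ x →
      G.Adj a₁ x' → G.Adj a₂ x' → G.Adj a₃ x' → x = x'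

/-- two different 4-cliques through `u` have exactly two common vertices and cover the
neighbourhood of `u` -/
def St {V : Type} [Fintype V] (G : SimpleGraph V) (u : V) : Prop :=
  Deg G u = 5 ∧ ∀ Q Q' : Finset V, G.IsNClique 4 Q → G.IsNClique 4 Q' → u ∈ Q → u ∈ Q' →
    Q ≠ Q' → (Q ∩ Q').card = 2 ∧ ∀ w, G.Adj u w → w ∈ Q ∪ Q'

/-- SF5 -/
def SF5 : Prop := ∀ (V : Type) [Fintype V] (G : SimpleGraph V) (f : V → Option (Fin 5)),
  BD 5 G → G.CliqueFree 5 → Proper G f → ∀ v, (∀ u, Near G 1 v u → Rg G f u) → St G v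

/-- SF6: there are at most two 4-cliques through a vertex. -/
def SF6 : Prop := ∀ (V : Type) [Fintype V] (G : SimpleGraph V) (u : V), St G u →
  ∀ Q₁ Q₂ Q₃ : Finset V, G.IsNClique 4 Q₁ → G.IsNClique 4 Q₂ → G.IsNClique 4 Q₃ → u ∈ Q₁ →
    u ∈ Q₂ → u ∈ Q₃ → Q₁ ≠ Q₂ → Q₃ = Q₁ ∨ Q₃ = Q₂

/-- `Q` is the only 4-clique through `u` -/
def Only {V : Type} (G : SimpleGraph V) (u : V) (Q : Finset V) : Prop :=
  ∀ Q' : Finset V, G.IsNClique 4 Q' → u ∈ Q' → Q' = Q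

/-- SF7: a vertex in only one 4-clique. -/
def SF7 : Prop := ∀ (V : Type) [Fintype V] (G : SimpleGraph V) (f : V → Option (Fin 5)),
  BD 5 G → Proper G f → ∀ e, (∀ u, Near G 1 e u → Rg G f u ∧ St G u) → Only G e (CC G f e) →
    pr G f e = II G f e ∧ ∀ z ∈ II G f e, Only G z (CC G f z)

/-- SF8: every vertex of a rigid region is in two 4-cliques. -/
def SF8 : Prop := ∀ (V : Type) [Fintype V] (G : SimpleGraph V) (f : V → Option (Fin 5)),
  BD 5 G → Proper G f → ∀ e, (∀ u, Near G 3 e u → Rg G f u ∧ St G u) →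
    ¬ Only G e (CC G f e)

/-- `m` is the mate of `u` -/
def Mate {V : Type} (G : SimpleGraph V) (u m : V) : Prop :=
  G.Adj u m ∧ (∀ w, w ≠ u → w ≠ m → (G.Adj m w ↔ G.Adj u w)) ∧
  (∀ Q : Finset V, G.IsNClique 4 Q → u ∈ Q → m ∈ Q) ∧
  ∀ a b, G.Adj u a → G.Adj u b → a ≠ m → b ≠ m → a ≠ b → ¬ G.Adj a b →
    ∃ a' b', a' ≠ m ∧ a' ≠ a ∧ b' ≠ m ∧ b' ≠ b ∧ G.IsNClique 4 {u, m, a, a'} ∧
      G.IsNClique 4 {u, m, b, b'} ∧ ∀ w, G.Adj u w ↔ w = m ∨ w = a ∨ w = a' ∨ w = b ∨ w = b'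

/-- SF9: existence of the mate. -/
def SF9 : Prop := ∀ (V : Type) [Fintype V] (G : SimpleGraph V) (u : V), BD 5 G → St G u →
  (∃ Q Q' : Finset V, G.IsNClique 4 Q ∧ G.IsNClique 4 Q' ∧ u ∈ Q ∧ u ∈ Q' ∧ Q ≠ Q') →
    ∃ m, Mate G u m

/-- SF10: the chain. -/
def SF10 : Prop := ∀ (V : Type) [Fintype V] (G : SimpleGraph V) (v₀ w : V),
  (∀ u, Near G 6 v₀ u → ∃ m, Mate G u m) → Near G 6 v₀ w → ¬ Near G 5 v₀ w →
    ∃ p q : ℕ → V, Chain G p q ∧ Near G 3 v₀ (p 3) ∧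
      ∀ k ≤ 6, Near G 7 v₀ (p k) ∧ Near G 7 v₀ (q k)

/-- `h` is a proper colouring obtained from `f` by a permutation of the vertices of the bags
`1, ..., 5` -/
def Md {V : Type} (G : SimpleGraph V) (p q : ℕ → V) (f h : V → Option (Fin 5)) : Prop :=
  Proper G h ∧ ∃ e : Equiv.Perm V, (∀ u, e u ≠ u → ∃ k, 1 ≤ k ∧ k ≤ 5 ∧ (u = p k ∨ u = q k)) ∧
    ∀ u, h u = f (e u)

/-- the colours of the bag `k` -/
def Tb {V : Type} (p q : ℕ → V) (h : V → Option (Fin 5)) (k : ℕ) : Finset (Option (Fin 5)) :=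
  {h (p k), h (q k)}

/-- SF11: all the modified colourings are tight on the chain. -/
def SF11 : Prop := ∀ (V : Type) [Fintype V] (G : SimpleGraph V) (f h : V → Option (Fin 5))
  (p q : ℕ → V), Chain G p q → Proper G f → (∀ k ≤ 6, f (p k) ≠ none ∧ f (q k) ≠ none) →
  (∀ i j, ¬ Flex G f i j (p 3)) → Md G p q f h →
    (∀ k ≤ 6, none ∉ Tb p q h k ∧ (Tb p q h k).card = 2) ∧
    (∀ k ≤ 5, Disjoint (Tb p q h k) (Tb p q h (k + 1))) ∧
    ∀ k ≤ 4, (Tb p q h k ∩ Tb p q h (k + 2)).card = 1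

/-- SF12: the window lemma. -/
def SF12 : Prop := ∀ (V : Type) [Fintype V] (G : SimpleGraph V) (f h : V → Option (Fin 5))
  (p q : ℕ → V), Chain G p q → Proper G f → (∀ k ≤ 6, f (p k) ≠ none ∧ f (q k) ≠ none) →
  (∀ i j, ¬ Flex G f i j (p 3)) → Md G p q f h →
    ∀ k ≤ 2, ∀ a ∈ Tb p q h k, a ∈ Tb p q h (k + 2) → a ∉ Tb p q h (k + 4)

/-- SF13: a chain is flexible. -/
def SF13 : Prop := ∀ (V : Type) [Fintype V] (G : SimpleGraph V) (f : V → Option (Fin 5))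
  (p q : ℕ → V), Chain G p q → Proper G f → (∀ k ≤ 6, f (p k) ≠ none ∧ f (q k) ≠ none) →
    ∃ i j, Flex G f i j (p 3)

/-- SF14: a positive proportion of vertices is not rigid. -/
def SF14 : Prop := ∀ (V : Type) [Fintype V] (G : SimpleGraph V) (f : V → Option (Fin 5)),
  G.Connected → BD 5 G → G.CliqueFree 5 → Proper G f → 6 ^ 5 < Fintype.card V →
    Fintype.card V ≤ 3 * 6 ^ 10 * (univ.filter (fun v => ¬ Good5 G f v)).card

/-! ## Part P: places -/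

/-- SP1: a flexible vertex far from the holes is a place. -/
def SP1 : Prop := ∀ (d : ℕ) (V : Type) [Fintype V] (G : SimpleGraph V) (f : V → Option (Fin d))
  (i j : Fin d) (v : V), BD d G → Proper G f → (∀ u, Near G 4 v u → f u ≠ none) →
    Flex G f i j v → Pl G f i j v

/-- SP2: colouring a diamond from lists. -/
def SP2 : Prop := ∀ (d : ℕ) (A B C D : Finset (Fin d)), 3 ≤ A.card → 3 ≤ B.card → 2 ≤ C.card →
  2 ≤ D.card → ∃ a ∈ A, ∃ b ∈ B, ∃ c ∈ C, ∃ e ∈ D, a ≠ b ∧ a ≠ c ∧ a ≠ e ∧ b ≠ c ∧ b ≠ e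

/-- SP3: recolouring a diamond. -/
def SP3 : Prop := ∀ (d : ℕ) (V : Type) [Fintype V] (G : SimpleGraph V) (g : V → Option (Fin d))
  (v z p p' : V), 3 ≤ d → BD d G → Proper G g → p ≠ p' → ¬ G.Adj p p' → G.Adj v p → G.Adj v p' →
  G.Adj v z → G.Adj z p → G.Adj z p' →
    ∃ g' : V → Option (Fin d), Proper G g' ∧
      (∀ u, u ≠ v → u ≠ z → u ≠ p → u ≠ p' → g' u = g u) ∧
      g' v ≠ none ∧ g' z ≠ none ∧ g' p ≠ none ∧ g' p' ≠ none

/-- SP4: a hole walks to `v` inside the ball of radius 4. -/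
def SP4 : Prop := ∀ (d : ℕ) (V : Type) [Fintype V] (G : SimpleGraph V) (g : V → Option (Fin d))
  (v u : V), BD d G → Proper G g → Near G 4 v u → g u = none →
  (∀ w, Near G 4 v w → w ≠ u → g w ≠ none) →
    ∃ g' : V → Option (Fin d), Proper G g' ∧ (∀ w, ¬ Near G 4 v w → g' w = g w) ∧
      ∀ w, Near G 4 v w → w ≠ v → g' w ≠ none

/-- SP5: a diamond far from the holes is a place. -/
def SP5 : Prop := ∀ (d : ℕ) (V : Type) [Fintype V] (G : SimpleGraph V) (f : V → Option (Fin d))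
  (i j : Fin d) (v : V), 3 ≤ d → BD d G → Proper G f → (∀ u, Near G 4 v u → f u ≠ none) →
    Dm G f i j v → Pl G f i j v

/-- SP6: being a place depends only on the ball of radius 4. -/
def SP6 : Prop := ∀ (d : ℕ) (V : Type) [Fintype V] (G : SimpleGraph V)
  (f f' : V → Option (Fin d)) (i j : Fin d) (v : V), Proper G f' →
  (∀ u, Near G 4 v u → f' u = f u) → Pl G f i j v → Pl G f' i j v

/-- SP7: a hole walks towards `w` and stops at distance 4. -/
def SP7 : Prop := ∀ (d : ℕ) (V : Type) [Fintype V] (G : SimpleGraph V), BD d G →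
  ∀ (w : V) (m : ℕ) (f : V → Option (Fin d)) (y : V), Proper G f → f y = none →
  Near G (m + 4) w y → ¬ Near G (m + 3) w y → (∀ z, Near G (m + 3) w z → f z ≠ none) →
    (∃ f' : V → Option (Fin d), Proper G f' ∧ cnt f' none + 1 = cnt f none ∧
      (∀ c, cnt f (some c) ≤ cnt f' (some c) ∧ cnt f' (some c) ≤ cnt f (some c) + 1) ∧
      ∀ z, f' z ≠ f z → (∃ s, s < m ∧ Near G s y z) ∨ Near G 4 w z) ∨
    ∃ (f' : V → Option (Fin d)) (u : V), Proper G f' ∧ f' u = none ∧ Near G 4 w u ∧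
      ¬ Near G 3 w u ∧ (∀ o, cnt f' o = cnt f o) ∧
      (∀ z, Near G 4 w z → z ≠ u → f' z = f z) ∧ (∀ z, Near G 4 w z → z ≠ u → f' z ≠ none) ∧
      ∀ z, f' z ≠ f z → (∃ s, s < m ∧ Near G s y z) ∨ z = u

/-- SP8: filling one hole. -/
def SP8 : Prop := ∀ (d : ℕ) (V : Type) [Fintype V] (G : SimpleGraph V) (f : V → Option (Fin d))
  (W : Finset V) (a b : V → Fin d), G.Connected → BD d G → Proper G f → PS G f W a b →
  W.Nonempty → 1 ≤ cnt f none →
    ∃ (f' : V → Option (Fin d)) (W' : Finset V), Proper G f' ∧ W' ⊆ W ∧ W.card ≤ W'.card + 1 ∧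
      PS G f' W' a b ∧ cnt f' none + 1 = cnt f none ∧
      ∀ c, cnt f (some c) ≤ cnt f' (some c) + (d + 1) ^ 4 ∧
        cnt f' (some c) ≤ cnt f (some c) + (d + 1) ^ 4

/-- SP9: filling all holes. -/
def SP9 : Prop := ∀ (d : ℕ) (V : Type) [Fintype V] (G : SimpleGraph V) (f : V → Option (Fin d))
  (W : Finset V) (a b : V → Fin d), G.Connected → BD d G → Proper G f → PS G f W a b →
  cnt f none < W.card →
    ∃ (f' : V → Option (Fin d)) (W' : Finset V), Proper G f' ∧ W' ⊆ W ∧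
      W.card ≤ W'.card + cnt f none ∧ PS G f' W' a b ∧ cnt f' none = 0 ∧
      ∀ c, cnt f (some c) ≤ cnt f' (some c) + (d + 1) ^ 4 * cnt f none ∧
        cnt f' (some c) ≤ cnt f (some c) + (d + 1) ^ 4 * cnt f none

/-- SP10: balancing. -/
def SP10 : Prop := ∀ (d : ℕ) (V : Type) [Fintype V] (G : SimpleGraph V) (f : V → Option (Fin d))
  (W : Finset V) (a b : V → Fin d) (t : Fin d → ℕ) (m : ℕ), Proper G f → PS G f W a b →
  cnt f none = 0 → ∑ c, t c = Fintype.card V → ∑ c, (cnt f (some c) - t c) ≤ m →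
  (∀ i j : Fin d, i ≠ j → m ≤ (W.filter (fun w => a w = i ∧ b w = j)).card) →
    ∃ f' : V → Option (Fin d), Proper G f' ∧ cnt f' none = 0 ∧ ∀ c, cnt f' (some c) = t c

/-! ## Part B: random greedy colouring -/

/-- locality with radius 3 -/
def Loc3 {V : Type} {d : ℕ} (G : SimpleGraph V)
    (Φ : (V → Option (Fin d)) → Fin d → Fin d → V → Prop) : Prop :=
  ∀ (f g : V → Option (Fin d)) (i j : Fin d) (v : V), (∀ u, Near G 3 v u → f u = g u) →
    Φ f i j v → Φ g i j v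

/-- equivariance -/
def Eqv {V : Type} {d : ℕ} (Φ : (V → Option (Fin d)) → Fin d → Fin d → V → Prop) : Prop :=
  ∀ (f : V → Option (Fin d)) (π : Equiv.Perm (Fin d)) (i j : Fin d) (v : V),
    Φ f i j v → Φ (fun u => (f u).map π) (π i) (π j) v

/-- SB1: `FX` is local and equivariant. -/
def SB1 : Prop := ∀ (d : ℕ) (V : Type) (G : SimpleGraph V),
  Loc3 G (FX (d := d) G) ∧ Eqv (FX (d := d) G) ∧
    ∀ f : V → Option (Fin d), Proper G f → ∀ i v, ¬ FX G f i i v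

/-- the constant of SB2 -/
def kM (d K : ℕ) : ℕ := 4 * ((d + d * d) * (d + 1) ^ ((K + 3) + (K + 3)))

/-- SB2: a good colouring (all the local and average information). -/
def SB2 : Prop := ∀ (d K : ℕ), 1 ≤ d → ∀ (V : Type) [Fintype V] (G : SimpleGraph V)
  (Φ : (V → Option (Fin d)) → Fin d → Fin d → V → Prop)
  (F : (V → Equiv.Perm (Fin d)) → V → Option (Fin d)), BD d G → Loc3 G Φ → Eqv Φ →
  (∀ σ i v, ¬ Φ (F σ) i i v) →
  (∀ (π : Equiv.Perm (Fin d)) σ v, F (fun u => π * σ u) v = (F σ v).map π) →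
  (∀ σ τ v, (∀ u, Near G K v u → σ u = τ u) → F σ v = F τ v) →
  ∀ A : ℕ, (∀ σ, A ≤ ∑ i : Fin d, ∑ j : Fin d, (univ.filter (fun v => Φ (F σ) i j v)).card) →
    ∃ σ, (∀ c c' : Fin d, ((cnt (F σ) (some c) : ℝ) - cnt (F σ) (some c')) ^ 2 ≤
        (kM d K : ℝ) * Fintype.card V) ∧
      ∀ i j : Fin d, i ≠ j →
        (A : ℝ) / (d : ℝ) ^ 2 ≤ ((univ.filter (fun v => Φ (F σ) i j v)).card : ℝ) +
          Real.sqrt ((kM d K : ℝ) * Fintype.card V)

/-- the constant of SF14 -/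
def k0 : ℕ := 3 * 6 ^ 10

/-- the constant of SB3 -/
def k8 : ℕ := 16 * k0 * 5 ^ 2

/-- the radius of SB3 -/
def kR (R : ℕ) : ℕ := 2 * R + 8 * k0 * 6 ^ 3

/-- the order of SB3 -/
def kN (R : ℕ) : ℕ :=
  kR R + R ^ 2 * kM 5 ((kR R + 1) * 6) + 16 * k0 +
    256 * k0 ^ 2 * 5 ^ 4 * kM 5 ((kR R + 1) * 6) + 6 ^ 5 + 1

/-- SB3: the conclusion of the probabilistic part. -/
def SB3 : Prop := ∀ (R : ℕ) (V : Type) [Fintype V] (G : SimpleGraph V),
  G.Connected → BD 5 G → G.CliqueFree 5 → kN R ≤ Fintype.card V →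
    ∃ f : V → Option (Fin 5), Proper G f ∧ R * cnt f none ≤ Fintype.card V ∧
      (∀ c c' : Fin 5, R * cnt f (some c) ≤ R * cnt f (some c') + Fintype.card V) ∧
      ∀ i j : Fin 5, i ≠ j →
        Fintype.card V ≤ k8 * (univ.filter (fun v => FX G f i j v)).card

/-- the constant of SB4 -/
def k3 : ℕ := 4 * k8 * (5 * 5 * 6 ^ 10)

/-- the order of SB4 -/
def kQ (R : ℕ) : ℕ := max (kN R) k3

/-- SB4: many places of each type. -/
def SB4 : Prop := ∀ (R : ℕ) (V : Type) [Fintype V] (G : SimpleGraph V),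
  G.Connected → BD 5 G → G.CliqueFree 5 → 2 * k8 * 6 ^ 4 ≤ R → kQ R ≤ Fintype.card V →
    ∃ f : V → Option (Fin 5), Proper G f ∧ R * cnt f none ≤ Fintype.card V ∧
      (∀ c c' : Fin 5, R * cnt f (some c) ≤ R * cnt f (some c') + Fintype.card V) ∧
      ∃ (W : Finset V) (a b : V → Fin 5), PS G f W a b ∧
        ∀ i j : Fin 5, i ≠ j →
          Fintype.card V ≤ k3 * (W.filter (fun w => a w = i ∧ b w = j)).card

/-- the number of holes is at most `1 / kS` of the order -/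
def kS : ℕ := 6 ^ 7 * k3

/-- the order of SB5 -/
def kF (m : ℕ) : ℕ := kQ kS + 100 * k3 * (m + 1)

/-- SB5: prescribed nearly balanced class sizes. -/
def SB5 : Prop := ∀ (m : ℕ) (V : Type) [Fintype V] (G : SimpleGraph V),
  G.Connected → BD 5 G → G.CliqueFree 5 → kF m ≤ Fintype.card V → ∀ t : Fin 5 → ℕ,
    ∑ c, t c = Fintype.card V → (∀ i j, t i ≤ t j + m) → Colb G univ t

/-- SB6: simple upper bound for the order. -/
def SB6 : Prop := ∀ m : ℕ, kF m * 6 ≤ (m + 1) * 6 ^ (6 ^ 40)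

end

end Pool.Agent.Work.MP_47f387_co.Five
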