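import Pool.Agent.Work.MP_47f387_co.Bd.B05
import Pool.Agent.Work.MP_47f387_co.Five.Stmts

/-!
# MP_47f387_co, maximum degree 5: the final theorems
-/

namespace Pool.Agent.Work.MP_47f387_co.Five

open Finset Classical Large

lemma kF_le (h6 : SB6) : kF 1 ≤ 6 ^ (6 ^ 40) := by
  have h := h6 1
  generalize hN : (6 : ℕ) ^ (6 ^ 40) = N at h ⊢
  clear hN
  generalize kF 1 = x at h ⊢
  omega

/-- large connected `K_5`-free graphs -/
theorem large (h5 : SB5) (h6 : SB6) (V : Type) [Fintype V] (G : SimpleGraph V)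
    (hG : G.Connected) (hBD : BD 5 G) (hC : G.CliqueFree 5)
    (hn : 6 ^ (6 ^ 40) ≤ Fintype.card V) : ∃ t : Fin 5 → ℕ, Bal t ∧ Colb G univ t := by
  obtain ⟨t, ht1, ht2⟩ := IT1.exists_bal (d := 5) (by norm_num) (Fintype.card V)
  exact ⟨t, ht2, h5 1 V G hG hBD hC ((kF_le h6).trans hn) t ht1 ht2⟩

/-- the finite reduction for `K_5`-free graphs -/
theorem fin1 (h5 : SB5) (h6 : SB6) (h1 : V1) (p1 : P1) (p2 : P2)
    (hyp : ∀ (V : Type) [Fintype V] (G : SimpleGraph V), G.Connected → BD 5 G →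
      G.CliqueFree 5 → KF 5 G → Fintype.card V < 6 ^ (6 ^ 40) →
      ∃ t : Fin 5 → ℕ, Bal t ∧ Colb G univ t)
    (V : Type) [Fintype V] (G : SimpleGraph V) (hBD : BD 5 G) (hC : G.CliqueFree 5)
    (hK : KF 5 G) : ∃ t : Fin 5 → ℕ, Bal t ∧ Colb G univ t := by
  have hd1 : 1 ≤ 5 := by norm_num
  obtain ⟨w, hw, hbal⟩ := h1 5 G.ConnectedComponent
    (fun k => {t | Colb k.toSimpleGraph univ t}) univ
    (fun k t π ht => IT1.colb_perm ht π)
    (fun k _ => by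
      have hB := IT1.comp_BD p2 hd1 hBD k
      have hC := IT1.comp_CF p2 hd1 hC k
      by_cases hk : Fintype.card k < 6 ^ (6 ^ 40)
      · obtain ⟨t, ht1, ht2⟩ := hyp k k.toSimpleGraph k.connected_toSimpleGraph hB hC
          (IT1.comp_KF p2 hd1 hK k) hk
        exact ⟨t, ht2, ht1⟩
      · obtain ⟨t, ht1, ht2⟩ := large h5 h6 k k.toSimpleGraph k.connected_toSimpleGraph hB hC
          (not_lt.1 hk)
        exact ⟨t, ht2, ht1⟩)
  exact ⟨_, hbal, p1 5 V G w hd1 (fun k => hw k (mem_univ k))⟩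

/-- the finite reduction -/
theorem fin2 (h5 : SB5) (h6 : SB6) (h1 : V1) (p1 : P1) (p2 : P2) (r5 : R5)
    (hyp : ∀ (V : Type) [Fintype V] [DecidableEq V] (G : SimpleGraph V) [DecidableRel G.Adj],
      G.Connected → (∀ v, G.degree v ≤ 5) → G.CliqueFree 5 → KF 5 G →
      Fintype.card V < 6 ^ (6 ^ 40) → Equi G 5)
    (V : Type) [Fintype V] [DecidableEq V] (G : SimpleGraph V) [DecidableRel G.Adj]
    (hdeg : ∀ v, G.degree v ≤ 5) (hfree : G.CliqueFree 6) (hK : KF 5 G) : Equi G 5 := by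
  have hyp' : ∀ (V : Type) [Fintype V] (G : SimpleGraph V), G.Connected → BD 5 G →
      G.CliqueFree 5 → KF 5 G → Fintype.card V < 6 ^ (6 ^ 40) →
        ∃ t : Fin 5 → ℕ, Bal t ∧ Colb G univ t := by
    intro V _ G hG hBD hCF hK hc
    exact IT4.colb_of_equi (hyp V G hG (IT4.BD_iff.1 hBD) hCF hK hc)
  obtain ⟨P, _, _, W, _, H, _, hBH, hCH, hKH, hH⟩ :=
    IT4.reduce r5 p2 (le_refl 5) (IT4.BD_iff.2 hdeg) hfree
  obtain ⟨t, ht1, ht2⟩ := fin1 h5 h6 h1 p1 p2 hyp' W H hBH hCH (hKH hK)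
  obtain ⟨t', ht1', ht2'⟩ := hH t ht1 ht2
  exact IT4.equi_of_colb ht1' ht2'

end Pool.Agent.Work.MP_47f387_co.Five
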