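import Pool.Agent.Work.MP_47f387_co.Five.Stmts

/-!
# MP_47f387_co, maximum degree 5: item SB1

`FX` is local and equivariant.
-/

namespace Pool.Agent.Work.MP_47f387_co.Five

open Finset Classical Large

noncomputable section

namespace XSB1

lemma map_key {d : ℕ} (π : Equiv.Perm (Fin d)) (o : Option (Fin d)) (c : Fin d) :
    o.map π = some (π c) ↔ o = some c := by
  cases o with
  | none => simp
  | some a => simp

lemma dm_local {V : Type} {d : ℕ} {G : SimpleGraph V} {f g : V → Option (Fin d)} {i j : Fin d}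
    {v : V} (hfg : ∀ u, Near G 3 v u → f u = g u) (h : Dm G f i j v) : Dm G g i j v := by
  obtain ⟨p, p', z, hpp, hnpp, hvp, hvp', hvz, hzp, hzp', hfv, hfp, hfp', h1, h2, h3⟩ := h
  have nv : Near G 0 v v := rfl
  have np : Near G 1 v p := near_of_adj hvp
  have np' : Near G 1 v p' := near_of_adj hvp'
  refine ⟨p, p', z, hpp, hnpp, hvp, hvp', hvz, hzp, hzp', ?_, ?_, ?_, ?_, ?_, ?_⟩
  · rw [← hfg v (near_refl 3 v)]; exact hfv
  · rw [← hfg p (near_mono (by norm_num) np)]; exact hfp
  · rw [← hfg p' (near_mono (by norm_num) np')]; exact hfp'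
  · intro u hu hgu
    exact h1 u hu (by rw [hfg u (near_mono (by norm_num) (near_of_adj hu))]; exact hgu)
  · intro u hu hgu
    exact h2 u hu (by rw [hfg u (near_mono (by norm_num) (near_adj np hu))]; exact hgu)
  · intro u hu hgu
    exact h3 u hu (by rw [hfg u (near_mono (by norm_num) (near_adj np' hu))]; exact hgu)

lemma dm_eqv {V : Type} {d : ℕ} {G : SimpleGraph V} {f : V → Option (Fin d)}
    (π : Equiv.Perm (Fin d)) {i j : Fin d} {v : V} (h : Dm G f i j v) :
    Dm G (fun u => (f u).map π) (π i) (π j) v := by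
  obtain ⟨p, p', z, hpp, hnpp, hvp, hvp', hvz, hzp, hzp', hfv, hfp, hfp', h1, h2, h3⟩ := h
  exact ⟨p, p', z, hpp, hnpp, hvp, hvp', hvz, hzp, hzp', (map_key π _ _).2 hfv,
    (map_key π _ _).2 hfp, (map_key π _ _).2 hfp', fun u hu hgu => h1 u hu ((map_key π _ _).1 hgu),
    fun u hu hgu => h2 u hu ((map_key π _ _).1 hgu),
    fun u hu hgu => h3 u hu ((map_key π _ _).1 hgu)⟩

end XSB1

theorem prf_SB1 : SB1 := by
  intro d V G
  refine ⟨?_, ?_, ?_⟩
  · intro f g i j v hfg h
    rcases h with h | h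
    · exact Or.inl ((prfB5 d V G).1 f g i j v hfg h)
    · exact Or.inr (XSB1.dm_local hfg h)
  · intro f π i j v h
    rcases h with h | h
    · exact Or.inl ((prfB5 d V G).2 f π i j v h)
    · exact Or.inr (XSB1.dm_eqv π h)
  · intro f hf i v h
    rcases h with h | h
    · obtain ⟨e, -, -, w, -, -, hne, -⟩ := h
      exact hne rfl
    · obtain ⟨p, p', z, -, -, hvp, -, -, -, -, hfv, hfp, -⟩ := h
      exact hf v p i hvp hfv hfp

end

end Pool.Agent.Work.MP_47f387_co.Five
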