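import Pool.Agent.Work.MP_47f387_co.Five.Stmts

/-!
# MP_47f387_co, maximum degree 5: item SB2 (a good colouring)
-/

namespace Pool.Agent.Work.MP_47f387_co.Five

open Finset Classical Large

noncomputable section

namespace XSB2

lemma sq_step {x y e m : ℝ} (hx : (x - e) ^ 2 ≤ m) (hy : (y - e) ^ 2 ≤ m) :
    (x - y) ^ 2 ≤ 4 * m := by
  nlinarith [sq_nonneg ((x - e) + (y - e))]

lemma low_step {x e m : ℝ} (hx : (x - e) ^ 2 ≤ m) : e ≤ x + Real.sqrt m := by
  have h1 : |x - e| ≤ Real.sqrt m := Real.abs_le_sqrt hx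
  have h2 := (abs_le.1 h1).1
  linarith

/-- the averages are at least the average of the sum -/
lemma avg_low {Ω : Type} [Fintype Ω] (d : ℕ) (hd : 1 ≤ d) (c : Fin d → Fin d → Ω → ℝ)
    (T A : ℝ) (hT : T = (Fintype.card Ω : ℝ)) (hT0 : 0 < T)
    (hc : ∀ i j τ, 0 ≤ c i j τ) (hii : ∀ i τ, c i i τ = 0)
    (heq : ∀ i j i' j', i ≠ j → i' ≠ j' → ∑ τ, c i j τ = ∑ τ, c i' j' τ)
    (hA : ∀ τ, A ≤ ∑ i, ∑ j, c i j τ) (i j : Fin d) (hij : i ≠ j) :
    A / (d : ℝ) ^ 2 ≤ (∑ τ, c i j τ) / T := by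
  have hle : ∀ i' j', ∑ τ, c i' j' τ ≤ ∑ τ, c i j τ := by
    intro i' j'
    by_cases hij' : i' = j'
    · subst hij'
      rw [Finset.sum_eq_zero (fun τ _ => hii i' τ)]
      exact Finset.sum_nonneg (fun τ _ => hc i j τ)
    · exact (heq i' j' i j hij' hij).le
  have hsum : A * T ≤ ∑ i', ∑ j', ∑ τ, c i' j' τ := by
    have e1 : ∑ i', ∑ j', ∑ τ, c i' j' τ = ∑ τ, ∑ i', ∑ j', c i' j' τ := by
      calc ∑ i', ∑ j', ∑ τ, c i' j' τ = ∑ i', ∑ τ, ∑ j', c i' j' τ :=
            Finset.sum_congr rfl (fun i' _ => Finset.sum_comm)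
        _ = ∑ τ, ∑ i', ∑ j', c i' j' τ := Finset.sum_comm
    rw [e1]
    calc A * T = ∑ _τ : Ω, A := by
          rw [Finset.sum_const, Finset.card_univ, nsmul_eq_mul, mul_comm, hT]
      _ ≤ _ := Finset.sum_le_sum (fun τ _ => hA τ)
  have hd2 : (0 : ℝ) < (d : ℝ) ^ 2 := by positivity
  rw [div_le_div_iff₀ hd2 hT0]
  refine hsum.trans ?_
  calc ∑ i', ∑ j', ∑ τ, c i' j' τ ≤ ∑ _i' : Fin d, ∑ _j' : Fin d, ∑ τ, c i j τ :=
        Finset.sum_le_sum (fun i' _ => Finset.sum_le_sum (fun j' _ => hle i' j'))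
    _ = (∑ τ, c i j τ) * (d : ℝ) ^ 2 := by
        rw [Finset.sum_const, Finset.sum_const, Finset.card_univ, Fintype.card_fin,
          nsmul_eq_mul, nsmul_eq_mul]
        ring

/-- the events -/
def PP {V : Type} {d : ℕ} (Φ : (V → Option (Fin d)) → Fin d → Fin d → V → Prop)
    (F : (V → Equiv.Perm (Fin d)) → V → Option (Fin d)) :
    Fin d ⊕ (Fin d × Fin d) → V → (V → Equiv.Perm (Fin d)) → Prop
  | Sum.inl c, v, σ => F σ v = some c
  | Sum.inr p, v, σ => Φ (F σ) p.1 p.2 v

lemma PP_inl {V : Type} [Fintype V] {d : ℕ}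
    (Φ : (V → Option (Fin d)) → Fin d → Fin d → V → Prop)
    (F : (V → Equiv.Perm (Fin d)) → V → Option (Fin d)) (c : Fin d)
    (σ : V → Equiv.Perm (Fin d)) :
    (univ.filter (fun v => PP Φ F (Sum.inl c) v σ)).card = cnt (F σ) (some c) := by
  unfold cnt
  congr 1
  ext v
  rw [mem_filter, mem_filter]
  exact Iff.rfl

lemma PP_inr {V : Type} [Fintype V] {d : ℕ}
    (Φ : (V → Option (Fin d)) → Fin d → Fin d → V → Prop)
    (F : (V → Equiv.Perm (Fin d)) → V → Option (Fin d)) (p : Fin d × Fin d)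
    (σ : V → Equiv.Perm (Fin d)) :
    (univ.filter (fun v => PP Φ F (Sum.inr p) v σ)).card =
      (univ.filter (fun v => Φ (F σ) p.1 p.2 v)).card := by
  congr 1

lemma second {V : Type} [Fintype V] {d K D : ℕ} (h4 : B4)
    (G : SimpleGraph V) (Φ : (V → Option (Fin d)) → Fin d → Fin d → V → Prop)
    (h5 : Loc3 G Φ)
    (F : (V → Equiv.Perm (Fin d)) → V → Option (Fin d)) (hBD : BD d G)
    (hloc : ∀ σ τ v, (∀ u, Near G K v u → σ u = τ u) → F σ v = F τ v)
    (hD : D = (d + 1) ^ ((K + 3) + (K + 3))) :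
    ∃ σ : V → Equiv.Perm (Fin d), ∀ k : Fin d ⊕ (Fin d × Fin d),
      (((univ.filter (fun v => PP Φ F k v σ)).card : ℝ) -
        (∑ τ : V → Equiv.Perm (Fin d), ((univ.filter (fun v => PP Φ F k v τ)).card : ℝ)) /
          (Fintype.card (V → Equiv.Perm (Fin d)) : ℝ)) ^ 2 ≤
        (((d + d * d) * D : ℕ) : ℝ) * (Fintype.card V : ℝ) := by
  have hU : ∀ v v' : V, ¬ Disjoint (univ.filter (fun u => Near G (K + 3) v u))
      (univ.filter (fun u => Near G (K + 3) v' u)) → Near G ((K + 3) + (K + 3)) v v' := by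
    intro v v' h
    rw [Finset.not_disjoint_iff] at h
    obtain ⟨a, ha, hb⟩ := h
    rw [mem_filter] at ha hb
    exact near_trans ha.2 (near_symm hb.2)
  obtain ⟨σ, hσ⟩ := h4 V (Equiv.Perm (Fin d)) (Fin d ⊕ (Fin d × Fin d)) (PP Φ F)
    (fun v => univ.filter (fun u => Near G (K + 3) v u)) D
    (by
      intro k v σ τ hst hP
      have hst' : ∀ u, Near G (K + 3) v u → σ u = τ u :=
        fun u hu => hst u (by rw [mem_filter]; exact ⟨mem_univ _, hu⟩)
      rcases k with c | p
      · change F τ v = some c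
        have h1 : F σ v = F τ v := hloc σ τ v (fun u hu => hst' u (near_mono (by omega) hu))
        rw [← h1]
        exact hP
      · change Φ (F τ) p.1 p.2 v
        refine h5 (F σ) (F τ) p.1 p.2 v ?_ hP
        intro u hu
        refine hloc σ τ u (fun w hw => hst' w ?_)
        exact near_mono (by omega) (near_trans hu hw))
    (by
      intro v
      rw [hD]
      refine (card_le_card ?_).trans (near_card hBD ((K + 3) + (K + 3)) v)
      intro v' hv'
      rw [mem_filter] at hv' ⊢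
      exact ⟨mem_univ _, hU v v' hv'.2⟩)
  refine ⟨σ, fun k => (hσ k).trans (le_of_eq ?_)⟩
  rw [Fintype.card_sum, Fintype.card_prod, Fintype.card_fin]
  push_cast
  ring

/-- equal averages -/
lemma avg_eq {V : Type} [Fintype V] {d : ℕ}
    (Φ : (V → Option (Fin d)) → Fin d → Fin d → V → Prop) (hE : Eqv Φ)
    (F : (V → Equiv.Perm (Fin d)) → V → Option (Fin d))
    (hF : ∀ (π : Equiv.Perm (Fin d)) σ v, F (fun u => π * σ u) v = (F σ v).map π) :
    (∀ c c' : Fin d, ∑ σ : V → Equiv.Perm (Fin d), cnt (F σ) (some c) =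
      ∑ σ : V → Equiv.Perm (Fin d), cnt (F σ) (some c')) ∧
    (∀ i j i' j' : Fin d, i ≠ j → i' ≠ j' →
      ∑ σ : V → Equiv.Perm (Fin d), (univ.filter (fun v => Φ (F σ) i j v)).card =
      ∑ σ : V → Equiv.Perm (Fin d), (univ.filter (fun v => Φ (F σ) i' j' v)).card) := by
  have hbij : ∀ π : Equiv.Perm (Fin d), Function.Bijective
      (fun (σ : V → Equiv.Perm (Fin d)) => (fun u => π * σ u : V → Equiv.Perm (Fin d))) := by
    intro π
    constructor
    · intro σ τ h
      funext u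
      have := congrFun h u
      exact mul_left_cancel this
    · intro τ
      refine ⟨fun u => π⁻¹ * τ u, ?_⟩
      funext u
      simp
  constructor
  · intro c c'
    have h1 : ∀ σ, cnt (F σ) (some c) = cnt (F (fun u => Equiv.swap c c' * σ u)) (some c') := by
      intro σ
      unfold cnt
      congr 1
      ext v
      simp only [mem_filter, mem_univ, true_and]
      rw [hF]
      cases hv : F σ v with
      | none => simp
      | some a =>
        simp only [Option.map_some, Option.some.injEq]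
        constructor
        · rintro rfl; simp
        · intro h
          have : Equiv.swap c c' a = Equiv.swap c c' c := by rw [h]; simp
          exact (Equiv.swap c c').injective this
    calc ∑ σ : V → Equiv.Perm (Fin d), cnt (F σ) (some c)
        = ∑ σ : V → Equiv.Perm (Fin d), cnt (F (fun u => Equiv.swap c c' * σ u)) (some c') :=
          Finset.sum_congr rfl (fun σ _ => h1 σ)
      _ = _ := Fintype.sum_bijective _ (hbij (Equiv.swap c c')) _ _ (fun σ => rfl)
  · have hle : ∀ i j i' j' : Fin d, i ≠ j → i' ≠ j' →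
      ∑ σ : V → Equiv.Perm (Fin d), (univ.filter (fun v => Φ (F σ) i j v)).card ≤
      ∑ σ : V → Equiv.Perm (Fin d), (univ.filter (fun v => Φ (F σ) i' j' v)).card := by
      intro i j i' j' hij hij'
      obtain ⟨π, hπi, hπj⟩ : ∃ π : Equiv.Perm (Fin d), π i = i' ∧ π j = j' := by
        refine ⟨Equiv.swap (Equiv.swap i i' j) j' * Equiv.swap i i', ?_, ?_⟩
        · rw [Equiv.Perm.mul_apply, Equiv.swap_apply_left]
          refine Equiv.swap_apply_of_ne_of_ne ?_ hij'
          intro h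
          apply hij
          have : Equiv.swap i i' i = Equiv.swap i i' j := by rw [← h]; simp
          exact (Equiv.swap i i').injective this
        · rw [Equiv.Perm.mul_apply, Equiv.swap_apply_left]
      calc ∑ σ : V → Equiv.Perm (Fin d), (univ.filter (fun v => Φ (F σ) i j v)).card
          ≤ ∑ σ : V → Equiv.Perm (Fin d),
            (univ.filter (fun v => Φ (F (fun u => π * σ u)) i' j' v)).card := by
            apply Finset.sum_le_sum
            intro σ _
            apply card_le_card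
            intro v hv
            simp only [mem_filter, mem_univ, true_and] at hv ⊢
            have h := hE (F σ) π i j v hv
            rw [hπi, hπj] at h
            have he : (fun u => (F σ u).map π) = F (fun u => π * σ u) := by
              funext u; rw [hF]
            rw [he] at h
            exact h
        _ = _ := Fintype.sum_bijective _ (hbij π) _ _ (fun σ => rfl)
    intro i j i' j' hij hij'
    exact le_antisymm (hle i j i' j' hij hij') (hle i' j' i j hij' hij)

end XSB2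

open XSB2 in
theorem prf_SB2 : SB2 := by
  intro d K hd V _ G Φ F hBD hL hE hirr heq hloc A hA
  obtain ⟨D, hD⟩ : ∃ D : ℕ, D = (d + 1) ^ ((K + 3) + (K + 3)) := ⟨_, rfl⟩
  obtain ⟨σ, hσ⟩ := second prfB4 G Φ hL F hBD hloc hD
  unfold kM
  rw [← hD]
  have hT : (0 : ℝ) < (Fintype.card (V → Equiv.Perm (Fin d)) : ℝ) :=
    Nat.cast_pos.2 Fintype.card_pos
  obtain ⟨T, hTdef⟩ : ∃ T : ℝ, T = (Fintype.card (V → Equiv.Perm (Fin d)) : ℝ) := ⟨_, rfl⟩
  rw [← hTdef] at hσ hT
  obtain ⟨m, hm⟩ : ∃ m : ℝ, m = (((d + d * d) * D : ℕ) : ℝ) * (Fintype.card V : ℝ) := ⟨_, rfl⟩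
  rw [← hm] at hσ
  have hm4 : (4 : ℝ) * m = ((4 * ((d + d * d) * D) : ℕ) : ℝ) * (Fintype.card V : ℝ) := by
    rw [hm]; push_cast; ring
  have hm0 : 0 ≤ m := by
    rw [hm]
    exact mul_nonneg (Nat.cast_nonneg _) (Nat.cast_nonneg _)
  obtain ⟨h61, h62⟩ := avg_eq Φ hE F heq
  refine ⟨σ, ?_, ?_⟩
  · intro c c'
    have h1 := hσ (Sum.inl c)
    have h2 := hσ (Sum.inl c')
    simp_rw [PP_inl] at h1 h2
    have h3 : (∑ τ : V → Equiv.Perm (Fin d), ((cnt (F τ) (some c) : ℕ) : ℝ)) =
        ∑ τ : V → Equiv.Perm (Fin d), ((cnt (F τ) (some c') : ℕ) : ℝ) := by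
      rw [← Nat.cast_sum, ← Nat.cast_sum, h61 c c']
    rw [h3] at h1
    exact (sq_step h1 h2).trans hm4.le
  · intro i j hij
    have h1 := low_step (hσ (Sum.inr (i, j)))
    simp_rw [PP_inr] at h1
    have h2 := avg_low d hd (fun i' j' (τ : V → Equiv.Perm (Fin d)) =>
      ((univ.filter (fun v => Φ (F τ) i' j' v)).card : ℝ)) T (A : ℝ) hTdef hT
      (fun i' j' τ => Nat.cast_nonneg _)
      (fun i' τ => by
        rw [Nat.cast_eq_zero, Finset.card_eq_zero, Finset.filter_eq_empty_iff]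
        intro v _
        exact hirr τ i' v)
      (fun i₁ j₁ i₂ j₂ h₁ h₂ => by
        rw [← Nat.cast_sum, ← Nat.cast_sum, h62 i₁ j₁ i₂ j₂ h₁ h₂])
      (fun τ => by exact_mod_cast hA τ) i j hij
    refine h2.trans (h1.trans ?_)
    have h3 : Real.sqrt m ≤
        Real.sqrt (((4 * ((d + d * d) * D) : ℕ) : ℝ) * (Fintype.card V : ℝ)) := by
      apply Real.sqrt_le_sqrt
      rw [← hm4]
      linarith
    linarith

end

end Pool.Agent.Work.MP_47f387_co.Five
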