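import Pool.Agent.Work.MP_47f387_co.Five.Stmts

/-!
# MP_47f387_co, block FIVE, item SB3: the conclusion of the probabilistic part
-/

namespace Pool.Agent.Work.MP_47f387_co.Five

open Finset Classical Large

noncomputable section

namespace XSB3

lemma notGood5_card {V : Type} [Fintype V] {G : SimpleGraph V} (hd : BD 5 G)
    (hCF : G.CliqueFree 5) (Z : Finset V) (f : V → Option (Fin 5))
    (hf : ∀ v, v ∉ Z → f v ≠ none) :
    (univ.filter (fun v => ¬ Good5 G f v)).card ≤ Z.card * 6 ^ 3 +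
      (∑ i : Fin 5, ∑ j : Fin 5, (univ.filter (fun v => FX G f i j v)).card) := by
  have hsub : (univ.filter (fun v => ¬ Good5 G f v)) ⊆
      ((Z.biUnion (fun z => univ.filter (fun u => Near G 3 z u))) ∪
      ((univ : Finset (Fin 5)).biUnion (fun i => (univ : Finset (Fin 5)).biUnion
        (fun j => univ.filter (fun v => FX G f i j v))))) := by
    intro v hv
    rw [mem_filter] at hv
    have hv2 := hv.2
    unfold Good5 Good at hv2
    rw [mem_union]
    by_cases h1 : ∀ u, Near G 3 v u → f u ≠ none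
    · right
      have hK : ¬ InK 5 G v := by
        rintro ⟨s, _, hs⟩
        exact hCF s hs
      by_cases h2 : ∀ i j, ¬ Flex G f i j v
      · have h3 : ¬ ∀ i j, ¬ Dm G f i j v := fun h3 => hv2 ⟨⟨h1, h2, hK⟩, h3⟩
        push Not at h3
        obtain ⟨i, j, hij⟩ := h3
        rw [mem_biUnion]
        refine ⟨i, mem_univ _, ?_⟩
        rw [mem_biUnion]
        refine ⟨j, mem_univ _, ?_⟩
        rw [mem_filter]
        exact ⟨mem_univ _, Or.inr hij⟩
      · push Not at h2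
        obtain ⟨i, j, hij⟩ := h2
        rw [mem_biUnion]
        refine ⟨i, mem_univ _, ?_⟩
        rw [mem_biUnion]
        refine ⟨j, mem_univ _, ?_⟩
        rw [mem_filter]
        exact ⟨mem_univ _, Or.inl hij⟩
    · left
      push Not at h1
      obtain ⟨u, hu, hfu⟩ := h1
      have hz : u ∈ Z := by
        by_contra hz
        exact hf u hz hfu
      rw [mem_biUnion]
      exact ⟨u, hz, by simp [near_symm hu]⟩
  refine (card_le_card hsub).trans ?_
  refine (card_union_le _ _).trans ?_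
  refine Nat.add_le_add ?_ ?_
  · apply card_biUnion_le_card_mul
    intro z _
    exact near_card hd 3 z
  · refine card_biUnion_le.trans ?_
    apply Finset.sum_le_sum
    intro i _
    exact card_biUnion_le

end XSB3

open XSB3 in
theorem prf_SB3 (h14 : SF14) (h1 : SB1) (h2 : SB2) : SB3 := by
  intro R V _ G hconn hBD hCF hN
  obtain ⟨C0, hC0⟩ : ∃ C0, C0 = k0 := ⟨_, rfl⟩
  obtain ⟨R', hR'⟩ : ∃ R', R' = kR R := ⟨_, rfl⟩
  obtain ⟨M, hMdef⟩ : ∃ M, M = kM 5 ((R' + 1) * 6) := ⟨_, rfl⟩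
  have hC0pos : 1 ≤ C0 := by
    rw [hC0]
    unfold k0
    norm_num
  have hR'2 : R' = 2 * R + 8 * C0 * 6 ^ 3 := by
    rw [hR', hC0]
    rfl
  unfold kN at hN
  rw [← hR', ← hMdef, ← hC0] at hN
  unfold k8
  rw [← hC0]
  have h14' : ∀ f : V → Option (Fin 5), Proper G f → Fintype.card V ≤
      C0 * (univ.filter (fun v => ¬ Good5 G f v)).card := by
    intro f hf
    rw [hC0]
    have hlt : 6 ^ 5 < Fintype.card V := by omega
    exact h14 V G f hconn hBD hCF hf hlt
  clear hC0 hR'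
  obtain ⟨Z, hZ1, hZ2⟩ := prfB1 V G R' hconn (by omega)
  obtain ⟨key, hk1, hk2, hk3⟩ := prfB2 5 V G R' Z hBD hZ2
  obtain ⟨F, hF1, hF2, hF3, hF4⟩ := prfB3 5 V G _ Z key hBD hk1 hk2 hk3
  obtain ⟨hloc, heqv, hirr⟩ := h1 5 V G
  set n := Fintype.card V with hn
  have key1 : ∀ σ, n / (2 * C0) ≤ ∑ i : Fin 5, ∑ j : Fin 5,
      (univ.filter (fun v => FX G (F σ) i j v)).card := by
    intro σ
    have e1 := h14' (F σ) (hF1 σ)
    have e2 := notGood5_card hBD hCF Z (F σ) (hF2 σ)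
    set S := ∑ i : Fin 5, ∑ j : Fin 5, (univ.filter (fun v => FX G (F σ) i j v)).card with hS
    have e3 : n ≤ C0 * (Z.card * 6 ^ 3 + S) := e1.trans (Nat.mul_le_mul_left _ e2)
    have e4 : 8 * (C0 * (Z.card * 6 ^ 3)) ≤ 2 * n := by
      calc 8 * (C0 * (Z.card * 6 ^ 3)) = 8 * C0 * 6 ^ 3 * Z.card := by ring
        _ ≤ R' * Z.card := Nat.mul_le_mul_right _ (by omega)
        _ ≤ 2 * n := hZ1
    have e6 : n ≤ 2 * C0 * S := by
      have : C0 * (Z.card * 6 ^ 3 + S) =
        C0 * (Z.card * 6 ^ 3) + C0 * S := by ring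
      have h' : 2 * C0 * S = 2 * (C0 * S) := by ring
      omega
    exact Nat.div_le_of_le_mul e6
  obtain ⟨σ, hσ1, hσ2⟩ := h2 5 ((R' + 1) * 6) (by norm_num) V G (FX G) F hBD hloc heqv
    (fun σ i v => hirr (F σ) (hF1 σ) i v) hF3 hF4 (n / (2 * C0)) key1
  rw [← hMdef] at hσ1 hσ2
  have hnR : ((R : ℝ) ^ 2 * M) ≤ (n : ℝ) := by
    have : R ^ 2 * M ≤ n := by omega
    exact_mod_cast this
  refine ⟨F σ, hF1 σ, ?_, ?_, ?_⟩
  · have hc : cnt (F σ) none ≤ Z.card := by
      apply card_le_card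
      intro v hv
      rw [mem_filter] at hv
      by_contra hz
      exact hF2 σ v hz hv.2
    have h5 : 2 * (R * Z.card) ≤ 2 * n := by
      calc 2 * (R * Z.card) = 2 * R * Z.card := by ring
        _ ≤ R' * Z.card := Nat.mul_le_mul_right _ (by omega)
        _ ≤ 2 * n := hZ1
    have h6 : R * cnt (F σ) none ≤ R * Z.card := Nat.mul_le_mul_left _ hc
    omega
  · intro c c'
    have h5 := IB8.real_sq_le (R := (R : ℝ)) (n := (n : ℝ)) (M := (M : ℝ)) (by positivity)
      (by positivity) (hσ1 c c') hnR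
    have h6 : (R : ℝ) * cnt (F σ) (some c) ≤ R * cnt (F σ) (some c') + n := by
      rw [mul_sub] at h5
      linarith
    exact_mod_cast h6
  · intro i j hij
    have h5 := hσ2 i j hij
    set x : ℝ := ((univ.filter (fun v => FX G (F σ) i j v)).card : ℝ) with hx
    have hC0r : (0 : ℝ) < (C0 : ℝ) := by exact_mod_cast hC0pos
    have h6 : (n : ℝ) / (2 * C0) - 1 ≤ ((n / (2 * C0) : ℕ) : ℝ) := by
      have := Nat.lt_floor_add_one ((n : ℝ) / ((2 * C0 : ℕ) : ℝ))
      rw [Nat.floor_div_eq_div] at this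
      push_cast at this
      push_cast
      linarith
    have h7 : (16 * C0 * (5 : ℝ) ^ 2) * Real.sqrt ((M : ℝ) * n) ≤ n := by
      have h8 : (16 * C0 * (5 : ℝ) ^ 2) ^ 2 * M ≤ (n : ℝ) := by
        have : 256 * C0 ^ 2 * 5 ^ 4 * M ≤ n := by omega
        have h9 : ((256 * C0 ^ 2 * 5 ^ 4 * M : ℕ) : ℝ) ≤ (n : ℝ) := by exact_mod_cast this
        push_cast at h9
        linarith
      apply IB8.real_sq_le (M := (M : ℝ)) (by positivity) (by positivity) _ h8
      rw [Real.sq_sqrt (by positivity)]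
    have h8 : (16 * (C0 : ℝ)) ≤ n := by
      have : 16 * C0 ≤ n := by omega
      exact_mod_cast this
    have h9 : ((n / (2 * C0) : ℕ) : ℝ) ≤ (5 : ℝ) ^ 2 * (x + Real.sqrt ((M : ℝ) * n)) := by
      have hcast : (((5 : ℕ) : ℝ)) ^ 2 = (5 : ℝ) ^ 2 := by norm_num
      rw [hcast, div_le_iff₀ (by norm_num)] at h5
      linarith
    have h10 : 16 * (C0 : ℝ) * ((n : ℝ) / (2 * C0) - 1) = 8 * n - 16 * C0 := by
      field_simp
      ring
    have h11 : 16 * (C0 : ℝ) * ((n : ℝ) / (2 * C0) - 1) ≤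
        16 * (C0 : ℝ) * ((5 : ℝ) ^ 2 * (x + Real.sqrt ((M : ℝ) * n))) := by
      gcongr
      exact h6.trans h9
    have h12 : (n : ℝ) ≤ 16 * C0 * (5 : ℝ) ^ 2 * x := by nlinarith
    have h13 : (n : ℝ) ≤ ((16 * C0 * 5 ^ 2 *
        (univ.filter (fun v => FX G (F σ) i j v)).card : ℕ) : ℝ) := by
      push_cast
      rw [← hx]
      linarith
    exact_mod_cast h13

end

end Pool.Agent.Work.MP_47f387_co.Five
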