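import Pool.Agent.Work.MP_47f387_co.Five.Stmts

/-!
# MP_47f387_co, maximum degree 5: item SB4 (many places of each type)
-/

namespace Pool.Agent.Work.MP_47f387_co.Five

open Finset Classical Large

noncomputable section

namespace XSB4

/-- few vertices are near a hole -/
lemma near_hole {V : Type} [Fintype V] {G : SimpleGraph V} {d : ℕ} (hd : BD d G) (r : ℕ)
    (f : V → Option (Fin d)) :
    (univ.filter (fun v => ∃ u, Near G r v u ∧ f u = none)).card ≤ (d + 1) ^ r * cnt f none := by
  have hsub : univ.filter (fun v => ∃ u, Near G r v u ∧ f u = none) ⊆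
      (univ.filter (fun u => f u = none)).biUnion (fun u => univ.filter (fun v => Near G r u v)) := by
    intro v hv
    obtain ⟨u, hu, hfu⟩ := (mem_filter.1 hv).2
    rw [mem_biUnion]
    exact ⟨u, mem_filter.2 ⟨mem_univ _, hfu⟩, mem_filter.2 ⟨mem_univ _, near_symm hu⟩⟩
  refine (card_le_card hsub).trans ?_
  rw [mul_comm]
  exact card_biUnion_le_card_mul _ _ _ (fun u _ => near_card hd r u)

/-- many places -/
lemma many {V : Type} [Fintype V] {G : SimpleGraph V} {d : ℕ} (hd : BD d G)
    (f : V → Option (Fin d)) (Φ : V → Prop) (C R : ℕ) (hR : 2 * C * (d + 1) ^ 4 ≤ R)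
    (hholes : R * cnt f none ≤ Fintype.card V)
    (hflex : Fintype.card V ≤ C * (univ.filter (fun v => Φ v)).card) :
    Fintype.card V ≤ 2 * C *
      (univ.filter (fun v => Φ v ∧ ∀ u, Near G 4 v u → f u ≠ none)).card := by
  have h1 := near_hole hd 4 f
  have hsub : univ.filter (fun v => Φ v) ⊆
      univ.filter (fun v => Φ v ∧ ∀ u, Near G 4 v u → f u ≠ none) ∪
        univ.filter (fun v => ∃ u, Near G 4 v u ∧ f u = none) := by
    intro v hv
    rw [mem_union]
    by_cases h : ∃ u, Near G 4 v u ∧ f u = none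
    · exact Or.inr (mem_filter.2 ⟨mem_univ _, h⟩)
    · refine Or.inl (mem_filter.2 ⟨mem_univ _, (mem_filter.1 hv).2, ?_⟩)
      intro u hu hfu
      exact h ⟨u, hu, hfu⟩
  have h2 := (card_le_card hsub).trans (card_union_le _ _)
  generalize (univ.filter (fun v => Φ v ∧ ∀ u, Near G 4 v u → f u ≠ none)).card = P at h2 ⊢
  generalize (univ.filter (fun v => ∃ u, Near G 4 v u ∧ f u = none)).card = H at h1 h2
  generalize (univ.filter (fun v => Φ v)).card = T at h2 hflex
  generalize (d + 1) ^ 4 = E at h1 hR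
  generalize cnt f none = h at h1 hholes
  generalize Fintype.card V = n at hholes hflex ⊢
  have h3 : 2 * C * E * h ≤ n := (Nat.mul_le_mul_right h hR).trans hholes
  have h4 : C * T ≤ C * (P + H) := Nat.mul_le_mul_left _ h2
  have h5 : C * H ≤ C * (E * h) := Nat.mul_le_mul_left _ h1
  have h6 : 2 * C * E * h = 2 * (C * (E * h)) := by ring
  have h7 : C * (P + H) = C * P + C * H := by ring
  have h8 : 2 * C * P = 2 * (C * P) := by ring
  omega

theorem core (h1 : SP1) (h5 : SP5) (C0 R : ℕ) (hC0 : 1 ≤ C0) (V : Type) [Fintype V]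
    (G : SimpleGraph V) (hBD : BD 5 G) (f : V → Option (Fin 5)) (hP : Proper G f)
    (hR : 2 * C0 * 6 ^ 4 ≤ R) (hholes : R * cnt f none ≤ Fintype.card V)
    (hflex : ∀ i j : Fin 5, i ≠ j →
      Fintype.card V ≤ C0 * (univ.filter (fun v => FX G f i j v)).card)
    (hn : 4 * C0 * (5 * 5 * 6 ^ 10) ≤ Fintype.card V) :
    ∃ (W : Finset V) (a b : V → Fin 5), PS G f W a b ∧
      ∀ i j : Fin 5, i ≠ j → Fintype.card V ≤
        4 * C0 * (5 * 5 * 6 ^ 10) * (W.filter (fun w => a w = i ∧ b w = j)).card := by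
  have hPl : ∀ i j v, FX G f i j v → (∀ u, Near G 4 v u → f u ≠ none) → Pl G f i j v := by
    intro i j v hv hu
    rcases hv with hv | hv
    · exact h1 5 V G f i j v hBD hP hu hv
    · exact h5 5 V G f i j v (by norm_num) hBD hP hu hv
  have hmany : ∀ i j : Fin 5, i ≠ j → Fintype.card V ≤ 2 * C0 *
      (univ.filter (fun v => FX G f i j v ∧ ∀ u, Near G 4 v u → f u ≠ none)).card :=
    fun i j hij => many hBD f (fun v => FX G f i j v) C0 R hR hholes (hflex i j hij)
  set n := Fintype.card V with hn_def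
  obtain ⟨E, hE⟩ : ∃ E : ℕ, E = 6 ^ 10 := ⟨_, rfl⟩
  have hE0 : 0 < E := by rw [hE]; positivity
  rw [← hE] at hn ⊢
  set D : ℕ := 2 * C0 * (5 * 5 * E) with hD
  have hDpos : 0 < D := by positivity
  have hDD : 4 * C0 * (5 * 5 * E) = 2 * D := by rw [hD]; ring
  rw [hDD] at hn ⊢
  set m : ℕ := n / D with hm
  have hmD : D * m ≤ n := Nat.mul_div_le n D
  have hm1 : 1 ≤ m := (Nat.one_le_div_iff hDpos).2 (by omega)
  have hmD2 : n ≤ 2 * D * m := by
    have q1 : n < D * (m + 1) := Nat.lt_mul_div_succ n hDpos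
    nlinarith
  let Q : Type := {q : Fin 5 × Fin 5 × Fin m // q.1 ≠ q.2.1}
  have hQcard : Fintype.card Q ≤ 5 * 5 * m := by
    refine (Fintype.card_subtype_le _).trans (le_of_eq ?_)
    rw [Fintype.card_prod, Fintype.card_prod, Fintype.card_fin, Fintype.card_fin, mul_assoc]
  obtain ⟨x, hx1, hx2⟩ := prfC1 5 10 V G Q
    (fun q => univ.filter (fun v => FX G f q.1.1 q.1.2.1 v ∧ ∀ u, Near G 4 v u → f u ≠ none))
    hBD (fun q => by
      have q1 := hmany q.1.1 q.1.2.1 q.2
      have hE' : (5 + 1) ^ 10 = E := by rw [hE]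
      rw [hE']
      have q2 : Fintype.card Q * E ≤ 5 * 5 * m * E := Nat.mul_le_mul_right _ hQcard
      refine q2.trans ?_
      refine Nat.le_of_mul_le_mul_left ?_ (by omega : 0 < 2 * C0)
      refine le_trans (le_of_eq ?_) (hmD.trans q1)
      rw [hD]
      ring)
  have hinj : Function.Injective x := by
    intro q q' h
    by_contra hne
    exact hx2 q q' hne (h ▸ near_refl 10 (x q))
  let a : V → Fin 5 := fun v => if h : ∃ q, x q = v then (Classical.choose h).1.1 else 0
  let b : V → Fin 5 := fun v => if h : ∃ q, x q = v then (Classical.choose h).1.2.1 else 0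
  have ha : ∀ q, a (x q) = q.1.1 := by
    intro q
    have h : ∃ q', x q' = x q := ⟨q, rfl⟩
    have e : Classical.choose h = q := hinj (Classical.choose_spec h)
    simp only [a]
    rw [dif_pos h, e]
  have hb : ∀ q, b (x q) = q.1.2.1 := by
    intro q
    have h : ∃ q', x q' = x q := ⟨q, rfl⟩
    have e : Classical.choose h = q := hinj (Classical.choose_spec h)
    simp only [b]
    rw [dif_pos h, e]
  refine ⟨univ.image x, a, b, ⟨?_, ?_⟩, ?_⟩
  · intro v hv
    obtain ⟨q, _, rfl⟩ := mem_image.1 hv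
    rw [ha, hb]
    have h := (mem_filter.1 (hx1 q)).2
    exact hPl _ _ _ h.1 h.2
  · intro v hv v' hv' hne
    obtain ⟨q, _, rfl⟩ := mem_image.1 hv
    obtain ⟨q', _, rfl⟩ := mem_image.1 hv'
    exact hx2 q q' fun h => hne (by rw [h])
  · intro i j hij
    refine hmD2.trans (Nat.mul_le_mul_left _ ?_)
    let g : Fin m → V := fun k => x ⟨(i, j, k), hij⟩
    have hg : Function.Injective g := by
      intro k k' h
      have q1 := hinj h
      have q2 := congrArg (fun q : Q => q.1.2.2) q1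
      exact q2
    have hsub : univ.image g ⊆ (univ.image x).filter (fun v => a v = i ∧ b v = j) := by
      intro v hv
      obtain ⟨k, _, rfl⟩ := mem_image.1 hv
      refine mem_filter.2 ⟨mem_image.2 ⟨_, mem_univ _, rfl⟩, ?_, ?_⟩
      · exact ha ⟨(i, j, k), hij⟩
      · exact hb ⟨(i, j, k), hij⟩
    have q1 := card_le_card hsub
    rw [card_image_of_injective _ hg, card_univ, Fintype.card_fin] at q1
    exact q1

end XSB4

theorem prf_SB4 (h3 : SB3) (h1 : SP1) (h5 : SP5) : SB4 := by
  intro R V _ G hconn hBD hK hR hn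
  obtain ⟨f, hP, hholes, hbal, hflex⟩ := h3 R V G hconn hBD hK ((le_max_left _ _).trans hn)
  have hn3 : k3 ≤ Fintype.card V := (le_max_right _ _).trans hn
  have hk8 : 1 ≤ k8 := by
    unfold k8 k0
    norm_num
  have hk3 : k3 = 4 * k8 * (5 * 5 * 6 ^ 10) := rfl
  obtain ⟨W, a, b, hW, hcard⟩ := XSB4.core h1 h5 k8 R hk8 V G hBD f hP hR hholes hflex
    (hk3 ▸ hn3)
  refine ⟨f, hP, hholes, hbal, W, a, b, hW, ?_⟩
  intro i j hij
  rw [hk3]
  exact hcard i j hij

end

end Pool.Agent.Work.MP_47f387_co.Five
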