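import Pool.Agent.Work.MP_47f387_co.Five.Stmts

/-!
# MP_47f387_co, maximum degree 5: item SB5
-/

namespace Pool.Agent.Work.MP_47f387_co.Five

open Finset Classical Large

noncomputable section

namespace XSB5

lemma k8_pos : 1 ≤ k8 := by
  have : 0 < k8 := by
    unfold k8 k0
    positivity
  omega

lemma k3_pos : 1 ≤ k3 := by
  have h := k8_pos
  have : 0 < k3 := by
    unfold k3
    have : 0 < k8 := h
    positivity
  omega

lemma kS_eq : kS = 279936 * k3 := by
  unfold kS
  norm_num

lemma k8_le : 2 * k8 * 6 ^ 4 ≤ kS := by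
  unfold kS k3
  obtain ⟨K, hK⟩ : ∃ K, K = k8 := ⟨_, rfl⟩
  rw [← hK]
  calc 2 * K * 6 ^ 4 ≤ (2 * K * 6 ^ 4) * (6 ^ 3 * (2 * (5 * 5 * 6 ^ 10))) :=
        Nat.le_mul_of_pos_right _ (by norm_num)
    _ = 6 ^ 7 * (4 * K * (5 * 5 * 6 ^ 10)) := by ring

lemma colb {V : Type} [Fintype V] {G : SimpleGraph V} {f2 : V → Option (Fin 5)}
    (hf2 : Proper G f2) (hno2 : cnt f2 none = 0) {t : Fin 5 → ℕ}
    (hcnt2 : ∀ c, cnt f2 (some c) = t c) : Colb G univ t := by
  have htot : ∀ v, ∃ c, f2 v = some c := by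
    intro v
    have : f2 v ≠ none := by
      intro hv
      have h0 : (univ.filter (fun v => f2 v = none)) = ∅ := card_eq_zero.1 hno2
      have : v ∈ univ.filter (fun v => f2 v = none) := by simp [hv]
      rw [h0] at this
      simp at this
    exact Option.ne_none_iff_exists'.1 this
  choose col hcol using htot
  refine ⟨col, ?_, ?_⟩
  · intro u _ v _ huv heq
    exact hf2 u v (col u) huv (hcol u) (by rw [hcol v, heq])
  · intro c
    rw [← hcnt2 c]
    unfold cnt
    congr 1
    ext v
    simp [hcol v]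

end XSB5

theorem prf_SB5 (h4 : SB4) (h9 : SP9) (h10 : SP10) : SB5 := by
  have hk := XSB5.k8_le
  have hkS := XSB5.kS_eq
  have hC1 := XSB5.k3_pos
  intro m V _ G hG hBD hfree hn t ht htm
  have hN := h4 kS V G hG hBD hfree hk
  unfold kF at hn
  obtain ⟨C, hC⟩ : ∃ C, C = k3 := ⟨_, rfl⟩
  obtain ⟨N, hNdef⟩ : ∃ N, N = kQ kS := ⟨_, rfl⟩
  rw [← hNdef, ← hC] at hn
  rw [← hNdef, hkS, ← hC] at hN
  rw [← hC] at hC1
  clear hk hkS h4
  clear hNdef hC
  obtain ⟨f, hf, hh, hbal, W, a, b, hW, hWc⟩ := hN (by omega)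
  set n := Fintype.card V with hndef
  have hmn : 100 * C * m + 100 * C ≤ n := by
    have e : 100 * C * (m + 1) = 100 * C * m + 100 * C := by ring
    omega
  have hn1 : 1 ≤ n := by omega
  set h := cnt f none with hhdef
  have h01 : (0 : Fin 5) ≠ 1 := by decide
  have hWbig : n ≤ C * W.card :=
    (hWc 0 1 h01).trans (Nat.mul_le_mul_left _ (card_le_card (filter_subset _ _)))
  have hCh : 279936 * (C * h) ≤ n := by
    calc 279936 * (C * h) = 279936 * C * h := by ring
      _ ≤ n := hh
  have hlt : h < W.card := by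
    by_contra hcon
    push Not at hcon
    have h1 : C * W.card ≤ C * h := Nat.mul_le_mul_left _ hcon
    omega
  obtain ⟨f1, W1, hf1, hW1s, hW1c, hW1, hno1, hcnt1⟩ := h9 5 V G f W a b hG hBD hf hW hlt
  have hsum1 : ∑ c : Fin 5, cnt f1 (some c) = n := by
    have := IC7.sum_cnt f1
    rw [hno1, add_zero] at this
    exact this
  obtain ⟨c0, hc0⟩ : ∃ c0 : Fin 5, cnt f1 (some c0) ≤ t c0 := by
    by_contra hcon
    push Not at hcon
    have h1 : ∑ c : Fin 5, (t c + 1) ≤ ∑ c : Fin 5, cnt f1 (some c) :=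
      sum_le_sum (fun c _ => hcon c)
    rw [hsum1, sum_add_distrib, ht, sum_const, card_univ, Fintype.card_fin, smul_eq_mul,
      mul_one] at h1
    omega
  have hnum : ((5 : ℕ) + 1) ^ 4 = 1296 := by norm_num
  rw [hnum] at hcnt1
  set S := ∑ c : Fin 5, (cnt f1 (some c) - t c) with hS
  have hexc : ∀ c : Fin 5, 279936 * C * (cnt f1 (some c) - t c) ≤
      2593 * n + 279936 * C * m := by
    intro c
    have h1 : cnt f1 (some c) - t c ≤
        (cnt f (some c) - cnt f (some c0)) + 2592 * h + m := by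
      have e1 := (hcnt1 c).2
      have e2 := (hcnt1 c0).1
      have e3 := htm c0 c
      omega
    have h3 : 279936 * C * (cnt f (some c) - cnt f (some c0)) ≤ n := by
      have := hbal c c0
      rw [Nat.mul_sub]
      omega
    calc 279936 * C * (cnt f1 (some c) - t c)
        ≤ 279936 * C * ((cnt f (some c) - cnt f (some c0)) + 2592 * h + m) :=
          Nat.mul_le_mul_left _ h1
      _ = 279936 * C * (cnt f (some c) - cnt f (some c0)) + 2592 * (279936 * C * h) +
          279936 * C * m := by ring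
      _ ≤ n + 2592 * n + 279936 * C * m :=
          Nat.add_le_add_right (Nat.add_le_add h3 (Nat.mul_le_mul_left _ hh)) _
      _ = 2593 * n + 279936 * C * m := by ring
  have hS2 : 279936 * C * S ≤ 5 * (2593 * n + 279936 * C * m) := by
    rw [hS, mul_sum]
    calc ∑ c : Fin 5, 279936 * C * (cnt f1 (some c) - t c)
        ≤ ∑ c : Fin 5, (2593 * n + 279936 * C * m) := sum_le_sum (fun c _ => hexc c)
      _ = 5 * (2593 * n + 279936 * C * m) := by
          rw [sum_const, card_univ, Fintype.card_fin, smul_eq_mul]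
  have hm : ∀ i j : Fin 5, i ≠ j → S ≤ (W1.filter (fun w => a w = i ∧ b w = j)).card := by
    intro i j hij
    have h1 : (W.filter (fun w => a w = i ∧ b w = j)).card ≤
        (W1.filter (fun w => a w = i ∧ b w = j)).card + h := by
      have hsub : W.filter (fun w => a w = i ∧ b w = j) ⊆
          W1.filter (fun w => a w = i ∧ b w = j) ∪ (W \ W1) := by
        intro w hw
        rw [mem_filter] at hw
        by_cases hw1 : w ∈ W1
        · exact mem_union_left _ (mem_filter.2 ⟨hw1, hw.2⟩)
        · exact mem_union_right _ (mem_sdiff.2 ⟨hw.1, hw1⟩)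
      have h2 := (card_le_card hsub).trans (card_union_le _ _)
      have h3 : (W \ W1).card = W.card - W1.card := card_sdiff_of_subset hW1s
      omega
    have h2 := hWc i j hij
    by_contra hcon
    push Not at hcon
    set x := (W1.filter (fun w => a w = i ∧ b w = j)).card with hx
    have h3 : n ≤ C * (S + h) := h2.trans (Nat.mul_le_mul_left _ (by omega))
    have e1 : C * (S + h) = C * S + C * h := by ring
    have e2 : 279936 * C * S = 279936 * (C * S) := by ring
    have e3 : 279936 * C * m = 279936 * (C * m) := by ring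
    have e4 : 100 * C * m = 100 * (C * m) := by ring
    rw [e1] at h3
    rw [e2, e3] at hS2
    rw [e4] at hmn
    omega
  obtain ⟨f2, hf2, hno2, hcnt2⟩ := h10 5 V G f1 W1 a b t S hf1 hW1 hno1 ht le_rfl hm
  exact XSB5.colb hf2 hno2 hcnt2

end

end Pool.Agent.Work.MP_47f387_co.Five
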