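import Pool.Agent.Work.MP_47f387_co.Five.Stmts

/-!
Item SB6 of the block FIVE: simple upper bound for the order.
-/

set_option autoImplicit false

namespace Pool.Agent.Work.MP_47f387_co.Five

open Finset Classical Large

noncomputable section

namespace XSB6

theorem k3_le : k3 ≤ 6 ^ 27 := by decide +kernel

theorem kS_le : kS ≤ 6 ^ 34 := by decide +kernel

theorem kR_le : kR kS ≤ 6 ^ 35 := by decide +kernel

theorem K_le : (kR kS + 1) * 6 ≤ 6 ^ 37 := by decide +kernel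

theorem c1 : kS ^ 2 ≤ 6 ^ 68 := by
  calc kS ^ 2 ≤ (6 ^ 34) ^ 2 := Nat.pow_le_pow_left kS_le 2
    _ = 6 ^ 68 := by rw [← pow_mul]

theorem c2 : 256 * k0 ^ 2 * 5 ^ 4 ≤ 6 ^ 30 := by decide +kernel

theorem c3 : 16 * k0 ≤ 6 ^ 13 := by decide +kernel

/-- The large constant. -/
theorem kM_le (a K : ℕ) (h : 2 * K + 9 ≤ a) : kM 5 K ≤ 6 ^ a := by
  have h1 : kM 5 K = 120 * 6 ^ ((K + 3) + (K + 3)) := by
    unfold kM
    rw [← mul_assoc]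
    norm_num
  have h2 : (6 : ℕ) ^ (2 * K + 9) = 6 ^ 3 * 6 ^ ((K + 3) + (K + 3)) := by
    rw [← pow_add]
    congr 1
    ring
  calc kM 5 K = 120 * 6 ^ ((K + 3) + (K + 3)) := h1
    _ ≤ 6 ^ 3 * 6 ^ ((K + 3) + (K + 3)) := Nat.mul_le_mul_right _ (by norm_num)
    _ = 6 ^ (2 * K + 9) := h2.symm
    _ ≤ 6 ^ a := Nat.pow_le_pow_right (by norm_num) h

theorem kN_def (R : ℕ) : kN R = kR R + R ^ 2 * kM 5 ((kR R + 1) * 6) + 16 * k0 +
    256 * k0 ^ 2 * 5 ^ 4 * kM 5 ((kR R + 1) * 6) + 6 ^ 5 + 1 := rfl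

theorem aux (r u s w Y : ℕ) (hr : r ≤ Y) (hu : u ≤ Y) (hs : s ≤ Y) (hw : w ≤ Y)
    (h5 : 6 ^ 5 ≤ Y) (_h0 : 1 ≤ Y) : r + u + s + w + 6 ^ 5 + 1 ≤ 36 * Y := by
  omega

theorem kN_le (a : ℕ) (h : 2 * ((kR kS + 1) * 6) + 9 ≤ a) (ha : 70 ≤ a) :
    kN kS ≤ 6 ^ (a + 70) := by
  have hM := kM_le a _ h
  have hX : ∀ e, e ≤ a → (6 : ℕ) ^ e ≤ 6 ^ a := fun e he => Nat.pow_le_pow_right (by norm_num) he
  have e35 := hX 35 (by omega)
  have e12 := hX 13 (by omega)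
  have e5 := hX 5 (by omega)
  have e0 := hX 0 (by omega)
  have hr := kR_le
  have h1 : kS ^ 2 * kM 5 ((kR kS + 1) * 6) ≤ 6 ^ 68 * 6 ^ a := Nat.mul_le_mul c1 hM
  have h2 : 256 * k0 ^ 2 * 5 ^ 4 * kM 5 ((kR kS + 1) * 6) ≤ 6 ^ 30 * 6 ^ a :=
    Nat.mul_le_mul c2 hM
  have h3 := c3
  have h4 : (6 : ℕ) ^ (a + 70) = 36 * (6 ^ 68 * 6 ^ a) := by
    rw [show a + 70 = 2 + (68 + a) by ring, pow_add, pow_add]
    rfl
  have h6 : (6 : ℕ) ^ a ≤ 6 ^ 68 * 6 ^ a := Nat.le_mul_of_pos_left _ (by positivity)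
  have h7 : (6 : ℕ) ^ 30 * 6 ^ a ≤ 6 ^ 68 * 6 ^ a :=
    Nat.mul_le_mul_right _ (Nat.pow_le_pow_right (by norm_num) (by norm_num))
  have h2' := le_trans h2 h7
  have hr' := le_trans (le_trans hr e35) h6
  have h3' := le_trans (le_trans h3 e12) h6
  have e5' := le_trans e5 h6
  have e0' : 1 ≤ 6 ^ 68 * 6 ^ a := le_trans (by simpa using e0) h6
  rw [h4, kN_def]
  exact aux _ _ _ _ _ hr' h1 h3' h2' e5' e0'

theorem main : SB6 := by
  intro m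
  obtain ⟨a, ha⟩ : ∃ a : ℕ, a = 6 ^ 38 := ⟨_, rfl⟩
  have h37 : (6 : ℕ) ^ 37 * 6 = a := by rw [ha, ← pow_succ]
  have h39 : (6 : ℕ) ^ 40 = 36 * a := by
    rw [ha, show (40 : ℕ) = 38 + 1 + 1 from rfl, pow_succ, pow_succ]; ring
  have hK := K_le
  have hbig : 100 ≤ a := by
    rw [← h37]; norm_num
  have h1 : kN kS ≤ 6 ^ (a + 70) := kN_le a (by omega) (by omega)
  have h2 : k3 ≤ 6 ^ (a + 70) :=
    le_trans k3_le (Nat.pow_le_pow_right (by norm_num) (by omega))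
  have h3 : kQ kS ≤ 6 ^ (a + 70) := max_le h1 h2
  have h4 : 100 * k3 ≤ 6 ^ (a + 70) := by
    calc 100 * k3 ≤ 6 ^ 3 * 6 ^ 27 := Nat.mul_le_mul (by norm_num) k3_le
      _ = 6 ^ 30 := by rw [← pow_add]
      _ ≤ 6 ^ (a + 70) := Nat.pow_le_pow_right (by norm_num) (by omega)
  have h5 : kF m = kQ kS + 100 * k3 * (m + 1) := rfl
  rw [h5, h39]
  calc (kQ kS + 100 * k3 * (m + 1)) * 6
      ≤ (6 ^ (a + 70) * (m + 1) + 6 ^ (a + 70) * (m + 1)) * 6 := by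
        refine Nat.mul_le_mul_right _ (Nat.add_le_add ?_ (Nat.mul_le_mul_right _ h4))
        exact le_trans h3 (Nat.le_mul_of_pos_right _ (by omega))
    _ = (m + 1) * (12 * 6 ^ (a + 70)) := by ring
    _ ≤ (m + 1) * (6 ^ 2 * 6 ^ (a + 70)) :=
        Nat.mul_le_mul_left _ (Nat.mul_le_mul_right _ (by norm_num))
    _ = (m + 1) * 6 ^ (2 + (a + 70)) := by rw [← pow_add]
    _ ≤ (m + 1) * 6 ^ (36 * a) :=
        Nat.mul_le_mul_left _ (Nat.pow_le_pow_right (by norm_num) (by omega))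

end XSB6

/-- SB6: simple upper bound for the order. -/
theorem prf_SB6 : SB6 := XSB6.main

end

end Pool.Agent.Work.MP_47f387_co.Five
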