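import Pool.Agent.Work.MP_47f387_co.Five.Stmts

/-!
# MP_47f387_co, maximum degree 5, item SF1
-/

namespace Pool.Agent.Work.MP_47f387_co.Five

open Finset Classical Large

noncomputable section

namespace XSF1

variable {V : Type} [Fintype V] {G : SimpleGraph V} {f : V → Option (Fin 5)}

lemma first (hd : BD 5 G) (hf : Proper G f) {v : V} (hv : Good5 G f v) (hdeg : Deg G v = 5)
    (hc : (II G f v).card ≤ 2) : ∃ x ∈ pr G f v, x ∈ II G f v := by
  by_contra hcon
  push Not at hcon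
  have ht := tight0 hf hv.1
  obtain ⟨p, p', hne, hfp, hp, hp', hn, hpr⟩ := pair hd hf ht hdeg
  have hc2 : (pr G f v).card ≤ 2 := by rw [hpr]; exact card_le_two
  obtain ⟨g, hg, hg'⟩ : ∃ g, G.Adj v g ∧ g ∉ pr G f v ∪ II G f v := by
    by_contra h
    push Not at h
    have h1 : univ.filter (fun u => G.Adj v u) ⊆ pr G f v ∪ II G f v := by
      intro u hu
      exact h u (mem_filter.1 hu).2
    have h2 := card_le_card h1
    have h3 := card_union_le (pr G f v) (II G f v)
    have h4 : (univ.filter (fun u => G.Adj v u)).card = 5 := hdeg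
    omega
  rw [mem_union, not_or] at hg'
  have hpm : p ∈ pr G f v := by rw [hpr]; simp
  have hpm' : p' ∈ pr G f v := by rw [hpr]; simp
  have hpI := hcon p hpm
  have hpI' := hcon p' hpm'
  have hpg : G.Adj p g := key hf hv.1 hg hg'.1 hg'.2 hp (fun h => hg'.1 (h ▸ hpm)) hpI
  have hpg' : G.Adj p' g := key hf hv.1 hg hg'.1 hg'.2 hp' (fun h => hg'.1 (h ▸ hpm')) hpI'
  obtain ⟨i, hi⟩ := Option.ne_none_iff_exists'.1 (tight1 hf hv.1 hp).1
  obtain ⟨j, hj⟩ := Option.ne_none_iff_exists'.1 ht.1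
  refine hv.2 i j ⟨p, p', g, hne, hn, hp, hp', hg, hpg.symm, hpg'.symm, hj, hi, ?_, ?_, ?_, ?_⟩
  · rw [← hfp, hi]
  · intro u hu hfu
    by_contra h
    push Not at h
    have h1 := (mem_pr_of (f := f) hu hp h.1 (by rw [hfu, hi])).1
    rw [hpr, mem_insert, mem_singleton] at h1
    rcases h1 with h1 | h1
    · exact h.1 h1
    · exact h.2 h1
  · intro u hu hfu
    by_contra h
    have h1 := (mem_pr_of (f := f) (y := p) hp.symm hu (Ne.symm h) (by rw [hfu, hj])).1
    exact hpI (mem_II.2 ⟨tight1 hf hv.1 hp, h1⟩)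
  · intro u hu hfu
    by_contra h
    have h1 := (mem_pr_of (f := f) (y := p') hp'.symm hu (Ne.symm h) (by rw [hfu, hj])).1
    exact hpI' (mem_II.2 ⟨tight1 hf hv.1 hp', h1⟩)

end XSF1

theorem prf_SF1 : SF1 := by
  intro V _ G f hd hf v hv hdeg
  refine ⟨XSF1.first hd hf hv hdeg, ?_⟩
  have h1 : 1 ≤ (II G f v).card := card_pos.2 (II_nonempty hd hf hv.1)
  by_contra h
  have h2 : (II G f v).card = 1 := by omega
  obtain ⟨e, he⟩ := card_eq_one.1 h2
  obtain ⟨x, hx, hx'⟩ := XSF1.first hd hf hv hdeg (by omega)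
  have h3 : x = e := by
    rw [he, mem_singleton] at hx'
    exact hx'
  obtain ⟨p, p', _, _, _, _, _, hpr⟩ := pair hd hf (tight0 hf hv.1) hdeg
  exact disj hf hv.1 hdeg hpr he (h3 ▸ hx)

end

end Pool.Agent.Work.MP_47f387_co.Five
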