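import Pool.Agent.Work.MP_47f387_co.Five.Stmts

/-!
# MP_47f387_co, maximum degree 5: item SF10, the chain
-/

namespace Pool.Agent.Work.MP_47f387_co.Five

open Finset Classical Large

noncomputable section

namespace XSF10

variable {V : Type} {G : SimpleGraph V}

/-- `x` is at distance exactly `i` from `v₀` -/
def Lv (G : SimpleGraph V) (v₀ : V) (i : ℕ) (x : V) : Prop :=
  Near G i v₀ x ∧ ∀ j, j < i → ¬ Near G j v₀ x

theorem ne_of {v₀ x y : V} {a b : ℕ} (hx : Near G a v₀ x) (hy : ∀ j, j < b → ¬ Near G j v₀ y)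
    (h : a < b) : x ≠ y := by
  rintro rfl
  exact hy a h hx

theorem not_adj {v₀ x y : V} {a b : ℕ} (hx : Near G a v₀ x)
    (hy : ∀ j, j < b → ¬ Near G j v₀ y) (h : a + 1 < b) : ¬ G.Adj x y :=
  fun hxy => hy (a + 1) h (near_adj hx hxy)

theorem geod (v₀ : V) (r : ℕ) : ∀ x, Lv G v₀ r x → ∃ v : ℕ → V, v 0 = v₀ ∧ v r = x ∧
    (∀ i < r, G.Adj (v i) (v (i + 1))) ∧ ∀ i ≤ r, Lv G v₀ i (v i) := by
  induction r with
  | zero =>
    intro x hx
    have h0 : v₀ = x := hx.1
    refine ⟨fun _ => v₀, rfl, h0, fun i hi => absurd hi (Nat.not_lt_zero i), fun i hi => ?_⟩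
    have hi0 : i = 0 := Nat.le_zero.1 hi
    subst hi0
    exact ⟨rfl, fun j hj => absurd hj (Nat.not_lt_zero j)⟩
  | succ r ih =>
    intro x hx
    rcases hx.1 with h | ⟨w, hw, hwx⟩
    · exact absurd h (hx.2 r (Nat.lt_succ_self r))
    · have hlw : Lv G v₀ r w := ⟨hw, fun j hj hn => hx.2 (j + 1) (by omega) (near_adj hn hwx)⟩
      obtain ⟨v, h0, hr, hadj, hlv⟩ := ih w hlw
      refine ⟨fun i => if i ≤ r then v i else x, ?_, ?_, ?_, ?_⟩
      · simp [h0]
      · simp
      · intro i hi
        by_cases h1 : i < r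
        · simp only [if_pos (show i ≤ r by omega), if_pos (show i + 1 ≤ r by omega)]
          exact hadj i h1
        · have h2 : i = r := by omega
          subst h2
          simp only [le_refl, if_true, if_neg (show ¬ i + 1 ≤ i by omega)]
          rw [hr]
          exact hwx
      · intro i hi
        by_cases h1 : i ≤ r
        · simp only [if_pos h1]
          exact hlv i h1
        · have h2 : i = r + 1 := by omega
          subst h2
          simp only [if_neg h1]
          exact hx

/-- transfer of adjacency to the mate -/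
theorem mate_adj {u m w : V} (h : Mate G u m) (hu : w ≠ u) (hm : w ≠ m) (hw : G.Adj u w) :
    G.Adj m w := (h.2.1 w hu hm).2 hw

theorem mate_adj' {u m w : V} (h : Mate G u m) (hu : w ≠ u) (hm : w ≠ m) (hw : G.Adj m w) :
    G.Adj u w := (h.2.1 w hu hm).1 hw

end XSF10

open XSF10 in
theorem prf_SF10 : SF10 := by
  intro V _ G v₀ w hmate hw6 hw5
  have hlw : Lv G v₀ 6 w := ⟨hw6, fun j hj hn => hw5 (near_mono (by omega) hn)⟩
  obtain ⟨v, hv0, hv6, hadj, hlv⟩ := geod v₀ 6 w hlw
  have hmex : ∀ i, ∃ m, i ≤ 6 → Mate G (v i) m := by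
    intro i
    by_cases hi : i ≤ 6
    · obtain ⟨m, hm⟩ := hmate (v i) (near_mono hi (hlv i hi).1)
      exact ⟨m, fun _ => hm⟩
    · exact ⟨v₀, fun h => absurd h hi⟩
  choose m hm using hmex
  -- different vertices of the path
  have hvne : ∀ i j, i < j → j ≤ 6 → v i ≠ v j := fun i j hij hj =>
    ne_of (hlv i (by omega)).1 (hlv j hj).2 hij
  have hvna : ∀ i j, i + 1 < j → j ≤ 6 → ¬ G.Adj (v i) (v j) := fun i j hij hj =>
    not_adj (hlv i (by omega)).1 (hlv j hj).2 hij
  have hmne : ∀ i, i ≤ 6 → v i ≠ m i := fun i hi => (hm i hi).1.ne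
  -- F1
  have F1 : ∀ i, i < 6 → m i ≠ v (i + 1) := by
    intro i hi he
    rcases Nat.eq_zero_or_pos i with h0 | h0
    · subst h0
      have h1 : G.Adj (m 0) (v 2) := by
        rw [he]
        exact hadj 1 (by omega)
      have h2 := mate_adj' (hm 0 (by omega)) (hvne 0 2 (by omega) (by omega)).symm
        (by rw [he]; exact (hvne 1 2 (by omega) (by omega)).symm) h1
      exact hvna 0 2 (by omega) (by omega) h2
    · obtain ⟨k, rfl⟩ : ∃ k, i = k + 1 := ⟨i - 1, by omega⟩
      have h1 := mate_adj (hm (k + 1) (by omega)) (hvne k (k + 1) (by omega) (by omega))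
        (by rw [he]; exact hvne k (k + 1 + 1) (by omega) (by omega)) (hadj k (by omega)).symm
      rw [he] at h1
      exact hvna k (k + 1 + 1) (by omega) (by omega) h1.symm
  -- F2
  have F2 : ∀ i, i < 6 → m (i + 1) ≠ v i := by
    intro i hi he
    by_cases h5 : i + 2 ≤ 6
    · have h1 := mate_adj (hm (i + 1) (by omega)) (hvne (i + 1) (i + 2) (by omega) h5).symm
        (by rw [he]; exact (hvne i (i + 2) (by omega) h5).symm) (hadj (i + 1) (by omega))
      rw [he] at h1
      exact hvna i (i + 2) (by omega) h5 h1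
    · have hi5 : i = 5 := by omega
      subst hi5
      have h1 : G.Adj (m 6) (v 4) := by
        rw [he]
        exact (hadj 4 (by omega)).symm
      have h2 := mate_adj' (hm 6 (by omega)) (hvne 4 6 (by omega) (by omega))
        (by rw [he]; exact hvne 4 5 (by omega) (by omega)) h1
      exact hvna 4 6 (by omega) (by omega) h2.symm
  -- F3
  have F3 : ∀ i, i < 6 → m i ≠ m (i + 1) := by
    intro i hi he
    rcases Nat.eq_zero_or_pos i with h0 | h0
    · subst h0
      have hne : v 2 ≠ m 1 := by
        intro h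
        have h3 := (hm 0 (by omega)).1
        rw [he, ← h] at h3
        exact hvna 0 2 (by omega) (by omega) h3
      have h1 := mate_adj (hm 1 (by omega)) (hvne 1 2 (by omega) (by omega)).symm hne
        (hadj 1 (by omega))
      rw [← he] at h1
      have h2 := mate_adj' (hm 0 (by omega)) (hvne 0 2 (by omega) (by omega)).symm
        (by rw [he]; exact hne) h1
      exact hvna 0 2 (by omega) (by omega) h2
    · obtain ⟨k, rfl⟩ : ∃ k, i = k + 1 := ⟨i - 1, by omega⟩
      have hne : v k ≠ m (k + 1 + 1) := by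
        intro h
        have h3 := (hm (k + 1 + 1) (by omega)).1
        rw [← h] at h3
        exact hvna k (k + 1 + 1) (by omega) (by omega) h3.symm
      have h1 := mate_adj (hm (k + 1) (by omega)) (hvne k (k + 1) (by omega) (by omega))
        (by rw [he]; exact hne) (hadj k (by omega)).symm
      rw [he] at h1
      have h2 := mate_adj' (hm (k + 1 + 1) (by omega))
        (hvne k (k + 1 + 1) (by omega) (by omega)) hne h1
      exact hvna k (k + 1 + 1) (by omega) (by omega) h2.symm
  -- neighbourhoods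
  have HN : ∀ k, k + 2 ≤ 6 → ∀ u, (G.Adj (v (k + 1)) u ↔ u = m (k + 1) ∨ u = v k ∨ u = m k ∨
      u = v (k + 2) ∨ u = m (k + 2)) ∧ (G.Adj (m (k + 1)) u ↔ u = v (k + 1) ∨ u = v k ∨
      u = m k ∨ u = v (k + 2) ∨ u = m (k + 2)) := by
    intro k hk
    have hM := hm (k + 1) (by omega)
    have hMa := hm k (by omega)
    have hMb := hm (k + 2) (by omega)
    obtain ⟨a', b', ha1, ha2, hb1, hb2, hQ1, hQ2, hN⟩ := hM.2.2.2 (v k) (v (k + 2))
      (hadj k (by omega)).symm (hadj (k + 1) (by omega)) (F2 k (by omega)).symm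
      (F1 (k + 1) (by omega)).symm (hvne k (k + 2) (by omega) (by omega))
      (hvna k (k + 2) (by omega) (by omega))
    have ha' : a' = m k := by
      have h1 := hMa.2.2.1 _ hQ1 (by simp)
      simp only [mem_insert, mem_singleton] at h1
      rcases h1 with h1 | h1 | h1 | h1
      · exact absurd h1 (F1 k (by omega))
      · exact absurd h1 (F3 k (by omega))
      · exact absurd h1.symm (hmne k (by omega))
      · exact h1.symm
    have hb' : b' = m (k + 2) := by
      have h1 := hMb.2.2.1 _ hQ2 (by simp)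
      simp only [mem_insert, mem_singleton] at h1
      rcases h1 with h1 | h1 | h1 | h1
      · exact absurd h1 (F2 (k + 1) (by omega))
      · exact absurd h1.symm (F3 (k + 1) (by omega))
      · exact absurd h1.symm (hmne (k + 2) (by omega))
      · exact h1.symm
    subst ha' hb'
    intro u
    refine ⟨hN u, ?_⟩
    by_cases hu1 : u = v (k + 1)
    · subst hu1
      exact ⟨fun _ => Or.inl rfl, fun _ => hM.1.symm⟩
    · by_cases hu2 : u = m (k + 1)
      · subst hu2
        constructor
        · intro h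
          exact absurd h (G.loopless.irrefl _)
        · rintro (h | h | h | h | h)
          · exact absurd h hu1
          · exact absurd h (F2 k (by omega))
          · exact absurd h ha1.symm
          · exact absurd h (F1 (k + 1) (by omega))
          · exact absurd h hb1.symm
      · rw [hM.2.1 u hu1 hu2, hN u]
        constructor
        · rintro (h | h)
          · exact absurd h hu2
          · exact Or.inr h
        · rintro (h | h)
          · exact absurd h hu1
          · exact Or.inr h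
  -- levels of the mates
  have hml : ∀ k, k + 2 ≤ 6 → Lv G v₀ (k + 1) (m (k + 1)) := by
    intro k hk
    have h1 : G.Adj (m (k + 1)) (v k) := ((HN k hk (v k)).2).2 (Or.inr (Or.inl rfl))
    have h2 : G.Adj (m (k + 1)) (v (k + 2)) :=
      ((HN k hk (v (k + 2))).2).2 (Or.inr (Or.inr (Or.inr (Or.inl rfl))))
    exact ⟨near_adj (hlv k (by omega)).1 h1.symm,
      fun j hj hn => (hlv (k + 2) hk).2 (j + 1) (by omega) (near_adj hn h2)⟩
  have hm0 : Near G 1 v₀ (m 0) := by
    have h1 := near_of_adj (hm 0 (by omega)).1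
    rwa [hv0] at h1
  have hm6 : ∀ j, j < 5 → ¬ Near G j v₀ (m 6) := fun j hj hn =>
    (hlv 6 le_rfl).2 (j + 1) (by omega) (near_adj hn (hm 6 le_rfl).1.symm)
  have hm7 : ∀ k, k ≤ 6 → Near G 7 v₀ (m k) := fun k hk =>
    near_mono (show k + 1 ≤ 7 by omega) (near_adj (hlv k hk).1 (hm k hk).1)
  -- upper and lower bounds of the levels
  have hup : ∀ k, k ≤ 4 → Near G (max k 1) v₀ (m k) := by
    intro k hk
    rcases Nat.eq_zero_or_pos k with h0 | h0
    · subst h0
      exact hm0
    · obtain ⟨l, rfl⟩ : ∃ l, k = l + 1 := ⟨k - 1, by omega⟩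
      exact near_mono (le_max_left _ _) (hml l (by omega)).1
  have hlo : ∀ l, 2 ≤ l → l ≤ 6 → ∀ j, j < min l 5 → ¬ Near G j v₀ (m l) := by
    intro l hl hl6 j hj
    by_cases h6 : l = 6
    · subst h6
      exact hm6 j (by omega)
    · obtain ⟨l', rfl⟩ : ∃ l', l = l' + 1 := ⟨l - 1, by omega⟩
      exact (hml l' (by omega)).2 j (by omega)
  have d1 : ∀ k l, k < l → l ≤ 6 → m k ≠ m l := by
    intro k l hkl hl
    by_cases h1 : l = k + 1
    · subst h1
      exact F3 k (by omega)
    · exact ne_of (hup k (by omega)) (hlo l (by omega) hl) (by omega)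
  have d2 : ∀ k l, k < l → l ≤ 6 → v k ≠ m l := by
    intro k l hkl hl
    by_cases h1 : l = k + 1
    · subst h1
      exact (F2 k (by omega)).symm
    · exact ne_of (hlv k (by omega)).1 (hlo l (by omega) hl) (by omega)
  have d3 : ∀ k l, k < l → l ≤ 6 → m k ≠ v l := by
    intro k l hkl hl
    by_cases h1 : l = k + 1
    · subst h1
      exact F1 k (by omega)
    · exact ne_of (hup k (by omega)) (hlv l hl).2 (by omega)
  refine ⟨v, m, ⟨?_, hmne, (hm 0 (by omega)).1, (hm 6 le_rfl).1, ?_⟩, (hlv 3 (by omega)).1,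
    fun k hk => ⟨near_mono (by omega) (hlv k hk).1, hm7 k hk⟩⟩
  · intro k l hk hl hkl
    rcases lt_or_gt_of_ne hkl with h | h
    · exact ⟨hvne k l h hl, d1 k l h hl, d2 k l h hl⟩
    · exact ⟨(hvne l k h hk).symm, (d1 l k h hk).symm, (d3 l k h hk).symm⟩
  · intro k hk1 hk5 u
    obtain ⟨l, rfl⟩ : ∃ l, k = l + 1 := ⟨k - 1, by omega⟩
    exact HN l (by omega) u

end

end Pool.Agent.Work.MP_47f387_co.Five
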