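import Pool.Agent.Work.MP_47f387_co.Five.Stmts

/-!
# MP_47f387_co, maximum degree 5, item SF11: all the modified colourings are tight on the chain
-/

namespace Pool.Agent.Work.MP_47f387_co.Five

open Finset Classical Large

noncomputable section

namespace XSF11

variable {V : Type} {G : SimpleGraph V} {p q : ℕ → V}

theorem adj_bag (hC : Chain G p q) {k : ℕ} (hk : k ≤ 6) : G.Adj (p k) (q k) := by
  obtain ⟨_, _, h0, h6, h⟩ := hC
  rcases Nat.eq_zero_or_pos k with rfl | hk0
  · exact h0
  · rcases Nat.lt_or_ge k 6 with hk6 | hk6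
    · exact ((h k hk0 (by omega) (q k)).1).2 (Or.inl rfl)
    · obtain rfl : k = 6 := by omega
      exact h6

theorem adj_next (hC : Chain G p q) {k : ℕ} (hk : k ≤ 5) :
    G.Adj (p k) (p (k + 1)) ∧ G.Adj (p k) (q (k + 1)) ∧ G.Adj (q k) (p (k + 1)) ∧
      G.Adj (q k) (q (k + 1)) := by
  obtain ⟨_, _, h0, h6, h⟩ := hC
  rcases Nat.eq_zero_or_pos k with rfl | hk0
  · have h1 := h 1 le_rfl (by norm_num)
    refine ⟨?_, ?_, ?_, ?_⟩
    · exact ((h1 (p 0)).1.2 (by simp)).symm
    · exact ((h1 (p 0)).2.2 (by simp)).symm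
    · exact ((h1 (q 0)).1.2 (by simp)).symm
    · exact ((h1 (q 0)).2.2 (by simp)).symm
  · have h1 := h k hk0 hk
    refine ⟨?_, ?_, ?_, ?_⟩
    · exact (h1 _).1.2 (by simp)
    · exact (h1 _).1.2 (by simp)
    · exact (h1 _).2.2 (by simp)
    · exact (h1 _).2.2 (by simp)

/-- the middle bags are within distance 2 of `p 3` -/
theorem near_mid (hC : Chain G p q) {k : ℕ} (hk1 : 1 ≤ k) (hk5 : k ≤ 5) {u : V}
    (hu : u = p k ∨ u = q k) : Near G 2 (p 3) u := by
  have a1 := adj_next hC (k := 1) (by norm_num)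
  have a2 := adj_next hC (k := 2) (by norm_num)
  have a3 := adj_next hC (k := 3) (by norm_num)
  have a4 := adj_next hC (k := 4) (by norm_num)
  have b3 := adj_bag hC (k := 3) (by norm_num)
  simp only [Nat.reduceAdd] at a1 a2 a3 a4
  have n2 : Near G 1 (p 3) (p 2) := near_of_adj a2.1.symm
  have n4 : Near G 1 (p 3) (p 4) := near_of_adj a3.1
  have hk : k = 1 ∨ k = 2 ∨ k = 3 ∨ k = 4 ∨ k = 5 := by omega
  rcases hk with rfl | rfl | rfl | rfl | rfl <;> rcases hu with rfl | rfl
  · exact near_adj n2 a1.1.symm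
  · exact near_adj n2 a1.2.2.1.symm
  · exact near_succ n2
  · exact near_succ (near_of_adj a2.2.2.1.symm)
  · exact near_refl _ _
  · exact near_succ (near_of_adj b3)
  · exact near_succ n4
  · exact near_succ (near_of_adj a3.2.1)
  · exact near_adj n4 a4.1
  · exact near_adj n4 a4.2.1

/-- the permutation preserves the set of coloured vertices of the chain -/
theorem coloured {f h : V → Option (Fin 5)}
    (hf : ∀ k ≤ 6, f (p k) ≠ none ∧ f (q k) ≠ none) {e : Equiv.Perm V}
    (he : ∀ u, e u ≠ u → ∃ k, 1 ≤ k ∧ k ≤ 5 ∧ (u = p k ∨ u = q k)) (hh : ∀ u, h u = f (e u))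
    {u : V} (hu : ∃ k, k ≤ 6 ∧ (u = p k ∨ u = q k)) : h u ≠ none := by
  rw [hh]
  by_cases h1 : e u = u
  · rw [h1]
    obtain ⟨k, hk, rfl | rfl⟩ := hu
    · exact (hf k hk).1
    · exact (hf k hk).2
  · have h2 : e (e u) ≠ e u := fun h3 => h1 (e.injective h3)
    obtain ⟨k, _, hk, h4 | h4⟩ := he _ h2
    · rw [h4]
      exact (hf k (by omega)).1
    · rw [h4]
      exact (hf k (by omega)).2

theorem ne_of_adj {h : V → Option (Fin 5)} (hP : Proper G h) {u v : V} (huv : G.Adj u v)
    (hu : h u ≠ none) : h u ≠ h v := by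
  intro h1
  obtain ⟨c, hc⟩ := Option.ne_none_iff_exists'.1 hu
  exact hP u v c huv hc (by rw [← h1, hc])

theorem count (A B C : Finset (Option (Fin 5))) (hA : none ∉ A) (hB : none ∉ B) (hC : none ∉ C)
    (cA : A.card = 2) (cB : B.card = 2) (cC : C.card = 2) (hAB : Disjoint A B)
    (hBC : Disjoint B C) (hall : ∀ c : Fin 5, some c ∈ A ∪ B ∪ C) : (A ∩ C).card = 1 := by
  set S : Finset (Option (Fin 5)) := univ.image some with hS
  have cS : S.card = 5 := by
    rw [hS, Finset.card_image_of_injective _ (Option.some_injective _)]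
    simp
  have memS : ∀ o : Option (Fin 5), o ≠ none → o ∈ S := by
    intro o ho
    obtain ⟨c, hc⟩ := Option.ne_none_iff_exists'.1 ho
    rw [hS, mem_image]
    exact ⟨c, mem_univ _, hc.symm⟩
  have h1 : S ⊆ (A ∪ C) ∪ B := by
    intro o ho
    rw [hS, mem_image] at ho
    obtain ⟨c, _, rfl⟩ := ho
    have := hall c
    simp only [mem_union] at this ⊢
    tauto
  have h2 : (A ∪ C) ⊆ S \ B := by
    intro o ho
    rw [mem_sdiff]
    rw [mem_union] at ho
    rcases ho with ho | ho
    · exact ⟨memS o (fun h => hA (h ▸ ho)), fun hb => (Finset.disjoint_left.1 hAB) ho hb⟩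
    · exact ⟨memS o (fun h => hC (h ▸ ho)), fun hb => (Finset.disjoint_left.1 hBC) hb ho⟩
  have h3 : B ⊆ S := fun o ho => memS o (fun h => hB (h ▸ ho))
  have h4 : (S \ B).card = 3 := by
    rw [Finset.card_sdiff_of_subset h3, cS, cB]
  have h5 : (A ∪ C).card ≤ 3 := (card_le_card h2).trans h4.le
  have h6 : 5 ≤ (A ∪ C).card + B.card :=
    cS.symm.le.trans ((card_le_card h1).trans (card_union_le _ _))
  have h7 := Finset.card_union_add_card_inter A C
  omega

end XSF11

open XSF11 in
theorem prf_SF11 : SF11 := by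
  intro V _ G f h p q hC hP hf hflex hmd
  obtain ⟨hPh, e, he, hh⟩ := hmd
  have hcp : ∀ k ≤ 6, h (p k) ≠ none := fun k hk => coloured hf he hh ⟨k, hk, Or.inl rfl⟩
  have hcq : ∀ k ≤ 6, h (q k) ≠ none := fun k hk => coloured hf he hh ⟨k, hk, Or.inr rfl⟩
  have hnone : ∀ k ≤ 6, none ∉ Tb p q h k := by
    intro k hk hn
    rw [Tb, mem_insert, mem_singleton] at hn
    rcases hn with hn | hn
    · exact hcp k hk hn.symm
    · exact hcq k hk hn.symm
  have hcard : ∀ k ≤ 6, (Tb p q h k).card = 2 := by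
    intro k hk
    exact Finset.card_pair (ne_of_adj hPh (adj_bag hC hk) (hcp k hk))
  have hdisj : ∀ k ≤ 5, Disjoint (Tb p q h k) (Tb p q h (k + 1)) := by
    intro k hk
    obtain ⟨a1, a2, a3, a4⟩ := adj_next hC hk
    have b1 := ne_of_adj hPh a1 (hcp k (by omega))
    have b2 := ne_of_adj hPh a2 (hcp k (by omega))
    have b3 := ne_of_adj hPh a3 (hcq k (by omega))
    have b4 := ne_of_adj hPh a4 (hcq k (by omega))
    rw [Finset.disjoint_left]
    intro o ho ho'
    rw [Tb, mem_insert, mem_singleton] at ho ho'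
    rcases ho with rfl | rfl
    · rcases ho' with h1 | h1
      · exact b1 h1
      · exact b2 h1
    · rcases ho' with h1 | h1
      · exact b3 h1
      · exact b4 h1
  refine ⟨fun k hk => ⟨hnone k hk, hcard k hk⟩, hdisj, ?_⟩
  intro k hk
  refine count _ (Tb p q h (k + 1)) _ (hnone k (by omega)) (hnone _ (by omega))
    (hnone _ (by omega)) (hcard k (by omega)) (hcard _ (by omega)) (hcard _ (by omega))
    (hdisj k (by omega)) (hdisj (k + 1) (by omega)) ?_
  intro c
  obtain ⟨i, hi⟩ := Option.ne_none_iff_exists'.1 (hcp (k + 1) (by omega))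
  by_cases hci : c = i
  · rw [mem_union, mem_union]
    left
    right
    rw [Tb, mem_insert]
    left
    rw [hi, hci]
  · have hsees : Sees G h (p (k + 1)) c := by
      by_contra hns
      apply hflex i c
      refine ⟨e, ?_, ?_, p (k + 1), ?_, ?_⟩
      · intro u hu
        obtain ⟨l, hl1, hl5, hul⟩ := he u hu
        exact near_mid hC hl1 hl5 hul
      · intro u w c' _ huw h1
        rw [← hh] at h1 ⊢
        exact hPh u w c' huw h1
      · exact near_mid hC (k := k + 1) (by omega) (by omega) (Or.inl rfl)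
      · have h1 : (fun u => f (e u)) = h := by
          funext u
          rw [hh]
        rw [h1]
        exact ⟨hi, Ne.symm hci, hns⟩
    obtain ⟨u, hu, huc⟩ := hsees
    have h1 := ((hC.2.2.2.2 (k + 1) (by omega) (by omega) u).1).1 hu
    rw [Nat.add_sub_cancel] at h1
    rw [mem_union, mem_union]
    rcases h1 with rfl | rfl | rfl | rfl | rfl
    · left; right
      simp [Tb, huc]
    · left; left
      simp [Tb, huc]
    · left; left
      simp [Tb, huc]
    · right
      simp [Tb, huc]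
    · right
      simp [Tb, huc]

end

end Pool.Agent.Work.MP_47f387_co.Five
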