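import Pool.Agent.Work.MP_47f387_co.Five.Stmts

/-!
# MP_47f387_co, maximum degree 5: the window lemma
-/

namespace Pool.Agent.Work.MP_47f387_co.Five

open Finset Classical Large

noncomputable section

namespace XSF12

variable {V : Type} {G : SimpleGraph V} {p q : ℕ → V} {h : V → Option (Fin 5)}

/-- `x`, `x1` are the two vertices of the bag `j` -/
def Bg (p q : ℕ → V) (x x1 : V) (j : ℕ) : Prop := (x = p j ∧ x1 = q j) ∨ (x = q j ∧ x1 = p j)

/-- `u` is in the bag `j` -/
def In (p q : ℕ → V) (u : V) (j : ℕ) : Prop := u = p j ∨ u = q j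

lemma mem_T {u : V} {j : ℕ} (hu : In p q u j) : h u ∈ Tb p q h j := by
  unfold Tb
  rcases hu with rfl | rfl
  · exact Finset.mem_insert_self _ _
  · exact Finset.mem_insert_of_mem (Finset.mem_singleton_self _)

lemma bag_T {x x1 : V} {j : ℕ} (hx : Bg p q x x1 j) : Tb p q h j = {h x, h x1} := by
  rcases hx with ⟨rfl, rfl⟩ | ⟨rfl, rfl⟩
  · rfl
  · exact Finset.pair_comm _ _

lemma bag_in {x x1 : V} {j : ℕ} (hx : Bg p q x x1 j) : In p q x j ∧ In p q x1 j := by
  rcases hx with ⟨rfl, rfl⟩ | ⟨rfl, rfl⟩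
  · exact ⟨Or.inl rfl, Or.inr rfl⟩
  · exact ⟨Or.inr rfl, Or.inl rfl⟩

lemma exists_bag {c : Option (Fin 5)} {j : ℕ} (hc : c ∈ Tb p q h j) :
    ∃ x x1, Bg p q x x1 j ∧ h x = c := by
  unfold Tb at hc
  rw [Finset.mem_insert, Finset.mem_singleton] at hc
  rcases hc with hc | hc
  · exact ⟨p j, q j, Or.inl ⟨rfl, rfl⟩, hc.symm⟩
  · exact ⟨q j, p j, Or.inr ⟨rfl, rfl⟩, hc.symm⟩

lemma bag_ne (hC : Chain G p q) {u v : V} {j l : ℕ} (hj : j ≤ 6) (hl : l ≤ 6) (hjl : j ≠ l)
    (hu : In p q u j) (hv : In p q v l) : u ≠ v := by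
  obtain ⟨h1, h2, h3⟩ := hC.1 j l hj hl hjl
  obtain ⟨-, -, h4⟩ := hC.1 l j hl hj hjl.symm
  rcases hu with rfl | rfl <;> rcases hv with rfl | rfl
  · exact h1
  · exact h3
  · exact h4.symm
  · exact h2

lemma bag_ne1 (hC : Chain G p q) {x x1 : V} {j : ℕ} (hj : j ≤ 6) (hx : Bg p q x x1 j) :
    x ≠ x1 := by
  have h1 := hC.2.1 j hj
  rcases hx with ⟨rfl, rfl⟩ | ⟨rfl, rfl⟩
  · exact h1
  · exact h1.symm

lemma bag_adj (hC : Chain G p q) {x x1 u : V} {j : ℕ} (hj : 1 ≤ j) (hj' : j ≤ 5)
    (hx : Bg p q x x1 j) (hu : G.Adj x u) : u = x1 ∨ In p q u (j - 1) ∨ In p q u (j + 1) := by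
  obtain ⟨h1, h2⟩ := hC.2.2.2.2 j hj hj' u
  rcases hx with ⟨rfl, rfl⟩ | ⟨rfl, rfl⟩
  · rcases h1.1 hu with h | h | h | h | h
    · exact Or.inl h
    · exact Or.inr (Or.inl (Or.inl h))
    · exact Or.inr (Or.inl (Or.inr h))
    · exact Or.inr (Or.inr (Or.inl h))
    · exact Or.inr (Or.inr (Or.inr h))
  · rcases h2.1 hu with h | h | h | h | h
    · exact Or.inl h
    · exact Or.inr (Or.inl (Or.inl h))
    · exact Or.inr (Or.inl (Or.inr h))
    · exact Or.inr (Or.inr (Or.inl h))
    · exact Or.inr (Or.inr (Or.inr h))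

/-- exchanging the colours of `x` and `y` -/
lemma swap_proper (hP : Proper G h) {x y : V} (hx : ∀ u, G.Adj x u → u ≠ y → h u ≠ h y)
    (hy : ∀ u, G.Adj y u → u ≠ x → h u ≠ h x) : Proper G (fun u => h (Equiv.swap x y u)) := by
  by_cases hxy : x = y
  · subst hxy
    simpa using hP
  have ex : h (Equiv.swap x y x) = h y := by rw [Equiv.swap_apply_left]
  have ey : h (Equiv.swap x y y) = h x := by rw [Equiv.swap_apply_right]
  have eo : ∀ u, u ≠ x → u ≠ y → h (Equiv.swap x y u) = h u := fun u h1 h2 => by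
    rw [Equiv.swap_apply_of_ne_of_ne h1 h2]
  intro u v c huv hu hv
  beta_reduce at hu hv
  by_cases hux : u = x
  · subst hux
    rw [ex] at hu
    by_cases hvy : v = y
    · subst hvy
      rw [ey] at hv
      exact hP _ _ _ huv hv hu
    · rw [eo v huv.ne' hvy] at hv
      exact hx v huv hvy (hv.trans hu.symm)
  · by_cases huy : u = y
    · subst huy
      rw [ey] at hu
      by_cases hvx : v = x
      · subst hvx
        rw [ex] at hv
        exact hP _ _ _ huv hv hu
      · rw [eo v hvx huv.ne'] at hv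
        exact hy v huv hvx (hv.trans hu.symm)
    · rw [eo u hux huy] at hu
      by_cases hvx : v = x
      · subst hvx
        rw [ex] at hv
        exact hx u huv.symm huy (hu.trans hv.symm)
      · by_cases hvy : v = y
        · subst hvy
          rw [ey] at hv
          exact hy u huv.symm hux (hu.trans hv.symm)
        · rw [eo v hvx hvy] at hv
          exact hP _ _ _ huv hu hv

/-- exchanging two vertices of the bags `1, ..., 5` -/
lemma swap_md {f : V → Option (Fin 5)} (hM : Md G p q f h) {x y : V} {j l : ℕ}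
    (hj : 1 ≤ j ∧ j ≤ 5) (hl : 1 ≤ l ∧ l ≤ 5) (hx : In p q x j) (hy : In p q y l)
    (hP : Proper G (fun u => h (Equiv.swap x y u))) :
    Md G p q f (fun u => h (Equiv.swap x y u)) := by
  obtain ⟨-, e, he, hfe⟩ := hM
  refine ⟨hP, (Equiv.swap x y).trans e, ?_, ?_⟩
  · intro u hu
    by_cases hux : u = x
    · subst hux
      exact ⟨j, hj.1, hj.2, hx⟩
    · by_cases huy : u = y
      · subst huy
        exact ⟨l, hl.1, hl.2, hy⟩
      · apply he
        rw [Equiv.trans_apply, Equiv.swap_apply_of_ne_of_ne hux huy] at hu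
        exact hu
  · intro u
    exact hfe _

/-- five colours -/
lemma five {T1 T3 : Finset (Option (Fin 5))} {a b z : Option (Fin 5)} (hab : a ≠ b)
    (haz : a ≠ z) (hbz : b ≠ z) (h0 : none ≠ a) (h0b : none ≠ b) (h0z : none ≠ z)
    (h1 : T1.card = 2) (h3 : T3.card = 2) (n1 : none ∉ T1) (n3 : none ∉ T3)
    (a1 : a ∉ T1) (b1 : b ∉ T1) (z1 : z ∉ T1) (a3 : a ∉ T3) (z3 : z ∉ T3)
    (h13 : (T1 ∩ T3).card = 1) : b ∈ T3 := by
  by_contra hb
  have hcard : (({none, a, b, z} : Finset (Option (Fin 5))))ᶜ.card = 2 := by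
    rw [Finset.card_compl]
    have : ({none, a, b, z} : Finset (Option (Fin 5))).card = 4 := by
      rw [Finset.card_insert_of_notMem, Finset.card_insert_of_notMem,
        Finset.card_pair hbz]
      · simp [hab, haz]
      · simp [h0, h0b, h0z]
    rw [this]
    simp
  have e1 : T1 = ({none, a, b, z} : Finset (Option (Fin 5)))ᶜ := by
    apply Finset.eq_of_subset_of_card_le
    · intro w hw
      rw [Finset.mem_compl, Finset.mem_insert, Finset.mem_insert, Finset.mem_insert,
        Finset.mem_singleton]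
      rintro (rfl | rfl | rfl | rfl)
      · exact n1 hw
      · exact a1 hw
      · exact b1 hw
      · exact z1 hw
    · rw [hcard, h1]
  have e3 : T3 = ({none, a, b, z} : Finset (Option (Fin 5)))ᶜ := by
    apply Finset.eq_of_subset_of_card_le
    · intro w hw
      rw [Finset.mem_compl, Finset.mem_insert, Finset.mem_insert, Finset.mem_insert,
        Finset.mem_singleton]
      rintro (rfl | rfl | rfl | rfl)
      · exact n3 hw
      · exact a3 hw
      · exact hb hw
      · exact z3 hw
    · rw [hcard, h3]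
  rw [e1, e3, Finset.inter_self, hcard] at h13
  omega

end XSF12

open XSF12 in
theorem prf_SF12 (h11 : SF11) : SF12 := by
  intro V _ G f h p q hC hf hnn hfl hM k hk a ha ha2 ha4
  obtain ⟨hc, hd, hi⟩ := h11 V G f h p q hC hf hnn hfl hM
  -- the vertices
  obtain ⟨u0, u1, hu, hu0⟩ := exists_bag ha
  obtain ⟨x1, x, hx', hx1⟩ := exists_bag ha2
  have hx : Bg p q x x1 (k + 2) := by
    rcases hx' with ⟨h1, h2⟩ | ⟨h1, h2⟩
    · exact Or.inr ⟨h2, h1⟩
    · exact Or.inl ⟨h2, h1⟩
  have hTk : Tb p q h k = {a, h u1} := by rw [bag_T hu, hu0]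
  have hTk2 : Tb p q h (k + 2) = {a, h x} := by rw [bag_T hx', hx1]
  set b := h u1 with hb
  set z := h x with hz
  have hck := (hc k (by omega)).2
  have hck2 := (hc (k + 2) (by omega)).2
  have hab : a ≠ b := by
    intro e
    rw [hTk, ← e, Finset.pair_eq_singleton, Finset.card_singleton] at hck
    omega
  have haz : a ≠ z := by
    intro e
    rw [hTk2, ← e, Finset.pair_eq_singleton, Finset.card_singleton] at hck2
    omega
  have hbz : b ≠ z := by
    intro e
    have h1 := hi k (by omega)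
    rw [hTk, hTk2, ← e, Finset.inter_self, Finset.card_pair hab] at h1
    omega
  have hbT : b ∈ Tb p q h k := by rw [hTk]; simp
  have hzT : z ∈ Tb p q h (k + 2) := by rw [hTk2]; simp
  -- z is not a colour of the bag k + 4
  have hz4 : z ∉ Tb p q h (k + 4) := by
    intro h1
    have h2 := hi (k + 2) (by omega)
    have h3 : ({a, z} : Finset (Option (Fin 5))) ⊆ Tb p q h (k + 2) ∩ Tb p q h (k + 2 + 2) := by
      intro w hw
      rw [Finset.mem_insert, Finset.mem_singleton] at hw
      rcases hw with rfl | rfl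
      · exact Finset.mem_inter.2 ⟨ha2, ha4⟩
      · exact Finset.mem_inter.2 ⟨hzT, h1⟩
    have h4 := Finset.card_le_card h3
    rw [h2, Finset.card_pair haz] at h4
    omega
  -- disjointness
  have hd0 := hd k (by omega)
  have hd1 := hd (k + 1) (by omega)
  have hd2 := hd (k + 2) (by omega)
  have a1 : a ∉ Tb p q h (k + 1) := Finset.disjoint_left.1 hd0 ha
  have b1 : b ∉ Tb p q h (k + 1) := Finset.disjoint_left.1 hd0 hbT
  have z1 : z ∉ Tb p q h (k + 1) := Finset.disjoint_right.1 hd1 hzT
  have a3 : a ∉ Tb p q h (k + 3) := Finset.disjoint_left.1 hd2 ha2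
  have z3 : z ∉ Tb p q h (k + 3) := Finset.disjoint_left.1 hd2 hzT
  have hn : ∀ j ≤ 6, ∀ w ∈ Tb p q h j, none ≠ w := by
    intro j hj w hw e
    rw [← e] at hw
    exact (hc j hj).1 hw
  have hb3 : b ∈ Tb p q h (k + 3) := five hab haz hbz (hn k (by omega) a ha)
    (hn k (by omega) b hbT) (hn (k + 2) (by omega) z hzT) (hc (k + 1) (by omega)).2
    (hc (k + 3) (by omega)).2 (hc (k + 1) (by omega)).1 (hc (k + 3) (by omega)).1 a1 b1 z1 a3 z3
    (hi (k + 1) (by omega))
  obtain ⟨y, y1, hy, hyb⟩ := exists_bag hb3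
  have hTk3 : Tb p q h (k + 3) = {b, h y1} := by rw [bag_T hy, hyb]
  have hbs : h y1 ≠ b := by
    intro e
    have h1 := (hc (k + 3) (by omega)).2
    rw [hTk3, e, Finset.pair_eq_singleton, Finset.card_singleton] at h1
    omega
  have hy1T : h y1 ∈ Tb p q h (k + 3) := mem_T (bag_in hy).2
  -- the exchange
  have hP : Proper G (fun u => h (Equiv.swap x y u)) := by
    apply swap_proper hM.1
    · intro u hu' huy
      rw [hyb]
      rcases bag_adj hC (by omega) (by omega) hx hu' with rfl | h1 | h1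
      · rw [hx1]
        exact hab
      · have h2 : h u ∈ Tb p q h (k + 1) := mem_T h1
        intro e
        rw [e] at h2
        exact b1 h2
      · rcases h1 with h1 | h1
        · rcases hy with ⟨hy0, hy1⟩ | ⟨hy0, hy1⟩
          · exact absurd (h1.trans hy0.symm) huy
          · rw [h1, ← hy1]
            exact hbs
        · rcases hy with ⟨hy0, hy1⟩ | ⟨hy0, hy1⟩
          · rw [h1, ← hy1]
            exact hbs
          · exact absurd (h1.trans hy0.symm) huy
    · intro u hu' hux
      rcases bag_adj hC (by omega) (by omega) hy hu' with rfl | h1 | h1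
      · intro e
        rw [e] at hy1T
        exact z3 hy1T
      · have h2 : In p q u (k + 2) := h1
        rcases h2 with h1 | h1
        · rcases hx with ⟨hx0, hx01⟩ | ⟨hx0, hx01⟩
          · exact absurd (h1.trans hx0.symm) hux
          · rw [h1, ← hx01, hx1]
            exact haz
        · rcases hx with ⟨hx0, hx01⟩ | ⟨hx0, hx01⟩
          · rw [h1, ← hx01, hx1]
            exact haz
          · exact absurd (h1.trans hx0.symm) hux
      · have h2 : h u ∈ Tb p q h (k + 4) := mem_T h1
        intro e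
        rw [e] at h2
        exact hz4 h2
  have hM' := swap_md hM (j := k + 2) (l := k + 3) ⟨by omega, by omega⟩ ⟨by omega, by omega⟩
    (bag_in hx).1 (bag_in hy).1 hP
  obtain ⟨-, -, hi'⟩ := h11 V G f _ p q hC hf hnn hfl hM'
  have h1 := hi' k (by omega)
  -- the colours of the bags k and k + 2
  have hux : ∀ u, In p q u k → h (Equiv.swap x y u) = h u := by
    intro u hu'
    rw [Equiv.swap_apply_of_ne_of_ne]
    · exact bag_ne hC (by omega) (by omega) (by omega) hu' (bag_in hx).1
    · exact bag_ne hC (by omega) (by omega) (by omega) hu' (bag_in hy).1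
  have e0 : Tb p q (fun u => h (Equiv.swap x y u)) k = {a, b} := by
    rw [bag_T hu]
    beta_reduce
    rw [hux u0 (bag_in hu).1, hux u1 (bag_in hu).2, hu0]
  have e2 : Tb p q (fun u => h (Equiv.swap x y u)) (k + 2) = {b, a} := by
    rw [bag_T hx]
    beta_reduce
    rw [Equiv.swap_apply_left, Equiv.swap_apply_of_ne_of_ne, hyb, hx1]
    · exact (bag_ne1 hC (by omega) hx).symm
    · exact bag_ne hC (by omega) (by omega) (by omega) (bag_in hx).2 (bag_in hy).1
  rw [e0, e2, Finset.pair_comm b a, Finset.inter_self, Finset.card_pair hab] at h1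
  omega

end

end Pool.Agent.Work.MP_47f387_co.Five
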