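import Pool.Agent.Work.MP_47f387_co.Five.Stmts

/-!
# MP_47f387_co, block FIVE, item SF13: a chain is flexible
-/

namespace Pool.Agent.Work.MP_47f387_co.Five

open Finset Classical Large

noncomputable section

namespace XSF13

lemma pair_mem {α : Type} {u v a z w : α} (ha : a = u ∨ a = v) (hz : z = u ∨ z = v)
    (hne : z ≠ a) (hw : w = u ∨ w = v) : w = a ∨ w = z := by
  rcases ha with rfl | rfl <;> rcases hz with rfl | rfl <;> rcases hw with rfl | rfl <;> simp_all

lemma mem_Tb {V : Type} {p q : ℕ → V} {h : V → Option (Fin 5)} {k : ℕ} {o : Option (Fin 5)} :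
    o ∈ Tb p q h k ↔ o = h (p k) ∨ o = h (q k) := by
  simp [Tb]

end XSF13

open XSF13 in
theorem prf_SF13 (h11 : SF11) (h12 : SF12) : SF13 := by
  intro V _ G f p q hC hf hcol
  by_contra hcon
  push Not at hcon
  have hMd : Md G p q f f := ⟨hf, 1, fun u hu => absurd rfl hu, fun u => rfl⟩
  obtain ⟨hcard, hdis, hint⟩ := h11 V G f f p q hC hf hcol hcon hMd
  have hwin := h12 V G f f p q hC hf hcol hcon hMd
  -- the elements
  obtain ⟨a, ha⟩ := Finset.card_pos.1 (by rw [hint 0 (by norm_num)]; norm_num)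
  rw [Finset.mem_inter] at ha
  obtain ⟨ha0, ha2⟩ := ha
  obtain ⟨z, hz2, hza⟩ : ∃ z ∈ Tb p q f 2, z ≠ a :=
    Finset.exists_mem_ne (by rw [(hcard 2 (by norm_num)).2]; norm_num) a
  have hz0 : z ∉ Tb p q f 0 := by
    intro h
    have h1 : (Tb p q f 0 ∩ Tb p q f (0 + 2)).card = 1 := hint 0 (by norm_num)
    obtain ⟨t, ht⟩ := Finset.card_eq_one.1 h1
    have h2 : z ∈ Tb p q f 0 ∩ Tb p q f (0 + 2) := Finset.mem_inter.2 ⟨h, hz2⟩
    have h3 : a ∈ Tb p q f 0 ∩ Tb p q f (0 + 2) := Finset.mem_inter.2 ⟨ha0, ha2⟩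
    rw [ht, Finset.mem_singleton] at h2 h3
    exact hza (h2.trans h3.symm)
  obtain ⟨c0, hc1, hc3⟩ : ∃ c ∈ Tb p q f 1, c ∉ Tb p q f 3 := by
    by_contra hall
    push Not at hall
    have h1 : (Tb p q f 1 ∩ Tb p q f (1 + 2)).card = 1 := hint 1 (by norm_num)
    have h2 : Tb p q f 1 ⊆ Tb p q f 1 ∩ Tb p q f (1 + 2) := fun c hc =>
      Finset.mem_inter.2 ⟨hc, hall c hc⟩
    have h3 := Finset.card_le_card h2
    rw [h1, (hcard 1 (by norm_num)).2] at h3
    omega
  have d12 : ∀ o, o ∈ Tb p q f 1 → o ∉ Tb p q f 2 := fun o h1 h2 =>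
    Finset.disjoint_left.1 (hdis 1 (by norm_num)) h1 h2
  have hc2 : c0 ∉ Tb p q f 2 := d12 c0 hc1
  have hc0 : c0 ≠ none := fun h => (hcard 1 (by norm_num)).1 (h ▸ hc1)
  -- c0 in S 4
  have hc4 : c0 ∈ Tb p q f 4 := by
    have e23 : (Tb p q f 2 ∪ Tb p q f 3).card = 4 := by
      rw [Finset.card_union_of_disjoint (hdis 2 (by norm_num)), (hcard 2 (by norm_num)).2,
        (hcard 3 (by norm_num)).2]
    have e4 : ((Tb p q f 2 ∪ Tb p q f 3) ∩ Tb p q f 4).card = 1 := by
      have : (Tb p q f 2 ∪ Tb p q f 3) ∩ Tb p q f 4 = Tb p q f 2 ∩ Tb p q f 4 := by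
        ext o
        simp only [Finset.mem_inter, Finset.mem_union]
        constructor
        · rintro ⟨h1 | h1, h2⟩
          · exact ⟨h1, h2⟩
          · exact absurd h2 (Finset.disjoint_left.1 (hdis 3 (by norm_num)) h1)
        · rintro ⟨h1, h2⟩
          exact ⟨Or.inl h1, h2⟩
      rw [this]
      exact hint 2 (by norm_num)
    have e5 := Finset.card_union_add_card_inter (Tb p q f 2 ∪ Tb p q f 3) (Tb p q f 4)
    rw [e4, e23, (hcard 4 (by norm_num)).2] at e5
    have hsub : (Tb p q f 2 ∪ Tb p q f 3) ∪ Tb p q f 4 ⊆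
        (univ : Finset (Option (Fin 5))).erase none := by
      intro o ho
      refine Finset.mem_erase.2 ⟨?_, Finset.mem_univ _⟩
      rintro rfl
      simp only [Finset.mem_union] at ho
      rcases ho with (h | h) | h
      · exact (hcard 2 (by norm_num)).1 h
      · exact (hcard 3 (by norm_num)).1 h
      · exact (hcard 4 (by norm_num)).1 h
    have hE : ((univ : Finset (Option (Fin 5))).erase none).card = 5 := by
      rw [Finset.card_erase_of_mem (Finset.mem_univ _), Finset.card_univ, Fintype.card_option,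
        Fintype.card_fin]
    have heq := Finset.eq_of_subset_of_card_le hsub (by rw [hE]; omega)
    have hmem : c0 ∈ (Tb p q f 2 ∪ Tb p q f 3) ∪ Tb p q f 4 := by
      rw [heq]
      exact Finset.mem_erase.2 ⟨hc0, Finset.mem_univ _⟩
    simp only [Finset.mem_union] at hmem
    rcases hmem with (h | h) | h
    · exact absurd h hc2
    · exact absurd h hc3
    · exact h
  -- z in S 4
  have ha4 : a ∉ Tb p q f 4 := hwin 0 (by norm_num) a ha0 ha2
  have hz4 : z ∈ Tb p q f 4 := by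
    obtain ⟨w, hw⟩ := Finset.card_pos.1 (by rw [hint 2 (by norm_num)]; norm_num)
    rw [Finset.mem_inter] at hw
    obtain ⟨hw2, hw4⟩ := hw
    rcases pair_mem (mem_Tb.1 ha2) (mem_Tb.1 hz2) hza (mem_Tb.1 hw2) with rfl | rfl
    · exact absurd hw4 ha4
    · exact hw4
  have hz6 : z ∉ Tb p q f 6 := hwin 2 (by norm_num) z hz2 hz4
  have hzc : z ≠ c0 := fun h => hc2 (h ▸ hz2)
  have hc6 : c0 ∈ Tb p q f 6 := by
    obtain ⟨w, hw⟩ := Finset.card_pos.1 (by rw [hint 4 (by norm_num)]; norm_num)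
    rw [Finset.mem_inter] at hw
    obtain ⟨hw4, hw6⟩ := hw
    rcases pair_mem (mem_Tb.1 hc4) (mem_Tb.1 hz4) hzc (mem_Tb.1 hw4) with rfl | rfl
    · exact hw6
    · exact absurd hw6 hz6
  -- the vertices
  have hne1 : f (p 1) ≠ f (q 1) := by
    intro h
    have := (hcard 1 (by norm_num)).2
    simp [Tb, h] at this
  have hne2 : f (p 2) ≠ f (q 2) := by
    intro h
    have := (hcard 2 (by norm_num)).2
    simp [Tb, h] at this
  have hC0 := hC
  obtain ⟨hCd, hCpq, -, -, hCa⟩ := hC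
  obtain ⟨x, x', hx, hfx⟩ : ∃ x x', ((x = p 1 ∧ x' = q 1) ∨ (x = q 1 ∧ x' = p 1)) ∧
      f x = c0 := by
    rcases mem_Tb.1 hc1 with h | h
    · exact ⟨p 1, q 1, Or.inl ⟨rfl, rfl⟩, h.symm⟩
    · exact ⟨q 1, p 1, Or.inr ⟨rfl, rfl⟩, h.symm⟩
  obtain ⟨y, y', hy, hfy⟩ : ∃ y y', ((y = p 2 ∧ y' = q 2) ∨ (y = q 2 ∧ y' = p 2)) ∧
      f y = z := by
    rcases mem_Tb.1 hz2 with h | h
    · exact ⟨p 2, q 2, Or.inl ⟨rfl, rfl⟩, h.symm⟩
    · exact ⟨q 2, p 2, Or.inr ⟨rfl, rfl⟩, h.symm⟩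
  have hbx : x = p 1 ∨ x = q 1 := by rcases hx with h | h <;> simp [h.1]
  have hby : y = p 2 ∨ y = q 2 := by rcases hy with h | h <;> simp [h.1]
  have hadjx : ∀ u, G.Adj x u → u = x' ∨ u = p 0 ∨ u = q 0 ∨ u = p 2 ∨ u = q 2 := by
    intro u hu
    have h := hCa 1 (by norm_num) (by norm_num) u
    rcases hx with ⟨rfl, rfl⟩ | ⟨rfl, rfl⟩
    · exact h.1.1 hu
    · exact h.2.1 hu
  have hadjy : ∀ u, G.Adj y u → u = y' ∨ u = p 1 ∨ u = q 1 ∨ u = p 3 ∨ u = q 3 := by
    intro u hu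
    have h := hCa 2 (by norm_num) (by norm_num) u
    rcases hy with ⟨rfl, rfl⟩ | ⟨rfl, rfl⟩
    · exact h.1.1 hu
    · exact h.2.1 hu
  have hxy : G.Adj x y := by
    have h := hCa 1 (by norm_num) (by norm_num) y
    rcases hx with ⟨rfl, rfl⟩ | ⟨rfl, rfl⟩
    · refine h.1.2 ?_
      rcases hby with h' | h'
      · exact Or.inr (Or.inr (Or.inr (Or.inl h')))
      · exact Or.inr (Or.inr (Or.inr (Or.inr h')))
    · refine h.2.2 ?_
      rcases hby with h' | h'
      · exact Or.inr (Or.inr (Or.inr (Or.inl h')))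
      · exact Or.inr (Or.inr (Or.inr (Or.inr h')))
  have hx'1 : f x' ∈ Tb p q f 1 := by
    rcases hx with ⟨_, rfl⟩ | ⟨_, rfl⟩
    · exact mem_Tb.2 (Or.inr rfl)
    · exact mem_Tb.2 (Or.inl rfl)
  have hx'c : f x' ≠ f x := by
    rcases hx with ⟨rfl, rfl⟩ | ⟨rfl, rfl⟩
    · exact hne1.symm
    · exact hne1
  have hy'2 : f y' ∈ Tb p q f 2 := by
    rcases hy with ⟨_, rfl⟩ | ⟨_, rfl⟩
    · exact mem_Tb.2 (Or.inr rfl)
    · exact mem_Tb.2 (Or.inl rfl)
  have hy'c : f y' ≠ f y := by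
    rcases hy with ⟨rfl, rfl⟩ | ⟨rfl, rfl⟩
    · exact hne2.symm
    · exact hne2
  -- the other vertices of the bags
  have hb2 : ∀ u, (u = p 2 ∨ u = q 2) → u ≠ y → u = y' := by
    intro u hu hne
    rcases hy with ⟨rfl, rfl⟩ | ⟨rfl, rfl⟩
    · rcases hu with h | h
      · exact absurd h hne
      · exact h
    · rcases hu with h | h
      · exact h
      · exact absurd h hne
  have hb1 : ∀ u, (u = p 1 ∨ u = q 1) → u ≠ x → u = x' := by
    intro u hu hne
    rcases hx with ⟨rfl, rfl⟩ | ⟨rfl, rfl⟩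
    · rcases hu with h | h
      · exact absurd h hne
      · exact h
    · rcases hu with h | h
      · exact h
      · exact absurd h hne
  have hMut : Mut G f x y := by
    refine ⟨hxy, ?_, ?_⟩
    · intro hpr
      obtain ⟨-, u, hux, hyu, hfu⟩ := mem_pr.1 hpr
      rw [hfx] at hfu
      rcases hadjy u hyu with h | h | h | h | h
      · rw [h] at hfu
        exact hc2 (hfu ▸ hy'2)
      · have := hb1 u (Or.inl h) hux
        rw [this] at hfu
        exact hx'c (hfu.trans hfx.symm)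
      · have := hb1 u (Or.inr h) hux
        rw [this] at hfu
        exact hx'c (hfu.trans hfx.symm)
      · rw [h] at hfu
        exact hc3 (mem_Tb.2 (Or.inl hfu.symm))
      · rw [h] at hfu
        exact hc3 (mem_Tb.2 (Or.inr hfu.symm))
    · intro hpr
      obtain ⟨-, u, huy, hxu, hfu⟩ := mem_pr.1 hpr
      rw [hfy] at hfu
      rcases hadjx u hxu with h | h | h | h | h
      · rw [h] at hfu
        exact d12 _ hx'1 (hfu ▸ hz2)
      · rw [h] at hfu
        exact hz0 (mem_Tb.2 (Or.inl hfu.symm))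
      · rw [h] at hfu
        exact hz0 (mem_Tb.2 (Or.inr hfu.symm))
      · have := hb2 u (Or.inl h) huy
        rw [this] at hfu
        exact hy'c (hfu.trans hfy.symm)
      · have := hb2 u (Or.inr h) huy
        rw [this] at hfu
        exact hy'c (hfu.trans hfy.symm)
  have hP : Proper G (fun u => f (Equiv.swap x y u)) := prfA2 5 V G f hf x y hMut
  have hMd' : Md G p q f (fun u => f (Equiv.swap x y u)) := by
    refine ⟨hP, Equiv.swap x y, ?_, fun u => rfl⟩
    intro u hu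
    by_cases hux : u = x
    · exact ⟨1, by norm_num, by norm_num, by rw [hux]; exact hbx⟩
    · by_cases huy : u = y
      · exact ⟨2, by norm_num, by norm_num, by rw [huy]; exact hby⟩
      · exact absurd (Equiv.swap_apply_of_ne_of_ne hux huy) hu
  have hwin' := h12 V G f _ p q hC0 hf hcol hcon hMd'
  have hfar : ∀ k, 3 ≤ k → k ≤ 6 → ∀ u, (u = p k ∨ u = q k) → Equiv.swap x y u = u := by
    intro k hk3 hk6 u hu
    refine Equiv.swap_apply_of_ne_of_ne ?_ ?_
    · intro h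
      rcases hu with hu | hu <;> rcases hbx with h1 | h1
      · exact (hCd k 1 hk6 (by norm_num) (by omega)).1 (by rw [← hu, ← h1, h])
      · exact (hCd k 1 hk6 (by norm_num) (by omega)).2.2 (by rw [← hu, ← h1, h])
      · exact (hCd 1 k (by norm_num) hk6 (by omega)).2.2 (by rw [← hu, ← h1, h])
      · exact (hCd k 1 hk6 (by norm_num) (by omega)).2.1 (by rw [← hu, ← h1, h])
    · intro h
      rcases hu with hu | hu <;> rcases hby with h1 | h1
      · exact (hCd k 2 hk6 (by norm_num) (by omega)).1 (by rw [← hu, ← h1, h])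
      · exact (hCd k 2 hk6 (by norm_num) (by omega)).2.2 (by rw [← hu, ← h1, h])
      · exact (hCd 2 k (by norm_num) hk6 (by omega)).2.2 (by rw [← hu, ← h1, h])
      · exact (hCd k 2 hk6 (by norm_num) (by omega)).2.1 (by rw [← hu, ← h1, h])
  have hTb : ∀ k, 3 ≤ k → k ≤ 6 → Tb p q (fun u => f (Equiv.swap x y u)) k = Tb p q f k := by
    intro k hk3 hk6
    unfold Tb
    beta_reduce
    rw [hfar k hk3 hk6 (p k) (Or.inl rfl), hfar k hk3 hk6 (q k) (Or.inr rfl)]
  refine hwin' 2 (by norm_num) c0 ?_ ?_ ?_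
  · rw [mem_Tb]
    have hyy : f (Equiv.swap x y y) = c0 := by rw [Equiv.swap_apply_right, hfx]
    rcases hby with h | h
    · left
      rw [← h]
      exact hyy.symm
    · right
      rw [← h]
      exact hyy.symm
  · rw [hTb 4 (by norm_num) (by norm_num)]
    exact hc4
  · rw [hTb 6 (by norm_num) (by norm_num)]
    exact hc6

end

end Pool.Agent.Work.MP_47f387_co.Five
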