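import Pool.Agent.Work.MP_47f387_co.Five.Stmts

/-!
# MP_47f387_co, maximum degree 5: item SF14

A positive proportion of the vertices is not rigid.
-/

namespace Pool.Agent.Work.MP_47f387_co.Five

open Finset Classical Large

noncomputable section

namespace XSF14

/-- A rigid vertex is coloured. -/
lemma col {V : Type} [Fintype V] {G : SimpleGraph V} {f : V → Option (Fin 5)} {v : V}
    (h : Rg G f v) : f v ≠ none := h.1.1.1 v (near_refl 3 v)

/-- A rigid vertex is not flexible. -/
lemma nflex {V : Type} [Fintype V] {G : SimpleGraph V} {f : V → Option (Fin 5)} {v : V}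
    (h : Rg G f v) (i j : Fin 5) : ¬ Flex G f i j v := h.1.1.2.1 i j

end XSF14

theorem prf_SF14 (h2 : SF2) (h3 : SF3) (h5 : SF5) (h8 : SF8) (h9 : SF9) (h10 : SF10)
    (h13 : SF13) : SF14 := by
  intro V _ G f hG hbd hcf hf hcard
  by_contra hlt
  rw [not_le] at hlt
  obtain ⟨v₀, hR⟩ := h2 V G f hbd hf hlt
  -- the structure of the neighbourhoods
  have hSt : ∀ u, Near G 9 v₀ u → St G u := fun u hu =>
    h5 V G f hbd hcf hf u (fun w hw => hR w (near_trans hu hw))
  -- mates
  have hmate : ∀ u, Near G 6 v₀ u → ∃ m, Mate G u m := by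
    intro u hu
    have hon : ¬ Only G u (CC G f u) := h8 V G f hbd hf u (fun w hw =>
      ⟨hR w (near_mono (by norm_num) (near_trans hu hw)), hSt w (near_trans hu hw)⟩)
    have hC : G.IsNClique 4 (CC G f u) := h3 V G f hbd hf u (hR u (near_mono (by norm_num) hu))
    have huC : u ∈ CC G f u := mem_CC.2 (Or.inl rfl)
    unfold Only at hon
    push Not at hon
    obtain ⟨Q', hQ', huQ', hne⟩ := hon
    exact h9 V G u hbd (hSt u (near_mono (by norm_num) hu))
      ⟨CC G f u, Q', hC, hQ', huC, huQ', fun h => hne h.symm⟩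
  -- a far vertex
  obtain ⟨w', hw'⟩ : ∃ w', ¬ Near G 5 v₀ w' := by
    by_contra hcon
    push Not at hcon
    have h1 : (univ.filter (fun u => Near G 5 v₀ u)) = univ := by
      apply filter_true_of_mem
      intro u _
      exact hcon u
    have h2' := near_card hbd 5 v₀
    rw [h1, card_univ] at h2'
    have h3' : (5 + 1) ^ 5 = 6 ^ 5 := by norm_num
    omega
  obtain ⟨w, hw6, hw5⟩ := exists_far hG v₀ 5 hw'
  obtain ⟨p, q, hch, hp3, hpq⟩ := h10 V G v₀ w hmate hw6 hw5
  obtain ⟨i, j, hfl⟩ := h13 V G f p q hch hf (fun k hk =>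
    ⟨XSF14.col (hR (p k) (near_mono (by norm_num) (hpq k hk).1)),
      XSF14.col (hR (q k) (near_mono (by norm_num) (hpq k hk).2))⟩)
  exact XSF14.nflex (hR (p 3) (near_mono (by norm_num) hp3)) i j hfl

end

end Pool.Agent.Work.MP_47f387_co.Five
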