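import Pool.Agent.Work.MP_47f387_co.Five.Stmts

/-!
# MP_47f387_co, maximum degree 5, item SF2
-/

namespace Pool.Agent.Work.MP_47f387_co.Five

open Finset Classical Large

noncomputable section

namespace XSF2

variable {V : Type} [Fintype V] {G : SimpleGraph V} {f : V → Option (Fin 5)}

/-- the charge -/
def ch (G : SimpleGraph V) (f : V → Option (Fin 5)) (v : V) : ℤ :=
  ((II G f v).card : ℤ) - (IA7.ps G f v : ℤ)

lemma sum_ch : ∑ v : V, ch G f v = 0 := by
  unfold ch
  rw [sum_sub_distrib]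
  have h := IA7.sum_II (G := G) (f := f)
  have h' : (∑ v : V, ((II G f v).card : ℤ)) = ∑ v : V, (IA7.ps G f v : ℤ) := by
    exact_mod_cast h
  rw [h', sub_self]

lemma ch_ge (h1 : SF1) (hd : BD 5 G) (hf : Proper G f) (v : V) :
    (if Good5 G f v ∧ ¬ Rg G f v then (1 : ℤ) else 0) -
      2 * (if ¬ Good5 G f v then (1 : ℤ) else 0) ≤ ch G f v := by
  unfold ch
  have hp := IA7.ps_le prfA1 hd hf v
  by_cases hg : Good5 G f v
  · have ht := tight0 hf hg.1
    have hI : 1 ≤ (II G f v).card := card_pos.2 (II_nonempty hd hf hg.1)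
    rw [if_neg (not_not.2 hg)]
    by_cases hdeg : Deg G v = 5
    · have h2 := (h1 V G f hd hf v hg hdeg).2
      by_cases hr : Rg G f v
      · rw [if_neg (fun h => h.2 hr)]
        omega
      · rw [if_pos ⟨hg, hr⟩]
        have h3 : (II G f v).card ≠ 2 := fun h => hr ⟨hg, hdeg, h⟩
        omega
    · have hp0 : IA7.ps G f v = 0 := by
        rcases prfA1 5 V G f hd hf v ht with ⟨h, _⟩ | ⟨_, h⟩
        · exact absurd h hdeg
        · unfold IA7.ps
          rw [if_pos ht, h]
          rfl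
      rw [if_pos ⟨hg, fun h => hdeg h.2.1⟩]
      omega
  · rw [if_pos hg, if_neg (fun h => hg h.1)]
    omega

end XSF2

theorem prf_SF2 (h1 : SF1) : SF2 := by
  intro V _ G f hBD hf hlt
  set X₀ : Finset V := univ.filter (fun v => ¬ Good5 G f v) with hX₀
  set X₁ : Finset V := univ.filter (fun v => Good5 G f v ∧ ¬ Rg G f v) with hX₁
  have hX₁c : X₁.card ≤ 2 * X₀.card := by
    have hge := Finset.sum_le_sum fun v (_ : v ∈ (univ : Finset V)) => XSF2.ch_ge h1 hBD hf v
    rw [XSF2.sum_ch, Finset.sum_sub_distrib, ← Finset.mul_sum, Finset.sum_boole,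
      Finset.sum_boole] at hge
    have h : ((X₁.card : ℕ) : ℤ) ≤ ((2 * X₀.card : ℕ) : ℤ) := by
      push_cast
      linarith
    exact_mod_cast h
  have hXc : (X₀ ∪ X₁).card ≤ 3 * X₀.card := by
    have := card_union_le X₀ X₁
    omega
  have hY : ((X₀ ∪ X₁).biUnion (fun x => univ.filter (fun v => Near G 10 x v))).card <
      Fintype.card V := by
    calc _ ≤ (X₀ ∪ X₁).card * (5 + 1) ^ 10 := by
          apply card_biUnion_le_card_mul
          intro x _
          exact near_card hBD 10 x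
      _ ≤ 3 * X₀.card * (5 + 1) ^ 10 := Nat.mul_le_mul_right _ hXc
      _ = 3 * 6 ^ 10 * X₀.card := by ring
      _ < _ := hlt
  obtain ⟨v₀, hv₀⟩ : ∃ v₀, v₀ ∉ (X₀ ∪ X₁).biUnion
      (fun x => univ.filter (fun v => Near G 10 x v)) := by
    by_contra hcon
    push Not at hcon
    have : (X₀ ∪ X₁).biUnion (fun x => univ.filter (fun v => Near G 10 x v)) = univ :=
      eq_univ_iff_forall.2 hcon
    rw [this, card_univ] at hY
    exact lt_irrefl _ hY
  refine ⟨v₀, fun x hx => ?_⟩
  have hn : x ∉ X₀ ∪ X₁ := by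
    intro h
    exact hv₀ (mem_biUnion.2 ⟨x, h, mem_filter.2 ⟨mem_univ _, near_symm hx⟩⟩)
  rw [mem_union, not_or] at hn
  have hg : Good5 G f x := by
    by_contra hg
    exact hn.1 (mem_filter.2 ⟨mem_univ _, hg⟩)
  by_contra hz
  exact hn.2 (mem_filter.2 ⟨mem_univ _, hg, hz⟩)

end

end Pool.Agent.Work.MP_47f387_co.Five
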