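import Pool.Agent.Work.MP_47f387_co.Five.Stmts

/-!
# MP_47f387_co, maximum degree 5: item SF3
-/

namespace Pool.Agent.Work.MP_47f387_co.Five

open Finset Classical Large

noncomputable section

theorem prf_SF3 (h1 : SF1) : SF3 := by
  intro V _ G f hbd hf v hv
  obtain ⟨hg5, hdeg, hII⟩ := hv
  have hg : Good G f v := hg5.1
  obtain ⟨x, hx, hxI⟩ := (h1 V G f hbd hf v hg5 hdeg).1 hII.le
  obtain ⟨p, p', -, -, -, -, -, hpr⟩ := pair hbd hf (tight0 hf hg) hdeg
  set Nv : Finset V := univ.filter (fun u => G.Adj v u) with hNv
  have hNcard : Nv.card = 5 := hdeg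
  have hIIN : II G f v ⊆ Nv := by
    intro y hy
    rw [hNv, mem_filter]
    exact ⟨mem_univ _, adj_of_mem_II hy⟩
  have hCC : CC G f v = insert v (Nv \ II G f v) := by
    ext u
    rw [mem_CC, mem_insert, mem_sdiff, hNv, mem_filter]
    simp
  rw [SimpleGraph.isNClique_iff]
  constructor
  · rw [SimpleGraph.isClique_iff]
    intro a ha b hb hab
    rw [mem_coe, mem_CC] at ha hb
    rcases ha with rfl | ⟨ha, haI⟩
    · rcases hb with rfl | ⟨hb, -⟩
      · exact absurd rfl hab
      · exact hb
    · rcases hb with rfl | ⟨hb, hbI⟩
      · exact ha.symm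
      · by_cases hbp : b ∈ pr G f v
        · by_cases hap : a ∈ pr G f v
          · exfalso
            rw [hpr] at hap hbp hx
            simp only [mem_insert, mem_singleton] at hap hbp hx
            rcases hap with rfl | rfl
            · rcases hbp with rfl | rfl
              · exact hab rfl
              · rcases hx with rfl | rfl
                · exact haI hxI
                · exact hbI hxI
            · rcases hbp with rfl | rfl
              · rcases hx with rfl | rfl
                · exact hbI hxI
                · exact haI hxI
              · exact hab rfl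
          · exact (key hf hg ha hap haI hb hab.symm hbI).symm
        · exact key hf hg hb hbp hbI ha hab haI
  · rw [hCC, card_insert_of_notMem, card_sdiff_of_subset hIIN, hNcard, hII]
    intro h
    rw [mem_sdiff, hNv, mem_filter] at h
    exact G.loopless.irrefl v h.1.2

end

end Pool.Agent.Work.MP_47f387_co.Five
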