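import Pool.Agent.Work.MP_47f387_co.Five.Stmts

/-!
# MP_47f387_co, maximum degree 5, item SF4
-/

namespace Pool.Agent.Work.MP_47f387_co.Five

open Finset Classical Large

noncomputable section

namespace XSF4

variable {V : Type} [Fintype V] {G : SimpleGraph V} {f : V → Option (Fin 5)}

lemma no2 (hd : BD 5 G) (hf : Proper G f) {a b y : V} (hdeg : Deg G y = 5)
    (ha : y ∈ II G f a) (hb : y ∈ II G f b) (hab : G.Adj a b) : False := by
  rw [mem_II] at ha hb
  exact (two hd hf ha.1 hdeg ha.2 hb.2 hab.ne).2.1 hab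

lemma one (h3 : SF3) (hd : BD 5 G) (hf : Proper G f) {a x x' : V} (hr : Rg G f a)
    (hx : G.Adj a x) (hx' : G.Adj a x') (hne : x ≠ x') (hn : ¬ G.Adj x x') :
    x ∈ II G f a ∨ x' ∈ II G f a := by
  by_contra h
  push Not at h
  have hc := (h3 V G f hd hf a hr).1
  exact hn (hc (mem_CC.2 (Or.inr ⟨hx, h.1⟩)) (mem_CC.2 (Or.inr ⟨hx', h.2⟩)) hne)

end XSF4

open XSF4 in
theorem prf_SF4 (h3 : SF3) : SF4 := by
  intro V _ G f hd hfree hf a₁ hR a₂ a₃ x x' h12 h13 h23 h1x h2x h3x h1y h2y h3y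
  by_contra hne
  have hn : ¬ G.Adj x x' := by
    intro hxx
    apply hfree {a₁, a₂, a₃, x, x'}
    rw [SimpleGraph.isNClique_iff]
    refine ⟨?_, ?_⟩
    · intro u hu w hw huw
      simp only [coe_insert, coe_singleton, Set.mem_insert_iff, Set.mem_singleton_iff] at hu hw
      rcases hu with rfl | rfl | rfl | rfl | rfl <;>
        rcases hw with rfl | rfl | rfl | rfl | rfl <;>
        first
          | exact absurd rfl huw
          | assumption
          | (apply SimpleGraph.Adj.symm; assumption)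
    · rw [card_insert_of_notMem, card_insert_of_notMem, card_insert_of_notMem,
        card_insert_of_notMem, card_singleton]
      · simp [hne]
      · simp [h3x.ne, h3y.ne]
      · simp [h23.ne, h2x.ne, h2y.ne]
      · simp [h12.ne, h13.ne, h1x.ne, h1y.ne]
  have r1 : Rg G f a₁ := hR a₁ (near_refl 1 a₁)
  have r2 : Rg G f a₂ := hR a₂ (near_of_adj h12)
  have r3 : Rg G f a₃ := hR a₃ (near_of_adj h13)
  have dx : Deg G x = 5 := (hR x (near_of_adj h1x)).2.1
  have dy : Deg G x' = 5 := (hR x' (near_of_adj h1y)).2.1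
  rcases one h3 hd hf r1 h1x h1y hne hn with e1 | e1 <;>
    rcases one h3 hd hf r2 h2x h2y hne hn with e2 | e2 <;>
    rcases one h3 hd hf r3 h3x h3y hne hn with e3 | e3
  · exact no2 hd hf dx e1 e2 h12
  · exact no2 hd hf dx e1 e2 h12
  · exact no2 hd hf dx e1 e3 h13
  · exact no2 hd hf dy e2 e3 h23
  · exact no2 hd hf dx e2 e3 h23
  · exact no2 hd hf dy e1 e3 h13
  · exact no2 hd hf dy e1 e2 h12
  · exact no2 hd hf dy e1 e2 h12

end

end Pool.Agent.Work.MP_47f387_co.Five
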