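import Pool.Agent.Work.MP_47f387_co.Five.Stmts

/-!
# MP_47f387_co, maximum degree 5, item SF5
-/

namespace Pool.Agent.Work.MP_47f387_co.Five

open Finset Classical Large

noncomputable section

namespace XSF5

variable {V : Type} [Fintype V] {G : SimpleGraph V} {f : V → Option (Fin 5)}

lemma core (h4 : SF4) (hd : BD 5 G) (hfree : G.CliqueFree 5) (hf : Proper G f) {v : V}
    (hR : ∀ u, Near G 1 v u → Rg G f u) {Q Q' : Finset V} (hQ : G.IsNClique 4 Q)
    (hQ' : G.IsNClique 4 Q') (hv : v ∈ Q) (hv' : v ∈ Q') : (Q ∩ Q').card ≠ 3 := by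
  intro h3
  have hvv : v ∈ Q ∩ Q' := mem_inter.2 ⟨hv, hv'⟩
  have h5 : ((Q ∩ Q').erase v).card = 2 := by rw [card_erase_of_mem hvv, h3]
  obtain ⟨a₂, a₃, h23, he⟩ := card_eq_two.1 h5
  have m2 : a₂ ∈ (Q ∩ Q').erase v := by rw [he]; simp
  have m3 : a₃ ∈ (Q ∩ Q').erase v := by rw [he]; simp
  rw [mem_erase, mem_inter] at m2 m3
  have h6 : (Q \ Q').card = 1 := by
    have := card_sdiff_add_card_inter Q Q'
    rw [h3, hQ.card_eq] at this
    omega
  have h7 : (Q' \ Q).card = 1 := by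
    have := card_sdiff_add_card_inter Q' Q
    rw [inter_comm, h3, hQ'.card_eq] at this
    omega
  obtain ⟨x, hx⟩ := card_eq_one.1 h6
  obtain ⟨x', hx'⟩ := card_eq_one.1 h7
  have mx : x ∈ Q \ Q' := by rw [hx]; simp
  have mx' : x' ∈ Q' \ Q := by rw [hx']; simp
  rw [mem_sdiff] at mx mx'
  have nx : ∀ a ∈ Q', a ≠ x := fun a ha h => mx.2 (h ▸ ha)
  have nx' : ∀ a ∈ Q, a ≠ x' := fun a ha h => mx'.2 (h ▸ ha)
  have e := h4 V G f hd hfree hf v hR a₂ a₃ x x'
    (hQ.isClique hv m2.2.1 m2.1.symm) (hQ.isClique hv m3.2.1 m3.1.symm)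
    (hQ.isClique m2.2.1 m3.2.1 h23)
    (hQ.isClique hv mx.1 (nx v hv')) (hQ.isClique m2.2.1 mx.1 (nx _ m2.2.2))
    (hQ.isClique m3.2.1 mx.1 (nx _ m3.2.2))
    (hQ'.isClique hv' mx'.1 (nx' v hv)) (hQ'.isClique m2.2.2 mx'.1 (nx' _ m2.2.1))
    (hQ'.isClique m3.2.2 mx'.1 (nx' _ m3.2.1))
  exact mx.2 (e ▸ mx'.1)

end XSF5

theorem prf_SF5 (h4 : SF4) : SF5 := by
  intro V _ G f hd hfree hf v hR
  have hdeg : Deg G v = 5 := (hR v (near_refl 1 v)).2.1
  refine ⟨hdeg, ?_⟩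
  intro Q Q' hQ hQ' hv hv' hne
  have h3 := XSF5.core h4 hd hfree hf hR hQ hQ' hv hv'
  have hsub : (Q ∪ Q').erase v ⊆ univ.filter (fun u => G.Adj v u) := by
    intro u hu
    rw [mem_erase, mem_union] at hu
    rw [mem_filter]
    refine ⟨mem_univ _, ?_⟩
    rcases hu.2 with h | h
    · exact hQ.isClique hv h hu.1.symm
    · exact hQ'.isClique hv' h hu.1.symm
  have hN : (univ.filter (fun u => G.Adj v u)).card = 5 := hdeg
  have h5 := card_le_card hsub
  rw [hN, card_erase_of_mem (mem_union_left _ hv)] at h5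
  have h6 := card_union_add_card_inter Q Q'
  rw [hQ.card_eq, hQ'.card_eq] at h6
  have h7 : (Q ∩ Q').card ≠ 4 := by
    intro h
    have e1 : Q ∩ Q' = Q := eq_of_subset_of_card_le inter_subset_left (by rw [h, hQ.card_eq])
    have e2 : Q ∩ Q' = Q' := eq_of_subset_of_card_le inter_subset_right (by rw [h, hQ'.card_eq])
    exact hne (e1.symm.trans e2)
  have h8 : (Q ∩ Q').card ≤ 4 := by
    have := card_le_card (inter_subset_left (s₁ := Q) (s₂ := Q'))
    rwa [hQ.card_eq] at this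
  have h9 : (Q ∩ Q').card = 2 := by omega
  refine ⟨h9, ?_⟩
  have h10 : (Q ∪ Q').erase v = univ.filter (fun u => G.Adj v u) := by
    apply eq_of_subset_of_card_le hsub
    rw [hN, card_erase_of_mem (mem_union_left _ hv)]
    omega
  intro w hw
  have h11 : w ∈ (Q ∪ Q').erase v := by
    rw [h10, mem_filter]
    exact ⟨mem_univ _, hw⟩
  exact (mem_erase.1 h11).2

end

end Pool.Agent.Work.MP_47f387_co.Five
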