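import Pool.Agent.Work.MP_47f387_co.Five.Stmts

/-!
# MP_47f387_co, maximum degree 5, item SF6
-/

namespace Pool.Agent.Work.MP_47f387_co.Five

open Finset Classical Large

noncomputable section

theorem prf_SF6 : SF6 := by
  intro V _ G u hSt Q₁ Q₂ Q₃ h1 h2 h3 m1 m2 m3 h12
  by_contra hcon
  push Not at hcon
  obtain ⟨hn1, hn2⟩ := hcon
  have e12 := hSt.2 Q₁ Q₂ h1 h2 m1 m2 h12
  have e31 := (hSt.2 Q₃ Q₁ h3 h1 m3 m1 hn1).1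
  have e32 := (hSt.2 Q₃ Q₂ h3 h2 m3 m2 hn2).1
  have hsub : Q₃ ⊆ Q₁ ∪ Q₂ := by
    intro w hw
    by_cases hwu : w = u
    · exact mem_union_left _ (hwu ▸ m1)
    · exact e12.2 w (h3.isClique m3 hw (Ne.symm hwu))
  have h4 : (Q₃ ∩ Q₁) ∪ (Q₃ ∩ Q₂) = Q₃ := by
    rw [← inter_union_distrib_left]
    exact inter_eq_left.2 hsub
  have h5 := card_union_add_card_inter (Q₃ ∩ Q₁) (Q₃ ∩ Q₂)
  have h6 : 1 ≤ ((Q₃ ∩ Q₁) ∩ (Q₃ ∩ Q₂)).card :=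
    card_pos.2 ⟨u, mem_inter.2 ⟨mem_inter.2 ⟨m3, m1⟩, mem_inter.2 ⟨m3, m2⟩⟩⟩
  rw [h4, h3.card_eq, e31, e32] at h5
  omega

end

end Pool.Agent.Work.MP_47f387_co.Five
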