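import Pool.Agent.Work.MP_47f387_co.Five.Stmts

/-!
# MP_47f387_co, maximum degree 5, item SF7
-/

namespace Pool.Agent.Work.MP_47f387_co.Five

open Finset Classical Large

noncomputable section

namespace XSF7

variable {V : Type} [Fintype V] {G : SimpleGraph V} {f : V → Option (Fin 5)}

lemma self_mem (v : V) : v ∈ CC G f v := mem_CC.2 (Or.inl rfl)

lemma notMem (h3 : SF3) (hd : BD 5 G) (hf : Proper G f) {e : V}
    (hO : Only G e (CC G f e)) {z : V} (hrz : Rg G f z) (hz : z ∈ II G f e) {C : Finset V}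
    (hC : G.IsNClique 4 C) (hzC : z ∈ C) : e ∉ C := by
  intro he
  have h1 := hO C hC he
  rw [h1, mem_CC] at hzC
  rcases hzC with h | h
  · exact (adj_of_mem_II hz).ne h.symm
  · exact h.2 hz

end XSF7

open XSF7 in
theorem prf_SF7 (h3 : SF3) : SF7 := by
  intro V _ G f hd hf e hR hO
  have re := hR e (near_refl 1 e)
  have hz : ∀ z ∈ II G f e, G.Adj e z ∧ Rg G f z ∧ St G z ∧ G.IsNClique 4 (CC G f z) ∧
      e ∉ CC G f z := by
    intro z hz
    have ha := adj_of_mem_II hz
    have hr := hR z (near_of_adj ha)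
    have hc := h3 V G f hd hf z hr.1
    exact ⟨ha, hr.1, hr.2, hc, notMem h3 hd hf hO hr.1 hz hc (self_mem z)⟩
  refine ⟨?_, ?_⟩
  · symm
    apply eq_of_subset_of_card_le
    · intro z hz'
      obtain ⟨ha, hr, _, _, hn⟩ := hz z hz'
      rw [mem_CC] at hn
      push Not at hn
      exact (mem_II.1 (hn.2 ha.symm)).2
    · obtain ⟨p, p', hne, _, _, _, _, hpr⟩ := pair hd hf (tight0 hf re.1.1.1) re.1.2.1
      rw [hpr, re.1.2.2]
      exact card_le_two
  · intro z hz' Q' hQ' hzQ
    obtain ⟨ha, hr, hSt, hc, hn⟩ := hz z hz'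
    by_contra hne
    have h1 := (hSt.2 (CC G f z) Q' hc hQ' (self_mem z) hzQ (Ne.symm hne)).2 e ha.symm
    rw [mem_union] at h1
    rcases h1 with h1 | h1
    · exact hn h1
    · exact notMem h3 hd hf hO hr hz' hQ' hzQ h1

end

end Pool.Agent.Work.MP_47f387_co.Five
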