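import Pool.Agent.Work.MP_47f387_co.Five.Stmts

namespace Pool.Agent.Work.MP_47f387_co.Five

open Finset Classical Large

noncomputable section

namespace XSF8

variable {V : Type} [Fintype V] {G : SimpleGraph V}

/-- the first case: two disjoint 4-cliques, one of them disjoint from `E` -/
lemma caseOne {A A' E : Finset V} {z z' : V} (hd : BD 5 G)
    (core : ∀ y ∈ A, y ≠ z → y ∉ E → ∀ y' ∈ A', y' ≠ z' → y' ∉ E → y ≠ y' → ¬ G.Adj y y' →
      False)
    (hA : G.IsNClique 4 A) (hA' : G.IsNClique 4 A') (hz : z ∈ A) (hz' : z' ∈ A')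
    (hdis : A ∩ A' = ∅) (hAE : (A ∩ E).card ≤ 2) (hA'E : A' ∩ E = ∅) : False := by
  have hcA : A.card = 4 := hA.card_eq
  have hcA' : A'.card = 4 := hA'.card_eq
  obtain ⟨y, hy⟩ : ((A.erase z) \ E).Nonempty := by
    rw [← Finset.card_pos]
    have h1 : (A.erase z).card = 3 := by rw [card_erase_of_mem hz, hcA]
    have h2 : ((A.erase z) ∩ E).card ≤ 2 :=
      (card_le_card (inter_subset_inter_right (erase_subset z A))).trans hAE
    have h3 := card_sdiff_add_card_inter (A.erase z) E
    omega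
  rw [mem_sdiff, mem_erase] at hy
  obtain ⟨⟨hyz, hyA⟩, hyE⟩ := hy
  have hyA' : y ∉ A' := fun h => by
    have : y ∈ A ∩ A' := mem_inter.2 ⟨hyA, h⟩
    rw [hdis] at this
    exact absurd this (notMem_empty y)
  have hex : ∃ y' ∈ A'.erase z', ¬ G.Adj y y' := by
    by_contra hcon
    push Not at hcon
    have hsub : (A.erase y) ∪ (A'.erase z') ⊆ univ.filter (fun u => G.Adj y u) := by
      intro u hu
      rw [mem_filter]
      refine ⟨mem_univ u, ?_⟩
      rcases mem_union.1 hu with h | h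
      · exact hA.isClique hyA (mem_erase.1 h).2 (mem_erase.1 h).1.symm
      · exact hcon u h
    have hdj : Disjoint (A.erase y) (A'.erase z') := by
      rw [Finset.disjoint_left]
      intro u h1 h2
      have : u ∈ A ∩ A' := mem_inter.2 ⟨(mem_erase.1 h1).2, (mem_erase.1 h2).2⟩
      rw [hdis] at this
      exact absurd this (notMem_empty u)
    have hc := card_le_card hsub
    rw [card_union_of_disjoint hdj, card_erase_of_mem hyA, card_erase_of_mem hz', hcA, hcA'] at hc
    have := hd y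
    unfold Deg at this
    omega
  obtain ⟨y', hy', hna⟩ := hex
  rw [mem_erase] at hy'
  have hy'E : y' ∉ E := fun h => by
    have : y' ∈ A' ∩ E := mem_inter.2 ⟨hy'.2, h⟩
    rw [hA'E] at this
    exact absurd this (notMem_empty y')
  exact core y hyA hyz hyE y' hy'.2 hy'.1 hy'E (fun h => hyA' (h ▸ hy'.2)) hna

end XSF8

theorem prf_SF8 (h3 : SF3) (h6 : SF6) (h7 : SF7) : SF8 := by
  intro V _ G f hd hP e hR hO
  obtain ⟨hpe, hz⟩ := h7 V G f hd hP e (fun u hu => hR u (near_mono (by norm_num) hu)) hO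
  have hRe : Rg G f e := (hR e (near_refl 3 e)).1
  have hGe : Good G f e := hRe.1.1
  obtain ⟨z1, z2, hne, hfz, ha1, ha2, hn, hpr⟩ := pair hd hP (tight0 hP hGe) hRe.2.1
  have hII : II G f e = {z1, z2} := by rw [← hpe, hpr]
  have hz1I : z1 ∈ II G f e := by rw [hII]; simp
  have hz2I : z2 ∈ II G f e := by rw [hII]; simp
  have hO1 := hz z1 hz1I
  have hO2 := hz z2 hz2I
  have nz1 : Near G 1 e z1 := near_of_adj ha1
  have nz2 : Near G 1 e z2 := near_of_adj ha2
  obtain ⟨hp1, -⟩ := h7 V G f hd hP z1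
    (fun u hu => hR u (near_mono (by norm_num) (near_trans nz1 hu))) hO1
  obtain ⟨hp2, -⟩ := h7 V G f hd hP z2
    (fun u hu => hR u (near_mono (by norm_num) (near_trans nz2 hu))) hO2
  have hR1 := (hR z1 (near_mono (by norm_num) nz1)).1
  have hR2 := (hR z2 (near_mono (by norm_num) nz2)).1
  have hG1 : Good G f z1 := hR1.1.1
  have hG2 : Good G f z2 := hR2.1.1
  have hep1 : e ∈ pr G f z1 := (mem_II.1 hz1I).2
  have hep2 : e ∈ pr G f z2 := (mem_II.1 hz2I).2
  have he1 : e ∈ II G f z1 := by rw [← hp1]; exact hep1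
  have he2 : e ∈ II G f z2 := by rw [← hp2]; exact hep2
  -- the three cliques
  have hE4 := h3 V G f hd hP e hRe
  have hA4 := h3 V G f hd hP z1 hR1
  have hB4 := h3 V G f hd hP z2 hR2
  have hself : ∀ v, v ∈ CC G f v := fun v => mem_CC.2 (Or.inl rfl)
  have eA : e ∉ CC G f z1 := by
    intro h
    rcases mem_CC.1 h with h | h
    · exact ha1.ne h
    · exact h.2 he1
  have eB : e ∉ CC G f z2 := by
    intro h
    rcases mem_CC.1 h with h | h
    · exact ha2.ne h
    · exact h.2 he2
  have z1E : z1 ∉ CC G f e := by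
    intro h
    rcases mem_CC.1 h with h | h
    · exact ha1.ne h.symm
    · exact h.2 hz1I
  have z2E : z2 ∉ CC G f e := by
    intro h
    rcases mem_CC.1 h with h | h
    · exact ha2.ne h.symm
    · exact h.2 hz2I
  have z2A : z2 ∉ CC G f z1 := by
    intro h
    rcases mem_CC.1 h with h | h
    · exact hne h.symm
    · exact hn h.1
  have z1B : z1 ∉ CC G f z2 := by
    intro h
    rcases mem_CC.1 h with h | h
    · exact hne h
    · exact hn h.1.symm
  have hadjA : ∀ y ∈ CC G f z1, y ≠ z1 → G.Adj z1 y ∧ y ∉ II G f z1 := by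
    intro y hy hyz
    rcases mem_CC.1 hy with h | h
    · exact absurd h hyz
    · exact h
  have hadjB : ∀ y ∈ CC G f z2, y ≠ z2 → G.Adj z2 y ∧ y ∉ II G f z2 := by
    intro y hy hyz
    rcases mem_CC.1 hy with h | h
    · exact absurd h hyz
    · exact h
  have hNe : ∀ y, G.Adj e y → y ∈ CC G f e ∨ y = z1 ∨ y = z2 := by
    intro y hy
    by_cases h : y ∈ II G f e
    · rw [hII, mem_insert, mem_singleton] at h
      exact Or.inr h
    · exact Or.inl (mem_CC.2 (Or.inr ⟨hy, h⟩))
  have core : ∀ y ∈ CC G f z1, y ≠ z1 → y ∉ CC G f e → ∀ y' ∈ CC G f z2, y' ≠ z2 →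
      y' ∉ CC G f e → y ≠ y' → ¬ G.Adj y y' → False := by
    intro y hy hyz hyE y' hy' hyz' hyE' hyy hna
    have h1 := hadjA y hy hyz
    have h2 := hadjB y' hy' hyz'
    have d2 : y ≠ z2 := fun h => z2A (h ▸ hy)
    have d1 : z1 ≠ y' := fun h => z1B (h ▸ hy')
    have hM : Mut G f z1 y := mut_of hP hG1 h1.1 (by rw [hp1]; exact h1.2) h1.2
    have hM' : Mut G f z2 y' := mut_of hP hG2 h2.1 (by rw [hp2]; exact h2.2) h2.2
    refine DS hP hGe hne hfz ha1 ha2 hn hpr hM hM' ?_ ?_ ?_ ?_ d1 d2 hyy hna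
    · intro h
      rcases hNe y h with h | h | h
      · exact hyE h
      · exact hyz h
      · exact d2 h
    · intro h
      rcases hNe y' h with h | h | h
      · exact hyE' h
      · exact d1 h.symm
      · exact hyz' h
    · exact fun h => hyE (h ▸ hself e)
    · exact fun h => hyE' (h ▸ hself e)
  have nA : ∀ u ∈ CC G f z1, Near G 3 e u := by
    intro u hu
    by_cases h : u = z1
    · rw [h]; exact near_mono (by norm_num) nz1
    · exact near_mono (by norm_num) (near_adj nz1 (hadjA u hu h).1)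
  have nB : ∀ u ∈ CC G f z2, Near G 3 e u := by
    intro u hu
    by_cases h : u = z2
    · rw [h]; exact near_mono (by norm_num) nz2
    · exact near_mono (by norm_num) (near_adj nz2 (hadjB u hu h).1)
  have hAE : CC G f z1 ≠ CC G f e := fun h => z1E (h ▸ hself z1)
  have hBE : CC G f z2 ≠ CC G f e := fun h => z2E (h ▸ hself z2)
  have hAB : CC G f z1 ≠ CC G f z2 := fun h => z1B (h ▸ hself z1)
  have cAE : (CC G f z1 ∩ CC G f e).Nonempty → (CC G f z1 ∩ CC G f e).card = 2 := by
    rintro ⟨u, hu⟩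
    rw [mem_inter] at hu
    exact ((hR u (nA u hu.1)).2.2 _ _ hA4 hE4 hu.1 hu.2 hAE).1
  have cBE : (CC G f z2 ∩ CC G f e).Nonempty → (CC G f z2 ∩ CC G f e).card = 2 := by
    rintro ⟨u, hu⟩
    rw [mem_inter] at hu
    exact ((hR u (nB u hu.1)).2.2 _ _ hB4 hE4 hu.1 hu.2 hBE).1
  by_cases hdis : CC G f z1 ∩ CC G f z2 = ∅
  · -- case 1
    have hleA : (CC G f z1 ∩ CC G f e).card ≤ 2 := by
      rcases (CC G f z1 ∩ CC G f e).eq_empty_or_nonempty with h | h
      · rw [h]; simp
      · exact (cAE h).le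
    have hleB : (CC G f z2 ∩ CC G f e).card ≤ 2 := by
      rcases (CC G f z2 ∩ CC G f e).eq_empty_or_nonempty with h | h
      · rw [h]; simp
      · exact (cBE h).le
    rcases (CC G f z2 ∩ CC G f e).eq_empty_or_nonempty with hB | hB
    · exact XSF8.caseOne hd core hA4 hB4 (hself z1) (hself z2) hdis hleA hB
    · rcases (CC G f z1 ∩ CC G f e).eq_empty_or_nonempty with hA | hA
      · refine XSF8.caseOne hd (fun y hy hyz hyE y' hy' hyz' hyE' hyy hna => ?_) hB4 hA4
          (hself z2) (hself z1) (by rw [inter_comm]; exact hdis) hleB hA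
        exact core y' hy' hyz' hyE' y hy hyz hyE hyy.symm (fun h => hna h.symm)
      · have h1 := cAE hA
        have h2 := cBE hB
        have hdj : Disjoint (CC G f z1 ∩ CC G f e) (CC G f z2 ∩ CC G f e) := by
          rw [Finset.disjoint_left]
          intro u hu hu'
          have : u ∈ CC G f z1 ∩ CC G f z2 := mem_inter.2 ⟨(mem_inter.1 hu).1, (mem_inter.1 hu').1⟩
          rw [hdis] at this
          exact absurd this (notMem_empty u)
        have hsub : (CC G f z1 ∩ CC G f e) ∪ (CC G f z2 ∩ CC G f e) ⊆ (CC G f e).erase e := by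
          intro u hu
          rcases mem_union.1 hu with h | h
          · exact mem_erase.2 ⟨fun he => eA (he ▸ (mem_inter.1 h).1), (mem_inter.1 h).2⟩
          · exact mem_erase.2 ⟨fun he => eB (he ▸ (mem_inter.1 h).1), (mem_inter.1 h).2⟩
        have hc := card_le_card hsub
        rw [card_union_of_disjoint hdj, card_erase_of_mem (hself e), hE4.card_eq, h1, h2] at hc
        omega
  · -- case 2
    obtain ⟨u, hu⟩ := Finset.nonempty_iff_ne_empty.2 hdis
    rw [mem_inter] at hu
    have cAB : (CC G f z1 ∩ CC G f z2).card = 2 :=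
      ((hR u (nA u hu.1)).2.2 _ _ hA4 hB4 hu.1 hu.2 hAB).1
    have three' : ∀ u, u ∈ CC G f z1 → u ∈ CC G f z2 → u ∈ CC G f e → False := by
      intro u h1 h2 h3'
      rcases h6 V G u (hR u (nA u h1)).2 _ _ _ hA4 hB4 hE4 h1 h2 h3' hAB with h | h
      · exact hAE h.symm
      · exact hBE h.symm
    have hAe : CC G f z1 ∩ CC G f e = ∅ := by
      by_contra hcon
      have h1 := cAE (Finset.nonempty_iff_ne_empty.2 hcon)
      have hdj : Disjoint (CC G f z1 ∩ CC G f e) (CC G f z1 ∩ CC G f z2) := by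
        rw [Finset.disjoint_left]
        intro u hu hu'
        exact three' u (mem_inter.1 hu).1 (mem_inter.1 hu').2 (mem_inter.1 hu).2
      have hsub : (CC G f z1 ∩ CC G f e) ∪ (CC G f z1 ∩ CC G f z2) ⊆ (CC G f z1).erase z1 := by
        intro u hu
        rcases mem_union.1 hu with h | h
        · exact mem_erase.2 ⟨fun he => z1E (he ▸ (mem_inter.1 h).2), (mem_inter.1 h).1⟩
        · exact mem_erase.2 ⟨fun he => z1B (he ▸ (mem_inter.1 h).2), (mem_inter.1 h).1⟩
      have hc := card_le_card hsub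
      rw [card_union_of_disjoint hdj, card_erase_of_mem (hself z1), hA4.card_eq, h1, cAB] at hc
      omega
    have hBe : CC G f z2 ∩ CC G f e = ∅ := by
      by_contra hcon
      have h1 := cBE (Finset.nonempty_iff_ne_empty.2 hcon)
      have hdj : Disjoint (CC G f z2 ∩ CC G f e) (CC G f z1 ∩ CC G f z2) := by
        rw [Finset.disjoint_left]
        intro u hu hu'
        exact three' u (mem_inter.1 hu').1 (mem_inter.1 hu').2 (mem_inter.1 hu).2
      have hsub : (CC G f z2 ∩ CC G f e) ∪ (CC G f z1 ∩ CC G f z2) ⊆ (CC G f z2).erase z2 := by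
        intro u hu
        rcases mem_union.1 hu with h | h
        · exact mem_erase.2 ⟨fun he => z2E (he ▸ (mem_inter.1 h).2), (mem_inter.1 h).1⟩
        · exact mem_erase.2 ⟨fun he => z2A (he ▸ (mem_inter.1 h).1), (mem_inter.1 h).2⟩
      have hc := card_le_card hsub
      rw [card_union_of_disjoint hdj, card_erase_of_mem (hself z2), hB4.card_eq, h1, cAB] at hc
      omega
    have noE : ∀ y, y ∈ CC G f z1 ∨ y ∈ CC G f z2 → y ∉ CC G f e := by
      rintro y (h | h) hy
      · have : y ∈ CC G f z1 ∩ CC G f e := mem_inter.2 ⟨h, hy⟩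
        rw [hAe] at this
        exact absurd this (notMem_empty y)
      · have : y ∈ CC G f z2 ∩ CC G f e := mem_inter.2 ⟨h, hy⟩
        rw [hBe] at this
        exact absurd this (notMem_empty y)
    -- `w1`, `w2`
    obtain ⟨w1, hw1⟩ : ∃ w, ((CC G f z1) \ (CC G f z2)).erase z1 = {w} := by
      rw [← Finset.card_eq_one, card_erase_of_mem (mem_sdiff.2 ⟨hself z1, z1B⟩)]
      have := card_sdiff_add_card_inter (CC G f z1) (CC G f z2)
      rw [hA4.card_eq, cAB] at this
      omega
    obtain ⟨w2, hw2⟩ : ∃ w, ((CC G f z2) \ (CC G f z1)).erase z2 = {w} := by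
      rw [← Finset.card_eq_one, card_erase_of_mem (mem_sdiff.2 ⟨hself z2, z2A⟩)]
      have := card_sdiff_add_card_inter (CC G f z2) (CC G f z1)
      rw [hB4.card_eq, inter_comm, cAB] at this
      omega
    have m1 : w1 ∈ ((CC G f z1) \ (CC G f z2)).erase z1 := by rw [hw1]; simp
    have m2 : w2 ∈ ((CC G f z2) \ (CC G f z1)).erase z2 := by rw [hw2]; simp
    rw [mem_erase, mem_sdiff] at m1 m2
    obtain ⟨w1z, w1A, w1B⟩ := m1
    obtain ⟨w2z, w2B, w2A⟩ := m2
    have hcol : f w1 ≠ none := hGe.1 w1 (nA w1 w1A)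
    obtain ⟨c, hc⟩ := Option.ne_none_iff_exists'.1 hcol
    have aw1 := hadjA w1 w1A w1z
    have hfe : f e ≠ f w1 := by
      intro h
      have hne' : e ≠ w1 := fun h' => eA (h' ▸ w1A)
      have := (mem_pr_of (mem_pr.1 hep1).1 aw1.1 hne' h).2
      rw [hp1] at this
      exact aw1.2 this
    have hcz : f z2 ≠ some c := by
      rw [← hfz]
      intro h
      exact hP z1 w1 c aw1.1 h hc
    obtain ⟨v, hv, hfv⟩ := (tight0 hP hG2).2.2 c hcz
    have hvw : v = w2 := by
      by_cases hvI : v ∈ II G f z2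
      · exfalso
        rw [← hp2] at hvI
        by_cases hve : v = e
        · exact hfe (by rw [← hve, hfv, hc])
        · have := (two hd hP (tight0 hP hG2) hR2.2.1 hvI hep2 hve).1
          exact hfe (by rw [← this, hfv, hc])
      · have hvB : v ∈ CC G f z2 := mem_CC.2 (Or.inr ⟨hv, hvI⟩)
        by_cases hvA : v ∈ CC G f z1
        · exfalso
          have hvw1 : v ≠ w1 := fun h => w1B (h ▸ hvB)
          exact hP v w1 c (hA4.isClique hvA w1A hvw1) hfv hc
        · have : v ∈ ((CC G f z2) \ (CC G f z1)).erase z2 :=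
            mem_erase.2 ⟨hv.ne', mem_sdiff.2 ⟨hvB, hvA⟩⟩
          rw [hw2] at this
          exact mem_singleton.1 this
    rw [hvw] at hfv
    refine core w1 w1A w1z (noE w1 (Or.inl w1A)) w2 w2B w2z (noE w2 (Or.inr w2B)) ?_ ?_
    · exact fun h => w2A (h ▸ w1A)
    · exact fun h => hP w1 w2 c h hc hfv

end

end Pool.Agent.Work.MP_47f387_co.Five
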