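import Pool.Agent.Work.MP_47f387_co.Five.Stmts

/-!
# MP_47f387_co, maximum degree 5: existence of the mate
-/

namespace Pool.Agent.Work.MP_47f387_co.Five

open Finset Classical Large

noncomputable section

namespace XSF9

variable {V : Type} {G : SimpleGraph V}

/-- a 4-set containing three given elements -/
lemma fourth {Q : Finset V} (hQ : Q.card = 4) {u m a : V} (hu : u ∈ Q) (hm : m ∈ Q) (ha : a ∈ Q)
    (hum : u ≠ m) (hua : u ≠ a) (hma : m ≠ a) :
    ∃ a', a' ≠ u ∧ a' ≠ m ∧ a' ≠ a ∧ Q = {u, m, a, a'} := by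
  have h3 : ({u, m, a} : Finset V).card = 3 := Finset.card_eq_three.2 ⟨u, m, a, hum, hua, hma, rfl⟩
  have hsub : ({u, m, a} : Finset V) ⊆ Q := by
    intro x hx
    simp only [mem_insert, mem_singleton] at hx
    rcases hx with rfl | rfl | rfl <;> assumption
  have h1 : (Q \ {u, m, a}).card = 1 := by
    rw [card_sdiff_of_subset hsub, hQ, h3]
  obtain ⟨a', ha'⟩ := card_eq_one.1 h1
  have hmem : a' ∈ Q \ {u, m, a} := by rw [ha']; simp
  rw [mem_sdiff] at hmem
  simp only [mem_insert, mem_singleton, not_or] at hmem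
  refine ⟨a', hmem.2.1, hmem.2.2.1, hmem.2.2.2, ?_⟩
  ext x
  constructor
  · intro hx
    by_cases h : x ∈ ({u, m, a} : Finset V)
    · simp only [mem_insert, mem_singleton] at h ⊢
      tauto
    · have : x ∈ Q \ {u, m, a} := mem_sdiff.2 ⟨hx, h⟩
      rw [ha', mem_singleton] at this
      simp [this]
  · intro hx
    simp only [mem_insert, mem_singleton] at hx
    rcases hx with rfl | rfl | rfl | rfl
    · exact hu
    · exact hm
    · exact ha
    · exact hmem.1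

/-- the fourth clause for `a ∈ Q`, `b ∈ Q'` -/
lemma clause {u m : V} {Q Q' : Finset V} (hQ : G.IsNClique 4 Q) (hQ' : G.IsNClique 4 Q')
    (hu : u ∈ Q) (hu' : u ∈ Q') (hm : m ∈ Q) (hm' : m ∈ Q') (hum : u ≠ m)
    (hN : ∀ w, G.Adj u w ↔ w ∈ Q ∪ Q' ∧ w ≠ u) {a b : V} (ha : a ∈ Q) (hb : b ∈ Q')
    (hua : u ≠ a) (hub : u ≠ b) (hma : a ≠ m) (hmb : b ≠ m) :
    ∃ a' b', a' ≠ m ∧ a' ≠ a ∧ b' ≠ m ∧ b' ≠ b ∧ G.IsNClique 4 {u, m, a, a'} ∧
      G.IsNClique 4 {u, m, b, b'} ∧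
      ∀ w, G.Adj u w ↔ w = m ∨ w = a ∨ w = a' ∨ w = b ∨ w = b' := by
  obtain ⟨a', h1, h2, h3, h4⟩ := fourth hQ.card_eq hu hm ha hum hua hma.symm
  obtain ⟨b', k1, k2, k3, k4⟩ := fourth hQ'.card_eq hu' hm' hb hum hub hmb.symm
  refine ⟨a', b', h2, h3, k2, k3, by rw [← h4]; exact hQ, by rw [← k4]; exact hQ', ?_⟩
  intro w
  rw [hN, mem_union, h4, k4]
  simp only [mem_insert, mem_singleton]
  constructor
  · rintro ⟨h, hne⟩
    tauto
  · rintro (rfl | rfl | rfl | rfl | rfl)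
    · exact ⟨by tauto, hum.symm⟩
    · exact ⟨by tauto, hua.symm⟩
    · exact ⟨by tauto, h1⟩
    · exact ⟨by tauto, hub.symm⟩
    · exact ⟨by tauto, k1⟩

end XSF9

open XSF9 in
theorem prf_SF9 (h6 : SF6) : SF9 := by
  intro V _ G u hBD hSt ⟨Q, Q', hQ, hQ', hu, hu', hne⟩
  obtain ⟨hI, hN1⟩ := hSt.2 Q Q' hQ hQ' hu hu' hne
  -- the mate
  obtain ⟨m, hm⟩ : ∃ m, m ∈ (Q ∩ Q').erase u := by
    have hc : ((Q ∩ Q').erase u).card = 1 := by
      rw [card_erase_of_mem (mem_inter.2 ⟨hu, hu'⟩), hI]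
    obtain ⟨m, hm⟩ := card_eq_one.1 hc
    exact ⟨m, by rw [hm]; simp⟩
  rw [mem_erase, mem_inter] at hm
  obtain ⟨hmu, hmQ, hmQ'⟩ := hm
  have hadj : ∀ {v w : V} {P : Finset V}, G.IsNClique 4 P → v ∈ P → w ∈ P → v ≠ w → G.Adj v w :=
    fun hP hv hw h => hP.isClique (mem_coe.2 hv) (mem_coe.2 hw) h
  have hN : ∀ w, G.Adj u w ↔ w ∈ Q ∪ Q' ∧ w ≠ u := by
    intro w
    constructor
    · intro h
      exact ⟨hN1 w h, h.ne'⟩
    · rintro ⟨h, hne'⟩
      rcases mem_union.1 h with h | h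
      · exact hadj hQ hu h hne'.symm
      · exact hadj hQ' hu' h hne'.symm
  have hc6 : (Q ∪ Q').card = 6 := by
    have := card_union_add_card_inter Q Q'
    rw [hI, hQ.card_eq, hQ'.card_eq] at this
    omega
  have hNm : ∀ w, G.Adj m w ↔ w ∈ Q ∪ Q' ∧ w ≠ m := by
    have hsub : (Q ∪ Q').erase m ⊆ univ.filter (fun w => G.Adj m w) := by
      intro w hw
      rw [mem_erase, mem_union] at hw
      rw [mem_filter]
      refine ⟨mem_univ _, ?_⟩
      rcases hw.2 with h | h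
      · exact hadj hQ hmQ h hw.1.symm
      · exact hadj hQ' hmQ' h hw.1.symm
    have hcard : ((Q ∪ Q').erase m).card = 5 := by
      rw [card_erase_of_mem (mem_union_left _ hmQ), hc6]
    have hdeg : (univ.filter (fun w => G.Adj m w)).card ≤ 5 := hBD m
    have heq := eq_of_subset_of_card_le hsub (by rw [hcard]; exact hdeg)
    intro w
    have h1 : w ∈ univ.filter (fun w => G.Adj m w) ↔ G.Adj m w := by simp
    rw [← h1, ← heq, mem_erase, and_comm]
  refine ⟨m, hadj hQ hu hmQ hmu.symm, ?_, ?_, ?_⟩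
  · intro w hwu hwm
    rw [hNm, hN]
    exact ⟨fun h => ⟨h.1, hwu⟩, fun h => ⟨h.1, hwm⟩⟩
  · intro P hP huP
    rcases h6 V G u hSt Q Q' P hQ hQ' hP hu hu' huP hne with h | h
    · rw [h]; exact hmQ
    · rw [h]; exact hmQ'
  · intro a b ha hb ham hbm hab hnab
    have ha1 := (hN a).1 ha
    have hb1 := (hN b).1 hb
    rcases mem_union.1 ha1.1 with ha2 | ha2
    · have hb2 : b ∈ Q' := by
        rcases mem_union.1 hb1.1 with h | h
        · exact absurd (hadj hQ ha2 h hab) hnab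
        · exact h
      exact clause hQ hQ' hu hu' hmQ hmQ' hmu.symm hN ha2 hb2 ha1.2.symm hb1.2.symm ham hbm
    · have hb2 : b ∈ Q := by
        rcases mem_union.1 hb1.1 with h | h
        · exact h
        · exact absurd (hadj hQ' ha2 h hab) hnab
      refine clause hQ' hQ hu' hu hmQ' hmQ hmu.symm ?_ ha2 hb2 ha1.2.symm hb1.2.symm ham hbm
      intro w
      rw [hN, union_comm]

end

end Pool.Agent.Work.MP_47f387_co.Five
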