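import Pool.Agent.Work.MP_47f387_co.Five.Stmts

/-!
# MP_47f387_co, maximum degree 5, item SP1: a flexible vertex far from the holes is a place
-/

namespace Pool.Agent.Work.MP_47f387_co.Five

open Finset Classical Large

noncomputable section

namespace XSP1

section

variable {V : Type} {d : ℕ} {G : SimpleGraph V}

/-- the permutation maps the ball of radius `r + 2` into itself -/
lemma near_e {v : V} {e : Equiv.Perm V} (he : ∀ u, e u ≠ u → Near G 2 v u) {r : ℕ} {u : V}
    (hu : Near G (r + 2) v u) : Near G (r + 2) v (e u) := by
  by_cases h : e u = u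
  · rw [h]; exact hu
  · refine near_mono (by omega) (he (e u) ?_)
    intro h'
    exact h (e.injective h')

lemma fix_e {v : V} {e : Equiv.Perm V} (he : ∀ u, e u ≠ u → Near G 2 v u) {u : V}
    (hu : ¬ Near G 2 v u) : e u = u := by
  by_contra h
  exact hu (he u h)

lemma proper_e {v : V} {e : Equiv.Perm V} (he : ∀ u, e u ≠ u → Near G 2 v u)
    {f g : V → Option (Fin d)}
    (hc : ∀ u w c, Near G 2 v u → G.Adj u w → f (e u) = some c → f (e w) ≠ some c)
    (hg : Proper G g) (hgf : ∀ u, Near G 3 v u → g u = f u) : Proper G (fun u => g (e u)) := by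
  intro a b c hab ha hb
  beta_reduce at ha hb
  by_cases h2a : Near G 2 v a
  · have h3b : Near G 3 v b := near_adj h2a hab
    have h3a : Near G 3 v a := near_succ h2a
    rw [hgf _ (near_e (r := 1) he h3a)] at ha
    rw [hgf _ (near_e (r := 1) he h3b)] at hb
    exact hc a b c h2a hab ha hb
  · by_cases h2b : Near G 2 v b
    · have h3a : Near G 3 v a := near_adj h2b hab.symm
      have h3b : Near G 3 v b := near_succ h2b
      rw [hgf _ (near_e (r := 1) he h3a)] at ha
      rw [hgf _ (near_e (r := 1) he h3b)] at hb
      exact hc b a c h2b hab.symm hb ha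
    · rw [fix_e he h2a] at ha
      rw [fix_e he h2b] at hb
      exact hg a b c hab ha hb

end

/-- the walk lemma -/
lemma walk {V : Type} [Fintype V] {d : ℕ} {G : SimpleGraph V} (hd : BD d G) (B : V → Prop)
    {w : V} {i j : Fin d} (hBw : B w) {y : V}
    (hy : Relation.ReflTransGen (fun a b => G.Adj a b ∧ B b) y w) :
    ∀ g : V → Option (Fin d), Proper G g → B y → y ≠ w → g y = none →
      (∀ z, B z → z ≠ y → g z ≠ none) → Switch G g w i j →
      ∃ g' : V → Option (Fin d), Proper G g' ∧ (∀ z, ¬ B z → g' z = g z) ∧
        ∀ z, B z → g' z ≠ none := by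
  induction hy using Relation.ReflTransGen.head_induction_on with
  | refl =>
    intro g _ _ h
    exact absurd rfl h
  | @head y y' hyy' hrest ih =>
    intro g hg hBy hyw hgy hno hsw
    obtain ⟨hadj, hBy'⟩ := hyy'
    obtain ⟨hs1, hs2, hs3⟩ := hsw
    by_cases hc : ∀ c, Sees G g y c
    · obtain ⟨-, hdis⟩ := IC4.distinct hd g y hc
      by_cases hyw' : G.Adj y w
      · have hp1 : Proper G (IC4.upd g w (some j)) := fill hg hs3
        have hns : ¬ Sees G (IC4.upd g w (some j)) y i := by
          rintro ⟨x, hx, hxi⟩
          by_cases hxw : x = w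
          · subst hxw
            rw [IC4.upd_self, Option.some.injEq] at hxi
            exact hs2 hxi.symm
          · rw [IC4.upd_ne g w _ hxw] at hxi
            exact hxw (hdis x w hx hyw' (by rw [hxi, hs1]))
        refine ⟨IC4.upd (IC4.upd g w (some j)) y (some i), fill hp1 hns, ?_, ?_⟩
        · intro z hz
          have h1 : z ≠ y := fun h => hz (h ▸ hBy)
          have h2 : z ≠ w := fun h => hz (h ▸ hBw)
          rw [IC4.upd_ne _ _ _ h1, IC4.upd_ne _ _ _ h2]
        · intro z hz
          by_cases h1 : z = y
          · subst h1
            rw [IC4.upd_self]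
            exact Option.some_ne_none _
          · rw [IC4.upd_ne _ _ _ h1]
            by_cases h2 : z = w
            · subst h2
              rw [IC4.upd_self]
              exact Option.some_ne_none _
            · rw [IC4.upd_ne _ _ _ h2]
              exact hno z hz h1
      · have hy'w : y' ≠ w := by
          rintro rfl
          exact hyw' hadj
        have hy'y : y' ≠ y := hadj.ne'
        have e1 : g (Equiv.swap y y' y') = none := by rw [Equiv.swap_apply_right, hgy]
        have e2 : g (Equiv.swap y y' y) = g y' := by rw [Equiv.swap_apply_left]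
        have e3 : ∀ z, z ≠ y → z ≠ y' → g (Equiv.swap y y' z) = g z := fun z h1 h2 => by
          rw [Equiv.swap_apply_of_ne_of_ne h1 h2]
        obtain ⟨g', hg', hout, hin⟩ := ih (fun u => g (Equiv.swap y y' u))
          (move hd hg hgy hc hadj) hBy' hy'w e1 (by
            intro z hz hzy'
            by_cases hzy : z = y
            · subst hzy
              rw [e2]
              exact hno y' hBy' hy'y
            · rw [e3 z hzy hzy']
              exact hno z hz hzy) (by
            refine ⟨?_, hs2, ?_⟩
            · beta_reduce
              rw [e3 w hyw.symm hy'w.symm]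
              exact hs1
            · rintro ⟨x, hx, hxj⟩
              beta_reduce at hxj
              have hxy : x ≠ y := by
                rintro rfl
                exact hyw' hx.symm
              by_cases hxy' : x = y'
              · subst hxy'
                rw [e1] at hxj
                exact absurd hxj (by simp)
              · rw [e3 x hxy hxy'] at hxj
                exact hs3 ⟨x, hx, hxj⟩)
        refine ⟨g', hg', ?_, hin⟩
        intro z hz
        rw [hout z hz]
        exact e3 z (fun h => hz (h ▸ hBy)) (fun h => hz (h ▸ hBy'))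
    · push Not at hc
      obtain ⟨c, hc⟩ := hc
      refine ⟨IC4.upd g y (some c), fill hg hc, ?_, ?_⟩
      · intro z hz
        have h1 : z ≠ y := fun h => hz (h ▸ hBy)
        rw [IC4.upd_ne _ _ _ h1]
      · intro z hz
        by_cases h1 : z = y
        · subst h1
          rw [IC4.upd_self]
          exact Option.some_ne_none _
        · rw [IC4.upd_ne _ _ _ h1]
          exact hno z hz h1

section

variable {V : Type} {G : SimpleGraph V}

lemma chain_to (v : V) : ∀ r, r ≤ 4 → ∀ u, Near G r v u →
    Relation.ReflTransGen (fun a b => G.Adj a b ∧ Near G 4 v b) u v := by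
  intro r
  induction r with
  | zero =>
    intro _ u hu
    cases hu
    exact Relation.ReflTransGen.refl
  | succ r ih =>
    intro hr u hu
    rcases hu with hu | ⟨x, hx, hxu⟩
    · exact ih (by omega) u hu
    · exact Relation.ReflTransGen.head ⟨hxu.symm, near_mono (by omega) hx⟩ (ih (by omega) x hx)

lemma chain_from (v : V) : ∀ r, r ≤ 4 → ∀ u, Near G r v u →
    Relation.ReflTransGen (fun a b => G.Adj a b ∧ Near G 4 v b) v u := by
  intro r
  induction r with
  | zero =>
    intro _ u hu
    cases hu
    exact Relation.ReflTransGen.refl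
  | succ r ih =>
    intro hr u hu
    rcases hu with hu | ⟨x, hx, hxu⟩
    · exact ih (by omega) u hu
    · exact Relation.ReflTransGen.tail (ih (by omega) x hx)
        ⟨hxu, near_mono hr (near_adj hx hxu)⟩

end

end XSP1

open XSP1 in
theorem prf_SP1 : SP1 := by
  intro d V _ G f i j v hd hf hno hfl
  obtain ⟨e, he, hc, w, hw2, hs1, hs2, hs3⟩ := hfl
  beta_reduce at hs1
  have hP : Proper G (fun u => f (e u)) := proper_e he hc hf (fun _ _ => rfl)
  refine ⟨hno, ⟨IC4.upd (fun u => f (e u)) w (some j), fill hP hs3, ?_, ?_, ?_⟩, ?_⟩
  · intro u hu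
    have h1 : u ≠ w := by
      rintro rfl
      exact hu (near_succ hw2)
    rw [IC4.upd_ne _ _ _ h1, fix_e he (fun h => hu (near_succ h))]
  · intro u hu
    by_cases h1 : u = w
    · subst h1
      rw [IC4.upd_self]
      exact Option.some_ne_none _
    · rw [IC4.upd_ne _ _ _ h1]
      exact hno _ (near_succ (near_e (r := 1) he hu))
  · intro c
    have hij : (some i : Option (Fin d)) ≠ some j := fun h => hs2 (Option.some.inj h)
    by_cases hci : c = i
    · subst hci
      have h := IC4.cnt_upd_old (fun u => f (e u)) w (some j) (by rw [hs1]; exact hij)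
      beta_reduce at h
      rw [hs1, cnt_perm] at h
      rw [if_pos rfl, if_neg hs2]
      exact h
    · by_cases hcj : c = j
      · subst hcj
        have h := IC4.cnt_upd_new (fun u => f (e u)) w (some c) (by rw [hs1]; exact hij)
        rw [cnt_perm] at h
        rw [if_neg hci, if_pos rfl]
        exact h
      · have h := IC4.cnt_upd_ne (fun u => f (e u)) w (some j) (some c)
          (by rw [hs1]; exact fun h => hci (Option.some.inj h).symm)
          (fun h => hcj (Option.some.inj h).symm)
        rw [cnt_perm] at h
        rw [if_neg hci, if_neg hcj]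
        exact congrArg (· + 0) h
  · intro g u hg hu4 hu3 hgu hgf
    have hgf3 : ∀ z, Near G 3 v z → g z = f z := fun z hz =>
      hgf z (near_succ hz) (by rintro rfl; exact hu3 hz)
    have hu2 : ¬ Near G 2 v u := fun h => hu3 (near_succ h)
    have hg1 : Proper G (fun z => g (e z)) := proper_e he hc hg hgf3
    have huw : u ≠ w := by
      rintro rfl
      exact hu2 hw2
    obtain ⟨g', hg', hout, hin⟩ := walk hd (fun z => Near G 4 v z) (w := w) (i := i) (j := j)
      (near_mono (by omega) hw2)
      ((chain_to v 4 le_rfl u hu4).trans (chain_from v 2 (by omega) w hw2))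
      (fun z => g (e z)) hg1 hu4 huw (by rw [fix_e he hu2, hgu]) (by
        intro z hz hzu
        rw [hgf (e z) (near_e (r := 2) he hz) (by
          intro h
          apply hzu
          apply e.injective
          rw [h, fix_e he hu2])]
        exact hno _ (near_e (r := 2) he hz)) (by
        refine ⟨?_, hs2, ?_⟩
        · beta_reduce
          rw [hgf3 _ (near_e (r := 1) he (near_succ hw2))]
          exact hs1
        · rintro ⟨x, hx, hxj⟩
          beta_reduce at hxj
          rw [hgf3 _ (near_e (r := 1) he (near_adj hw2 hx))] at hxj
          exact hs3 ⟨x, hx, hxj⟩)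
    refine ⟨g', hg', ?_, hin⟩
    intro z hz
    rw [hout z hz, fix_e he (fun h => hz (near_mono (by omega) h))]

end

end Pool.Agent.Work.MP_47f387_co.Five
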