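import Pool.Agent.Work.MP_47f387_co.Five.Stmts

/-!
# MP_47f387_co, maximum degree 5: item SP10
-/

namespace Pool.Agent.Work.MP_47f387_co.Five

open Finset Classical Large

noncomputable section

namespace XSP10

variable {V : Type} [Fintype V] {d : ℕ} {G : SimpleGraph V}

lemma no_hole {f f₁ : V → Option (Fin d)} {w : V} (h0 : cnt f none = 0)
    (h1 : ∀ u, ¬ Near G 3 w u → f₁ u = f u) (h2 : ∀ u, Near G 3 w u → f₁ u ≠ none) :
    cnt f₁ none = 0 := by
  unfold cnt at h0 ⊢
  rw [card_eq_zero, filter_eq_empty_iff] at h0 ⊢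
  intro u hu h3
  by_cases hw : Near G 3 w u
  · exact h2 u hw h3
  · exact h0 hu ((h1 u hw).symm.trans h3)

lemma ps_erase (h6 : SP6) {f f₁ : V → Option (Fin d)} {W : Finset V} {a b : V → Fin d} {w : V}
    (hf₁ : Proper G f₁) (hS : PS G f W a b) (hw : w ∈ W)
    (h1 : ∀ u, ¬ Near G 3 w u → f₁ u = f u) : PS G f₁ (W.erase w) a b := by
  constructor
  · intro w' hw'
    rw [mem_erase] at hw'
    refine h6 d V G f f₁ (a w') (b w') w' hf₁ ?_ (hS.1 w' hw'.2)
    intro u hu
    refine h1 u ?_
    intro hu3
    exact hS.2 w hw w' hw'.2 hw'.1.symm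
      (near_mono (by norm_num) (near_trans hu3 (near_symm hu)))
  · intro w₁ h₁ w₂ h₂ hne
    exact hS.2 w₁ (mem_erase.1 h₁).2 w₂ (mem_erase.1 h₂).2 hne

end XSP10

open XSP10 in
theorem prf_SP10 (h6 : SP6) : SP10 := by
  intro d V _ G f W a b t m
  induction m generalizing f W with
  | zero =>
    intro hf hS h0 ht hm _
    have h1 : ∀ c, cnt f (some c) ≤ t c := by
      intro c
      have h2 : ∑ c, (cnt f (some c) - t c) = 0 := Nat.le_zero.1 hm
      have h3 := (Finset.sum_eq_zero_iff.1 h2) c (mem_univ _)
      omega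
    exact ⟨f, hf, h0, IC6.base h0 ht h1⟩
  | succ m ih =>
    intro hf hS h0 ht hm hW
    by_cases hle : ∀ c, cnt f (some c) ≤ t c
    · exact ⟨f, hf, h0, IC6.base h0 ht hle⟩
    push Not at hle
    obtain ⟨i, hi⟩ := hle
    have hex : ∃ j, cnt f (some j) < t j := by
      by_contra hno
      push Not at hno
      have h1 := IC6.sum_cnt f
      rw [h0, add_zero, ← ht] at h1
      have h2 := (Finset.sum_eq_sum_iff_of_le (fun i (_ : i ∈ univ) => hno i)).1 h1.symm i
        (mem_univ _)
      omega
    obtain ⟨j, hj⟩ := hex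
    have hij : i ≠ j := by rintro rfl; omega
    have hpos : 0 < (W.filter (fun w => a w = i ∧ b w = j)).card := by
      have := hW i j hij
      omega
    obtain ⟨w, hw⟩ := card_pos.1 hpos
    rw [mem_filter] at hw
    obtain ⟨hwW, hwi, hwj⟩ := hw
    obtain ⟨-, ⟨f₁, hf₁, hout, hin, hcnt⟩, -⟩ := hS.1 w hwW
    rw [hwi, hwj] at hcnt
    refine ih f₁ (W.erase w) hf₁ (ps_erase h6 hf₁ hS hwW hout) (no_hole h0 hout hin) ht ?_ ?_
    · have h3 : ∑ c, (cnt f₁ (some c) - t c) < ∑ c, (cnt f (some c) - t c) := by
        apply Finset.sum_lt_sum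
        · intro c _
          have hc := hcnt c
          by_cases hci : c = i
          · subst hci
            rw [if_pos rfl, if_neg hij] at hc
            omega
          · by_cases hcj : c = j
            · subst hcj
              rw [if_neg hci, if_pos rfl] at hc
              omega
            · rw [if_neg hci, if_neg hcj] at hc
              omega
        · refine ⟨i, mem_univ _, ?_⟩
          have hc := hcnt i
          rw [if_pos rfl, if_neg hij] at hc
          omega
      omega
    · intro i' j' hij'
      have h4 := hW i' j' hij'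
      have h5 : (W.filter (fun w => a w = i' ∧ b w = j')).card ≤
          ((W.erase w).filter (fun w => a w = i' ∧ b w = j')).card + 1 := by
        rw [Finset.filter_erase]
        have := Finset.pred_card_le_card_erase (s := W.filter (fun w => a w = i' ∧ b w = j'))
          (a := w)
        omega
      omega

end

end Pool.Agent.Work.MP_47f387_co.Five
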