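import Pool.Agent.Work.MP_47f387_co.Five.Stmts

/-!
# SP2: colouring a diamond from lists (MP_47f387_co)
-/

namespace Pool.Agent.Work.MP_47f387_co.Five

open Finset Classical Large

noncomputable section

namespace XSP2

theorem ex1 {α : Type} (S : Finset α) (x : α) (h : 2 ≤ S.card) : ∃ a ∈ S, a ≠ x := by
  obtain ⟨a, ha, hb⟩ := Finset.exists_mem_notMem_of_card_lt_card (s := {x}) (t := S) (by
    rw [Finset.card_singleton]
    omega)
  exact ⟨a, ha, fun h => hb (Finset.mem_singleton.2 h)⟩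

theorem ex2 {α : Type} (S : Finset α) (x y : α) (h : 3 ≤ S.card) :
    ∃ a ∈ S, a ≠ x ∧ a ≠ y := by
  obtain ⟨a, ha, hb⟩ := Finset.exists_mem_notMem_of_card_lt_card (s := {x, y}) (t := S) (by
    have := Finset.card_le_two (a := x) (b := y)
    omega)
  simp only [Finset.mem_insert, Finset.mem_singleton, not_or] at hb
  exact ⟨a, ha, hb⟩

theorem ex3 {α : Type} (S : Finset α) (x y z : α) (h : 4 ≤ S.card) :
    ∃ a ∈ S, a ≠ x ∧ a ≠ y ∧ a ≠ z := by
  obtain ⟨a, ha, hb⟩ := Finset.exists_mem_notMem_of_card_lt_card (s := {x, y, z}) (t := S) (by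
    have := Finset.card_le_three (a := x) (b := y) (c := z)
    omega)
  simp only [Finset.mem_insert, Finset.mem_singleton, not_or] at hb
  exact ⟨a, ha, hb⟩

end XSP2

open XSP2 in
theorem prf_SP2 : SP2 := by
  intro d A B C D hA hB hC hD
  by_cases hCD : (C ∩ D).Nonempty
  · obtain ⟨x, hx⟩ := hCD
    rw [Finset.mem_inter] at hx
    obtain ⟨b, hb, hbx⟩ := ex1 B x (by omega)
    obtain ⟨a, ha, hab, hax⟩ := ex2 A b x hA
    exact ⟨a, ha, b, hb, x, hx.1, x, hx.2, hab, hax, hax, hbx, hbx⟩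
  · rw [Finset.not_nonempty_iff_eq_empty] at hCD
    obtain ⟨c, hc⟩ := Finset.card_pos.1 (show 0 < C.card by omega)
    obtain ⟨e, he⟩ := Finset.card_pos.1 (show 0 < D.card by omega)
    by_cases hA4 : 4 ≤ A.card
    · obtain ⟨b, hb, hbc, hbe⟩ := ex2 B c e hB
      obtain ⟨a, ha, hab, hac, hae⟩ := ex3 A b c e hA4
      exact ⟨a, ha, b, hb, c, hc, e, he, hab, hac, hae, hbc, hbe⟩
    · have hdis : Disjoint C D := Finset.disjoint_iff_inter_eq_empty.2 hCD
      have hcard : A.card < (C ∪ D).card := by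
        rw [Finset.card_union_of_disjoint hdis]
        omega
      obtain ⟨x, hx, hxA⟩ := Finset.exists_mem_notMem_of_card_lt_card hcard
      rcases Finset.mem_union.1 hx with hx | hx
      · obtain ⟨b, hb, hbc, hbe⟩ := ex2 B x e hB
        obtain ⟨a, ha, hab, hae⟩ := ex2 A b e hA
        exact ⟨a, ha, b, hb, x, hx, e, he, hab, fun h => hxA (h ▸ ha), hae, hbc, hbe⟩
      · obtain ⟨b, hb, hbc, hbe⟩ := ex2 B c x hB
        obtain ⟨a, ha, hab, hac⟩ := ex2 A b c hA
        exact ⟨a, ha, b, hb, c, hc, x, hx, hab, hac, fun h => hxA (h ▸ ha), hbc, hbe⟩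

end

end Pool.Agent.Work.MP_47f387_co.Five
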