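import Pool.Agent.Work.MP_47f387_co.Five.Stmts

/-!
# MP_47f387_co, maximum degree 5: recolouring a diamond
-/

namespace Pool.Agent.Work.MP_47f387_co.Five

open Finset Classical Large

noncomputable section

namespace XSP3

/-- the colours which are free at `x` outside of `S` -/
def Li {V : Type} [Fintype V] {d : ℕ} (G : SimpleGraph V) (g : V → Option (Fin d))
    (S : Finset V) (x : V) : Finset (Fin d) :=
  univ.filter fun c => ∀ y, G.Adj x y → y ∉ S → g y ≠ some c

lemma mem_Li {V : Type} [Fintype V] {d : ℕ} {G : SimpleGraph V} {g : V → Option (Fin d)}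
    {S : Finset V} {x : V} {c : Fin d} (h : c ∈ Li G g S x) {y : V} (hy : G.Adj x y)
    (hS : y ∉ S) : g y ≠ some c := (mem_filter.1 h).2 y hy hS

lemma card_Li {V : Type} [Fintype V] {d : ℕ} {G : SimpleGraph V} (hd : BD d G)
    (g : V → Option (Fin d)) (S T : Finset V) (x : V) (hT : ∀ t ∈ T, G.Adj x t ∧ t ∈ S) :
    T.card ≤ (Li G g S x).card := by
  set O : Finset V := univ.filter fun y => G.Adj x y ∧ y ∉ S with hO
  have h1 : O.card + T.card ≤ d := by
    rw [← card_union_of_disjoint]
    · refine le_trans (card_le_card ?_) (hd x)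
      intro y hy
      rw [mem_filter]
      rcases mem_union.1 hy with h | h
      · exact ⟨mem_univ _, (mem_filter.1 h).2.1⟩
      · exact ⟨mem_univ _, (hT y h).1⟩
    · rw [Finset.disjoint_left]
      intro y hy hy'
      exact (mem_filter.1 hy).2.2 (hT y hy').2
  have h2 : (Li G g S x)ᶜ.card ≤ O.card := by
    have h3 : (Li G g S x)ᶜ.image (fun c => some c) ⊆ O.image g := by
      intro o ho
      obtain ⟨c, hc, rfl⟩ := mem_image.1 ho
      rw [mem_compl, Li, mem_filter] at hc
      push Not at hc
      obtain ⟨y, hy1, hy2, hy3⟩ := hc (mem_univ _)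
      exact mem_image.2 ⟨y, mem_filter.2 ⟨mem_univ _, hy1, hy2⟩, hy3⟩
    calc (Li G g S x)ᶜ.card = ((Li G g S x)ᶜ.image (fun c => some c)).card :=
          (card_image_of_injective _ (Option.some_injective _)).symm
      _ ≤ (O.image g).card := card_le_card h3
      _ ≤ O.card := card_image_le
  have h4 := card_add_card_compl (Li G g S x)
  rw [Fintype.card_fin] at h4
  omega

end XSP3

open XSP3 in
theorem prf_SP3 (h2 : SP2) : SP3 := by
  intro d V _ G g v z p p' h3d hd hg hpp hnp hvp hvp' hvz hzp hzp'
  have n1 : v ≠ z := hvz.ne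
  have n2 : v ≠ p := hvp.ne
  have n3 : v ≠ p' := hvp'.ne
  have n4 : z ≠ p := hzp.ne
  have n5 : z ≠ p' := hzp'.ne
  set S : Finset V := {v, z, p, p'} with hS
  have hin : ∀ u, u ∈ S ↔ u = v ∨ u = z ∨ u = p ∨ u = p' := by
    intro u
    simp [hS]
  have cv : 3 ≤ (Li G g S v).card := by
    have h := card_Li hd g S {z, p, p'} v (by
      intro t ht
      simp only [mem_insert, mem_singleton] at ht
      rcases ht with rfl | rfl | rfl
      · exact ⟨hvz, (hin _).2 (by tauto)⟩
      · exact ⟨hvp, (hin _).2 (by tauto)⟩
      · exact ⟨hvp', (hin _).2 (by tauto)⟩)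
    rwa [card_eq_three.2 ⟨z, p, p', n4, n5, hpp, rfl⟩] at h
  have cz : 3 ≤ (Li G g S z).card := by
    have h := card_Li hd g S {v, p, p'} z (by
      intro t ht
      simp only [mem_insert, mem_singleton] at ht
      rcases ht with rfl | rfl | rfl
      · exact ⟨hvz.symm, (hin _).2 (by tauto)⟩
      · exact ⟨hzp, (hin _).2 (by tauto)⟩
      · exact ⟨hzp', (hin _).2 (by tauto)⟩)
    rwa [card_eq_three.2 ⟨v, p, p', n2, n3, hpp, rfl⟩] at h
  have cp : 2 ≤ (Li G g S p).card := by
    have h := card_Li hd g S {v, z} p (by
      intro t ht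
      simp only [mem_insert, mem_singleton] at ht
      rcases ht with rfl | rfl
      · exact ⟨hvp.symm, (hin _).2 (by tauto)⟩
      · exact ⟨hzp.symm, (hin _).2 (by tauto)⟩)
    rwa [card_eq_two.2 ⟨v, z, n1, rfl⟩] at h
  have cp' : 2 ≤ (Li G g S p').card := by
    have h := card_Li hd g S {v, z} p' (by
      intro t ht
      simp only [mem_insert, mem_singleton] at ht
      rcases ht with rfl | rfl
      · exact ⟨hvp'.symm, (hin _).2 (by tauto)⟩
      · exact ⟨hzp'.symm, (hin _).2 (by tauto)⟩)
    rwa [card_eq_two.2 ⟨v, z, n1, rfl⟩] at h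
  obtain ⟨a, ha, b, hb, c, hc, e, he, hab, hac, hae, hbc, hbe⟩ := h2 d _ _ _ _ cv cz cp cp'
  set g' : V → Option (Fin d) := fun u => if u = v then some a else if u = z then some b else
    if u = p then some c else if u = p' then some e else g u with hg'
  have gv : g' v = some a := by simp [hg']
  have gz : g' z = some b := by simp [hg', n1.symm]
  have gp : g' p = some c := by simp [hg', n2.symm, n4.symm]
  have gp' : g' p' = some e := by simp [hg', n3.symm, n5.symm, hpp.symm]
  have go : ∀ u, u ∉ S → g' u = g u := by
    intro u hu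
    rw [hin] at hu
    push Not at hu
    simp [hg', hu.1, hu.2.1, hu.2.2.1, hu.2.2.2]
  -- the vertices of `S` against the other ones
  have hout : ∀ u w k, u ∈ S → w ∉ S → G.Adj u w → g' u = some k → g' w ≠ some k := by
    intro u w k hu hw huw hk
    rw [go w hw]
    rcases (hin u).1 hu with h | h | h | h
    · subst h
      rw [gv] at hk
      rw [← Option.some.inj hk]
      exact mem_Li ha huw hw
    · subst h
      rw [gz] at hk
      rw [← Option.some.inj hk]
      exact mem_Li hb huw hw
    · subst h
      rw [gp] at hk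
      rw [← Option.some.inj hk]
      exact mem_Li hc huw hw
    · subst h
      rw [gp'] at hk
      rw [← Option.some.inj hk]
      exact mem_Li he huw hw
  refine ⟨g', ?_, ?_, ?_, ?_, ?_, ?_⟩
  · intro u w k huw hk
    by_cases hu : u ∈ S
    · by_cases hw : w ∈ S
      · intro hk'
        rcases (hin u).1 hu with h | h | h | h <;> rcases (hin w).1 hw with h' | h' | h' | h' <;>
          rw [h] at hk huw <;> rw [h'] at hk' huw <;>
          simp only [gv, gz, gp, gp', Option.some.injEq] at hk hk' <;>
          first
          | exact G.loopless.irrefl _ huw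
          | exact hnp huw
          | exact hnp huw.symm
          | exact hab (hk.trans hk'.symm)
          | exact hab (hk'.trans hk.symm)
          | exact hac (hk.trans hk'.symm)
          | exact hac (hk'.trans hk.symm)
          | exact hae (hk.trans hk'.symm)
          | exact hae (hk'.trans hk.symm)
          | exact hbc (hk.trans hk'.symm)
          | exact hbc (hk'.trans hk.symm)
          | exact hbe (hk.trans hk'.symm)
          | exact hbe (hk'.trans hk.symm)
      · exact hout u w k hu hw huw hk
    · by_cases hw : w ∈ S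
      · intro hk'
        exact hout w u k hw hu huw.symm hk' hk
      · rw [go u hu] at hk
        rw [go w hw]
        exact hg u w k huw hk
  · intro u h1 h2' h3 h4
    exact go u (fun h => by rcases (hin u).1 h with h | h | h | h <;> contradiction)
  · rw [gv]; exact Option.some_ne_none _
  · rw [gz]; exact Option.some_ne_none _
  · rw [gp]; exact Option.some_ne_none _
  · rw [gp']; exact Option.some_ne_none _

end

end Pool.Agent.Work.MP_47f387_co.Five
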