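import Pool.Agent.Work.MP_47f387_co.Five.Stmts

/-!
# MP_47f387_co, maximum degree 5, item SP4: a hole walks to `v` inside the ball of radius 4
-/

namespace Pool.Agent.Work.MP_47f387_co.Five

open Finset Classical Large

noncomputable section

namespace XSP4

theorem aux (d : ℕ) (V : Type) [Fintype V] (G : SimpleGraph V) (hd : BD d G) (v : V) :
    ∀ r, r ≤ 4 → ∀ (g : V → Option (Fin d)) (u : V), Proper G g → Near G r v u → g u = none →
      (∀ w, Near G 4 v w → w ≠ u → g w ≠ none) →
      ∃ g' : V → Option (Fin d), Proper G g' ∧ (∀ w, ¬ Near G 4 v w → g' w = g w) ∧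
        ∀ w, Near G 4 v w → w ≠ v → g' w ≠ none := by
  intro r
  induction r with
  | zero =>
    intro _ g u hP hn hu ho
    have h : v = u := hn
    subst h
    exact ⟨g, hP, fun _ _ => rfl, ho⟩
  | succ r ih =>
    intro hr g u hP hn hu ho
    rcases hn with hn | ⟨u', hu', hadj⟩
    · exact ih (by omega) g u hP hn hu ho
    · have hn4 : Near G 4 v u := near_mono hr (near_adj hu' hadj)
      have hn4' : Near G 4 v u' := near_mono (by omega) hu'
      by_cases hs : ∀ c, Sees G g u c
      · have hm := move hd hP hu hs hadj.symm
        obtain ⟨g', h1, h2, h3⟩ := ih (by omega) (fun w => g (Equiv.swap u u' w)) u' hm hu'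
          (by simp only [Equiv.swap_apply_right, hu]) (by
            intro w hw hwu
            by_cases hwu' : w = u
            · subst hwu'
              simp only [Equiv.swap_apply_left]
              exact ho u' hn4' hadj.ne
            · simp only [Equiv.swap_apply_of_ne_of_ne hwu' hwu]
              exact ho w hw hwu')
        refine ⟨g', h1, fun w hw => ?_, h3⟩
        have hwu : w ≠ u := fun h => hw (h ▸ hn4)
        have hwu' : w ≠ u' := fun h => hw (h ▸ hn4')
        rw [h2 w hw]
        simp only [Equiv.swap_apply_of_ne_of_ne hwu hwu']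
      · push Not at hs
        obtain ⟨c, hc⟩ := hs
        refine ⟨IC4.upd g u (some c), fill hP hc, fun w hw => ?_, fun w hw hwv => ?_⟩
        · exact IC4.upd_ne g u _ (fun h => hw (h ▸ hn4))
        · by_cases hwu : w = u
          · subst hwu
            rw [IC4.upd_self]
            simp
          · rw [IC4.upd_ne g u _ hwu]
            exact ho w hw hwu

end XSP4

theorem prf_SP4 : SP4 := by
  intro d V _ G g v u hd hP hn hu ho
  exact XSP4.aux d V G hd v 4 le_rfl g u hP hn hu ho

end

end Pool.Agent.Work.MP_47f387_co.Five
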