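import Pool.Agent.Work.MP_47f387_co.Five.Stmts

/-!
# MP_47f387_co, maximum degree 5, item SP5: a diamond far from the holes is a place
-/

namespace Pool.Agent.Work.MP_47f387_co.Five

open Finset Classical Large

noncomputable section

namespace XSP5

/-- recolouring one vertex: the numbers of the vertices of the colours -/
lemma cnt_upd {V : Type} [Fintype V] {d : ℕ} (f : V → Option (Fin d)) (x : V) {a b : Fin d}
    (hx : f x = some a) (hab : a ≠ b) (c : Fin d) :
    cnt (IC4.upd f x (some b)) (some c) + (if c = a then 1 else 0) =
      cnt f (some c) + (if c = b then 1 else 0) := by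
  have hne : f x ≠ some b := by
    rw [hx]
    exact fun h => hab (Option.some_injective _ h)
  by_cases h1 : c = a
  · subst h1
    rw [if_pos rfl, if_neg hab]
    have := IC4.cnt_upd_old f x (some b) hne
    rw [hx] at this
    rw [this, add_zero]
  · by_cases h2 : c = b
    · subst h2
      rw [if_neg h1, if_pos rfl, add_zero]
      exact IC4.cnt_upd_new f x (some c) hne
    · rw [if_neg h1, if_neg h2]
      rw [IC4.cnt_upd_ne f x (some b) (some c)]
      · rw [hx]
        exact fun h => h1 (Option.some_injective _ h).symm
      · exact fun h => h2 (Option.some_injective _ h).symm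

end XSP5

open XSP5 in
theorem prf_SP5 (h3 : SP3) (h4 : SP4) : SP5 := by
  intro d V _ G f i j v hd hBD hf hno hD
  obtain ⟨p, p', z, hpp', hnadj, hvp, hvp', hvz, hzp, hzp', hfv, hfp, hfp', hi, hj, hj'⟩ := hD
  have hij : i ≠ j := by
    rintro rfl
    exact hf v p i hvp hfv hfp
  have hsi : (some i : Option (Fin d)) ≠ some j := fun h => hij (Option.some_injective _ h)
  have nvp : v ≠ p := hvp.ne
  have nvp' : v ≠ p' := hvp'.ne
  refine ⟨hno, ?_, ?_⟩
  · obtain ⟨f₁, ev, ep, ep', eo, hcnt⟩ : ∃ f₁ : V → Option (Fin d), f₁ v = some i ∧
        f₁ p = some j ∧ f₁ p' = some j ∧ (∀ u, u ≠ v → u ≠ p → u ≠ p' → f₁ u = f u) ∧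
        ∀ c, cnt f₁ (some c) + (if c = i then 1 else 0) =
          cnt f (some c) + (if c = j then 1 else 0) := by
      refine ⟨IC4.upd (IC4.upd (IC4.upd f p (some j)) p' (some j)) v (some i),
        IC4.upd_self _ _ _, ?_, ?_, ?_, ?_⟩
      · rw [IC4.upd_ne _ _ _ nvp.symm, IC4.upd_ne _ _ _ hpp', IC4.upd_self]
      · rw [IC4.upd_ne _ _ _ nvp'.symm, IC4.upd_self]
      · intro u h1 h2 h3
        rw [IC4.upd_ne _ _ _ h1, IC4.upd_ne _ _ _ h3, IC4.upd_ne _ _ _ h2]
      · intro c
        have c1 := cnt_upd f p hfp hij c
        have c2 := cnt_upd (IC4.upd f p (some j)) p' (a := i) (b := j)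
          (by rw [IC4.upd_ne _ _ _ hpp'.symm, hfp']) hij c
        have c3 := cnt_upd (IC4.upd (IC4.upd f p (some j)) p' (some j)) v (a := j) (b := i)
          (by rw [IC4.upd_ne _ _ _ nvp', IC4.upd_ne _ _ _ nvp, hfv]) hij.symm c
        omega
    have near4 : ∀ {u}, Near G 1 v u → Near G 3 v u := fun h => near_mono (by norm_num) h
    refine ⟨f₁, ?_, ?_, ?_, hcnt⟩
    · intro u w c huw hu hw
      by_cases huv : u = v
      · subst huv
        rw [ev] at hu
        obtain rfl := Option.some_injective _ hu
        by_cases hwp : w = p
        · subst hwp
          rw [ep] at hw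
          exact hsi hw.symm
        · by_cases hwp' : w = p'
          · subst hwp'
            rw [ep'] at hw
            exact hsi hw.symm
          · rw [eo w huw.ne' hwp hwp'] at hw
            rcases hi w huw hw with h | h
            · exact hwp h
            · exact hwp' h
      · by_cases hup : u = p
        · subst hup
          rw [ep] at hu
          obtain rfl := Option.some_injective _ hu
          by_cases hwv : w = v
          · subst hwv
            rw [ev] at hw
            exact hsi hw
          · by_cases hwp' : w = p'
            · subst hwp'
              exact hnadj huw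
            · rw [eo w hwv huw.ne' hwp'] at hw
              exact hwv (hj w huw hw)
        · by_cases hup' : u = p'
          · subst hup'
            rw [ep'] at hu
            obtain rfl := Option.some_injective _ hu
            by_cases hwv : w = v
            · subst hwv
              rw [ev] at hw
              exact hsi hw
            · by_cases hwp : w = p
              · subst hwp
                exact hnadj huw.symm
              · rw [eo w hwv hwp huw.ne'] at hw
                exact hwv (hj' w huw hw)
          · rw [eo u huv hup hup'] at hu
            by_cases hwv : w = v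
            · subst hwv
              rw [ev] at hw
              obtain rfl := Option.some_injective _ hw
              rcases hi u huw.symm hu with h | h
              · exact hup h
              · exact hup' h
            · by_cases hwp : w = p
              · subst hwp
                rw [ep] at hw
                obtain rfl := Option.some_injective _ hw
                exact huv (hj u huw.symm hu)
              · by_cases hwp' : w = p'
                · subst hwp'
                  rw [ep'] at hw
                  obtain rfl := Option.some_injective _ hw
                  exact huv (hj' u huw.symm hu)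
                · rw [eo w hwv hwp hwp'] at hw
                  exact hf u w c huw hu hw
    · intro u hu
      apply eo
      · rintro rfl
        exact hu (near_refl 3 u)
      · rintro rfl
        exact hu (near4 (near_of_adj hvp))
      · rintro rfl
        exact hu (near4 (near_of_adj hvp'))
    · intro u hu
      by_cases h1 : u = v
      · rw [h1, ev]
        simp
      · by_cases h2 : u = p
        · rw [h2, ep]
          simp
        · by_cases h3 : u = p'
          · rw [h3, ep']
            simp
          · rw [eo u h1 h2 h3]
            exact hno u (near_succ hu)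
  · intro g u hg hu4 hu3 hgu hgf
    obtain ⟨g1, hg1, hg1o, hg1n⟩ := h4 d V G g v u hBD hg hu4 hgu
      (fun w hw hwu => by rw [hgf w hw hwu]; exact hno w hw)
    obtain ⟨g2, hg2, hg2o, nv, nz, np, np'⟩ := h3 d V G g1 v z p p' hd hBD hg1 hpp' hnadj hvp hvp'
      hvz hzp hzp'
    have near4 : ∀ {u}, Near G 1 v u → Near G 4 v u := fun h => near_mono (by norm_num) h
    refine ⟨g2, hg2, ?_, ?_⟩
    · intro w hw
      rw [hg2o w, hg1o w hw]
      · rintro rfl
        exact hw (near_refl 4 w)
      · rintro rfl
        exact hw (near4 (near_of_adj hvz))
      · rintro rfl
        exact hw (near4 (near_of_adj hvp))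
      · rintro rfl
        exact hw (near4 (near_of_adj hvp'))
    · intro w hw
      by_cases h1 : w = v
      · rw [h1]; exact nv
      · by_cases h2 : w = z
        · rw [h2]; exact nz
        · by_cases h3 : w = p
          · rw [h3]; exact np
          · by_cases h4 : w = p'
            · rw [h4]; exact np'
            · rw [hg2o w h1 h2 h3 h4]
              exact hg1n w hw h1

end

end Pool.Agent.Work.MP_47f387_co.Five
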