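import Pool.Agent.Work.MP_47f387_co.Five.Stmts

/-!
# MP_47f387_co, maximum degree 5, item SP6
-/

namespace Pool.Agent.Work.MP_47f387_co.Five

open Finset Classical Large

noncomputable section

namespace XSP6

/-- splitting a count by a predicate -/
lemma split {V : Type} [Fintype V] {d : ℕ} (f : V → Option (Fin d)) (o : Option (Fin d))
    (P : V → Prop) : cnt f o = (univ.filter (fun v => P v ∧ f v = o)).card +
      (univ.filter (fun v => ¬ P v ∧ f v = o)).card := by
  unfold cnt
  rw [← Finset.card_filter_add_card_filter_not (s := univ.filter (fun v => f v = o)) P]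
  congr 1
  · rw [Finset.filter_filter]
    congr 1
    ext v
    simp only [mem_filter, mem_univ, true_and]
    exact and_comm
  · rw [Finset.filter_filter]
    congr 1
    ext v
    simp only [mem_filter, mem_univ, true_and]
    exact and_comm

/-- equality of partial counts -/
lemma part {V : Type} [Fintype V] {d : ℕ} (f g : V → Option (Fin d)) (o : Option (Fin d))
    (P : V → Prop) (h : ∀ v, P v → f v = g v) : (univ.filter (fun v => P v ∧ f v = o)).card =
      (univ.filter (fun v => P v ∧ g v = o)).card := by
  congr 1
  ext v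
  simp only [mem_filter, mem_univ, true_and]
  constructor
  · rintro ⟨h1, h2⟩
    exact ⟨h1, by rw [← h v h1]; exact h2⟩
  · rintro ⟨h1, h2⟩
    exact ⟨h1, by rw [h v h1]; exact h2⟩

/-- equality of partial counts, complement -/
lemma part' {V : Type} [Fintype V] {d : ℕ} (f g : V → Option (Fin d)) (o : Option (Fin d))
    (P : V → Prop) (h : ∀ v, ¬ P v → f v = g v) :
    (univ.filter (fun v => ¬ P v ∧ f v = o)).card =
      (univ.filter (fun v => ¬ P v ∧ g v = o)).card := by
  congr 1
  ext v
  simp only [mem_filter, mem_univ, true_and]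
  constructor
  · rintro ⟨h1, h2⟩
    exact ⟨h1, by rw [← h v h1]; exact h2⟩
  · rintro ⟨h1, h2⟩
    exact ⟨h1, by rw [h v h1]; exact h2⟩

end XSP6

open XSP6 in
theorem prf_SP6 : SP6 := by
  intro d V _ G f f' i j v hP' hff ⟨h1, ⟨f₁, hf1, hf2, hf3, hf4⟩, h3⟩
  refine ⟨fun u hu => by rw [hff u hu]; exact h1 u hu, ?_, ?_⟩
  · set k : V → Option (Fin d) := fun u => if Near G 3 v u then f₁ u else f' u with hk
    have k1 : ∀ u, Near G 3 v u → k u = f₁ u := fun u hu => if_pos hu
    have k2 : ∀ u, ¬ Near G 3 v u → k u = f' u := fun u hu => if_neg hu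
    have k3 : ∀ u, Near G 4 v u → k u = f₁ u := by
      intro u hu
      by_cases h : Near G 3 v u
      · exact k1 u h
      · rw [k2 u h, hff u hu, hf2 u h]
    refine ⟨k, ?_, k2, ?_, ?_⟩
    · intro x y c hxy hx
      by_cases hx3 : Near G 3 v x
      · rw [k3 y (near_adj hx3 hxy)]
        rw [k1 x hx3] at hx
        exact hf1 x y c hxy hx
      · by_cases hy3 : Near G 3 v y
        · rw [k1 y hy3]
          rw [k3 x (near_adj hy3 hxy.symm)] at hx
          exact hf1 x y c hxy hx
        · rw [k2 y hy3]
          rw [k2 x hx3] at hx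
          exact hP' x y c hxy hx
    · intro u hu
      rw [k1 u hu]
      exact hf3 u hu
    · intro c
      have e1 := split k (some c) (fun u => Near G 3 v u)
      have e2 := split f' (some c) (fun u => Near G 3 v u)
      have e3 := split f₁ (some c) (fun u => Near G 3 v u)
      have e4 := split f (some c) (fun u => Near G 3 v u)
      have p1 := part k f₁ (some c) (fun u => Near G 3 v u) k1
      have p2 := part' k f' (some c) (fun u => Near G 3 v u) k2
      have p3 := part' f₁ f (some c) (fun u => Near G 3 v u) hf2
      have p4 := part f' f (some c) (fun u => Near G 3 v u)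
        (fun u hu => hff u (near_succ hu))
      have h5 := hf4 c
      omega
  · intro g u hg hu hu3 hgu hgw
    exact h3 g u hg hu hu3 hgu (fun w hw hwu => by rw [hgw w hw hwu, hff w hw])

end

end Pool.Agent.Work.MP_47f387_co.Five
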