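import Pool.Agent.Work.MP_47f387_co.Five.Stmts

/-!
# MP_47f387_co, block FIVE, item SP7: a hole walks towards `w` and stops at distance 4
-/

namespace Pool.Agent.Work.MP_47f387_co.Five

open Finset Classical Large

noncomputable section

namespace XSP7

variable {V : Type} [Fintype V] {d : ℕ} {G : SimpleGraph V}

omit [Fintype V] in
/-- walks inside a ball, from the centre -/
lemma reach {w : V} (R : ℕ) : ∀ (r : ℕ), r ≤ R → ∀ u, Near G r w u →
    Relation.ReflTransGen (fun a b => G.Adj a b ∧ Near G R w b) w u := by
  intro r
  induction r with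
  | zero =>
    intro _ u hu
    cases hu
    exact Relation.ReflTransGen.refl
  | succ r ih =>
    intro hr u hu
    rcases hu with hu | ⟨x, hx, hxu⟩
    · exact ih (by omega) u hu
    · exact (ih (by omega) x hx).tail ⟨hxu, near_mono hr (near_adj hx hxu)⟩

omit [Fintype V] in
/-- walks inside a ball, to the centre -/
lemma reach' {w : V} (R : ℕ) : ∀ (r : ℕ), r ≤ R → ∀ u, Near G r w u →
    Relation.ReflTransGen (fun a b => G.Adj a b ∧ Near G R w b) u w := by
  intro r
  induction r with
  | zero =>
    intro _ u hu
    cases hu
    exact Relation.ReflTransGen.refl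
  | succ r ih =>
    intro hr u hu
    rcases hu with hu | ⟨x, hx, hxu⟩
    · exact ih (by omega) u hu
    · exact (ih (by omega) x hx).head ⟨hxu.symm, near_mono (by omega) hx⟩

/-- filling a hole which does not see a colour: the counts -/
lemma fill_cnt {f : V → Option (Fin d)} {y : V} (hy : f y = none) (c : Fin d) :
    cnt (IC4.upd f y (some c)) none + 1 = cnt f none ∧
    ∀ c', cnt f (some c') ≤ cnt (IC4.upd f y (some c)) (some c') ∧
      cnt (IC4.upd f y (some c)) (some c') ≤ cnt f (some c') + 1 := by
  constructor
  · have h := IC4.cnt_upd_old f y (some c) (by rw [hy]; simp)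
    rw [hy] at h
    exact h
  · intro c'
    by_cases hc : c = c'
    · subst hc
      rw [IC4.cnt_upd_new f y (some c) (by rw [hy]; simp)]
      omega
    · rw [IC4.cnt_upd_ne f y (some c) (some c') (by rw [hy]; simp)
        (by simpa using hc)]
      omega

/-- two holes joined by a walk in `S`: one of them can be filled -/
lemma two_holes (hd : BD d G) {w : V} {R : ℕ} {x y : V}
    (hxy : Relation.ReflTransGen (fun a b => G.Adj a b ∧ Near G R w b) x y) :
    ∀ f : V → Option (Fin d), Near G R w x → Proper G f → f x = none → f y = none → x ≠ y →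
    ∃ f' : V → Option (Fin d), Proper G f' ∧ cnt f' none + 1 = cnt f none ∧
      (∀ c, cnt f (some c) ≤ cnt f' (some c) ∧ cnt f' (some c) ≤ cnt f (some c) + 1) ∧
      ∀ z, f' z ≠ f z → Near G R w z := by
  induction hxy using Relation.ReflTransGen.head_induction_on with
  | refl =>
    intro f _ _ _ _ hne
    exact absurd rfl hne
  | head hab _ ih =>
    rename_i a b _
    intro f ha hf hfa hfy hne
    by_cases hsee : ∀ c, Sees G f a c
    · obtain ⟨hnon, -⟩ := distinct hd f a hsee
      have hfb : f b ≠ none := hnon b hab.1
      have hby : b ≠ y := fun h => hfb (by rw [h]; exact hfy)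
      have hm := move hd hf hfa hsee hab.1
      have h1 : f (Equiv.swap a b b) = none := by rw [Equiv.swap_apply_right, hfa]
      have h2 : f (Equiv.swap a b y) = none := by
        rw [Equiv.swap_apply_of_ne_of_ne hne.symm hby.symm, hfy]
      obtain ⟨f', g1, g2, g3, g4⟩ := ih (fun u => f (Equiv.swap a b u)) hab.2 hm h1 h2 hby
      have hc : ∀ o, cnt (fun u => f (Equiv.swap a b u)) o = cnt f o :=
        fun o => cnt_perm f (Equiv.swap a b) o
      simp only [hc] at g2 g3
      refine ⟨f', g1, g2, g3, ?_⟩
      intro z hz
      by_cases hza : z = a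
      · rw [hza]; exact ha
      · by_cases hzb : z = b
        · rw [hzb]; exact hab.2
        · refine g4 z ?_
          show f' z ≠ f (Equiv.swap a b z)
          rw [Equiv.swap_apply_of_ne_of_ne hza hzb]
          exact hz
    · push Not at hsee
      obtain ⟨c, hc⟩ := hsee
      obtain ⟨h1, h2⟩ := fill_cnt hfa c
      refine ⟨IC4.upd f a (some c), fill hf hc, h1, h2, ?_⟩
      intro z hz
      by_cases hza : z = a
      · rw [hza]; exact ha
      · rw [IC4.upd_ne f a _ hza] at hz
        exact absurd rfl hz

end XSP7

open XSP7 in
theorem prf_SP7 : SP7 := by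
  intro d V _ G hd w m
  induction m with
  | zero =>
    intro f y hf hy h1 h2 h3
    by_cases hex : ∃ z, Near G 4 w z ∧ z ≠ y ∧ f z = none
    · left
      obtain ⟨z, hz1, hz2, hz3⟩ := hex
      have h1' : Near G 4 w y := h1
      have hwalk := (reach' (G := G) (w := w) 4 4 le_rfl y h1').trans
        (reach (G := G) (w := w) 4 4 le_rfl z hz1)
      obtain ⟨f', g1, g2, g3, g4⟩ := two_holes hd hwalk f h1' hf hy hz3 hz2.symm
      exact ⟨f', g1, g2, g3, fun z hz => Or.inr (g4 z hz)⟩
    · right
      push Not at hex
      exact ⟨f, y, hf, hy, h1, h2, fun _ => rfl, fun _ _ _ => rfl, fun z hz hzy => hex z hz hzy,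
        fun z hz => absurd rfl hz⟩
  | succ m ih =>
    intro f y hf hy h1 h2 h3
    have h1' : ∃ y', Near G (m + 4) w y' ∧ G.Adj y' y := by
      have h1a : Near G ((m + 4) + 1) w y := by
        have : m + 1 + 4 = (m + 4) + 1 := by omega
        rw [this] at h1
        exact h1
      rcases h1a with h | h
      · exfalso
        apply h2
        have : m + 1 + 3 = m + 4 := by omega
        rw [this]
        exact h
      · exact h
    obtain ⟨y', hy'1, hy'2⟩ := h1'
    have hy4 : ¬ Near G (m + 4) w y := by
      have : m + 1 + 3 = m + 4 := by omega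
      rw [this] at h2
      exact h2
    have h3' : ∀ z, Near G (m + 4) w z → f z ≠ none := by
      have : m + 1 + 3 = m + 4 := by omega
      rw [this] at h3
      exact h3
    have hy'3 : ¬ Near G (m + 3) w y' := fun h => hy4 (near_adj h hy'2)
    have hne : y' ≠ y := fun h => hy4 (h ▸ hy'1)
    have hfy' : f y' ≠ none := h3' y' hy'1
    by_cases hsee : ∀ c, Sees G f y c
    · have hm := move hd hf hy hsee hy'2.symm
      have hcnt : ∀ o, cnt (fun u => f (Equiv.swap y y' u)) o = cnt f o :=
        fun o => cnt_perm f (Equiv.swap y y') o
      have e1 : f (Equiv.swap y y' y') = none := by rw [Equiv.swap_apply_right, hy]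
      have e2 : ∀ z, z ≠ y → z ≠ y' → f (Equiv.swap y y' z) = f z := fun z g1 g2 => by
        rw [Equiv.swap_apply_of_ne_of_ne g1 g2]
      have e3 : ∀ z, Near G (m + 4) w z → z ≠ y' → f (Equiv.swap y y' z) = f z := by
        intro z hz hzy'
        exact e2 z (fun h => hy4 (h ▸ hz)) hzy'
      rcases Nat.eq_zero_or_pos m with hm0 | hm0
      · subst hm0
        right
        refine ⟨fun u => f (Equiv.swap y y' u), y', hm, e1, hy'1, hy'3, hcnt, ?_, ?_, ?_⟩
        · intro z hz hzy'
          exact e3 z hz hzy'
        · intro z hz hzy'
          show f (Equiv.swap y y' z) ≠ none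
          rw [e3 z hz hzy']
          exact h3' z hz
        · intro z hz
          by_cases hzy : z = y
          · left
            exact ⟨0, by omega, hzy.symm⟩
          · by_cases hzy' : z = y'
            · exact Or.inr hzy'
            · exact absurd (e2 z hzy hzy') hz
      · have hin : ∀ z, Near G (m + 3) w z → f (Equiv.swap y y' z) = f z := by
          intro z hz
          exact e3 z (near_mono (by omega) hz) (fun h => hy'3 (h ▸ hz))
        have hchg : ∀ (f' : V → Option (Fin d)) z, f' z ≠ f z →
            (f' z ≠ f (Equiv.swap y y' z)) ∨ ∃ s, s < m + 1 ∧ Near G s y z := by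
          intro f' z hz
          by_cases hzy : z = y
          · exact Or.inr ⟨0, by omega, hzy.symm⟩
          · by_cases hzy' : z = y'
            · right
              refine ⟨1, by omega, ?_⟩
              rw [hzy']
              exact near_of_adj hy'2.symm
            · left
              rw [e2 z hzy hzy']
              exact hz
        have hlift : ∀ z, (∃ s, s < m ∧ Near G s y' z) → ∃ s, s < m + 1 ∧ Near G s y z := by
          rintro z ⟨s, hs, hsz⟩
          exact ⟨1 + s, by omega, near_trans (near_of_adj hy'2.symm) hsz⟩
        rcases ih (fun u => f (Equiv.swap y y' u)) y' hm e1 hy'1 hy'3 (by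
          intro z hz
          show f (Equiv.swap y y' z) ≠ none
          rw [hin z hz]
          exact h3' z (near_mono (by omega) hz)) with
          ⟨f', g1, g2, g3, g4⟩ | ⟨f', u, g1, g2, g3, g4, g5, g6, g7, g8⟩
        · left
          simp only [hcnt] at g2 g3
          refine ⟨f', g1, g2, g3, ?_⟩
          intro z hz
          rcases hchg f' z hz with h | h
          · rcases g4 z h with h' | h'
            · exact Or.inl (hlift z h')
            · exact Or.inr h'
          · exact Or.inl h
        · right
          simp only [hcnt] at g5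
          refine ⟨f', u, g1, g2, g3, g4, g5, ?_, g7, ?_⟩
          · intro z hz hzu
            rw [g6 z hz hzu]
            exact hin z (near_mono (by omega) hz)
          · intro z hz
            rcases hchg f' z hz with h | h
            · rcases g8 z h with h' | h'
              · exact Or.inl (hlift z h')
              · exact Or.inr h'
            · exact Or.inl h
    · push Not at hsee
      obtain ⟨c, hc⟩ := hsee
      obtain ⟨g1, g2⟩ := fill_cnt hy c
      left
      refine ⟨IC4.upd f y (some c), fill hf hc, g1, g2, ?_⟩
      intro z hz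
      by_cases hzy : z = y
      · exact Or.inl ⟨0, by omega, hzy.symm⟩
      · rw [IC4.upd_ne f y _ hzy] at hz
        exact absurd rfl hz

end

end Pool.Agent.Work.MP_47f387_co.Five
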