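import Pool.Agent.Work.MP_47f387_co.Five.Stmts

/-!
# MP_47f387_co, maximum degree 5: filling one hole (SP8)
-/

namespace Pool.Agent.Work.MP_47f387_co.Five

open Finset Classical Large

noncomputable section

namespace XSP8

variable {V : Type} [Fintype V] {d : ℕ} {G : SimpleGraph V}

/-- two colourings which agree outside a ball of radius 4 -/
lemma cnt_le (hd : BD d G) (w : V) (g h : V → Option (Fin d))
    (hgh : ∀ v, ¬ Near G 4 w v → g v = h v) (o : Option (Fin d)) :
    cnt g o ≤ cnt h o + (d + 1) ^ 4 := by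
  unfold cnt
  have hsub : univ.filter (fun v => g v = o) ⊆
      univ.filter (fun v => h v = o) ∪ univ.filter (fun v => Near G 4 w v) := by
    intro v hv
    rw [mem_filter] at hv
    rw [mem_union, mem_filter, mem_filter]
    by_cases hn : Near G 4 w v
    · exact Or.inr ⟨mem_univ _, hn⟩
    · exact Or.inl ⟨mem_univ _, (hgh v hn).symm.trans hv.2⟩
  exact (card_le_card hsub).trans ((card_union_le _ _).trans
    (Nat.add_le_add_left (near_card hd 4 w) _))

/-- the number of holes -/
lemma cnt_none (w u : V) (g h : V → Option (Fin d)) (hgh : ∀ v, ¬ Near G 4 w v → g v = h v)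
    (hu : h u = none) (hnu : Near G 4 w u) (hg : ∀ v, Near G 4 w v → g v ≠ none)
    (hh : ∀ v, Near G 4 w v → v ≠ u → h v ≠ none) : cnt g none + 1 = cnt h none := by
  unfold cnt
  have heq : univ.filter (fun v => h v = none) =
      insert u (univ.filter (fun v => g v = none)) := by
    ext v
    rw [mem_filter, mem_insert, mem_filter]
    constructor
    · rintro ⟨-, hv⟩
      by_cases hn : Near G 4 w v
      · left
        by_contra hne
        exact hh v hn hne hv
      · exact Or.inr ⟨mem_univ _, (hgh v hn).trans hv⟩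
    · rintro (rfl | ⟨-, hv⟩)
      · exact ⟨mem_univ _, hu⟩
      · refine ⟨mem_univ _, ?_⟩
        by_cases hn : Near G 4 w v
        · exact absurd hv (hg v hn)
        · exact (hgh v hn).symm.trans hv
  rw [heq, card_insert_of_notMem]
  intro hmem
  rw [mem_filter] at hmem
  exact hg u hnu hmem.2

end XSP8

open XSP8 in
theorem prf_SP8 (h6 : SP6) (h7 : SP7) : SP8 := by
  intro d V _ G f W a b hG hd hf hPS hW hcnt
  have hx0 : ∃ x, f x = none := by
    by_contra h
    have h0 : cnt f none = 0 := by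
      unfold cnt
      rw [card_eq_zero, filter_eq_empty_iff]
      intro v _ hv
      exact h ⟨v, hv⟩
    omega
  obtain ⟨x0, hx0⟩ := hx0
  obtain ⟨w0, hw0⟩ := hW
  have hex : ∃ r, ∃ x w, f x = none ∧ w ∈ W ∧ Near G r w x := by
    obtain ⟨r, hr⟩ := IC4.exists_near hG w0 x0
    exact ⟨r, x0, w0, hx0, hw0, hr⟩
  obtain ⟨x, w, hx, hw, hr⟩ := Nat.find_spec hex
  have hmin : ∀ s z w', s < Nat.find hex → f z = none → w' ∈ W → ¬ Near G s w' z :=
    fun s z w' hs hz hw' hn => Nat.find_min hex hs ⟨z, w', hz, hw', hn⟩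
  set r := Nat.find hex with hrdef
  have hr5 : 5 ≤ r := by
    by_contra hlt
    have h1 : Near G 4 w x := near_mono (by omega) hr
    exact (hPS.1 w hw).1 x h1 hx
  obtain ⟨m, hm, hm1⟩ : ∃ m, r = m + 4 ∧ 1 ≤ m := ⟨r - 4, by omega, by omega⟩
  rw [hm] at hr hmin
  have key1 : ∀ w' ∈ W, ∀ z, (∃ s, s < m ∧ Near G s x z) → ¬ Near G 4 w' z := by
    rintro w' hw' z ⟨s, hs, hsz⟩ hz
    exact hmin (4 + s) x w' (by omega) hx hw' (near_trans hz (near_symm hsz))
  have key2 : ∀ w' ∈ W.erase w, ∀ z, Near G 4 w z → ¬ Near G 4 w' z := by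
    intro w' hw' z hz hz'
    rw [mem_erase] at hw'
    exact hPS.2 w hw w' hw'.2 (Ne.symm hw'.1)
      (near_mono (by norm_num) (near_trans hz (near_symm hz')))
  have hPS' : ∀ f' : V → Option (Fin d), Proper G f' →
      (∀ z, f' z ≠ f z → (∃ s, s < m ∧ Near G s x z) ∨ Near G 4 w z) →
      PS G f' (W.erase w) a b := by
    intro f' hf' hch
    refine ⟨?_, ?_⟩
    · intro w' hw'
      refine h6 d V G f f' (a w') (b w') w' hf' ?_ (hPS.1 w' (mem_of_mem_erase hw'))
      intro z hz
      by_contra hne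
      rcases hch z hne with h | h
      · exact key1 w' (mem_of_mem_erase hw') z h hz
      · exact key2 w' hw' z h hz
    · intro w' hw' w'' hw'' hne
      exact hPS.2 w' (mem_of_mem_erase hw') w'' (mem_of_mem_erase hw'') hne
  have hcard : W.card ≤ (W.erase w).card + 1 := by
    rw [card_erase_of_mem hw]
    omega
  have hpos : 1 ≤ (d + 1) ^ 4 := Nat.one_le_pow _ _ (by omega)
  rcases h7 d V G hd w m f x hf hx hr (hmin (m + 3) x w (by omega) hx hw)
    (fun z hz hfz => hmin (m + 3) z w (by omega) hfz hw hz) with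
    ⟨f', hf', hn, hc, hch⟩ | ⟨f1, u, hf1, hu, hnu, hnu3, hc, hag, hcol, hch⟩
  · refine ⟨f', W.erase w, hf', erase_subset _ _, hcard, hPS' f' hf' hch, hn, ?_⟩
    intro c
    have h1 := (hc c).1
    have h2 := (hc c).2
    exact ⟨by omega, by omega⟩
  · obtain ⟨g, hg, hgo, hgn⟩ := (hPS.1 w hw).2.2 f1 u hf1 hnu hnu3 hu hag
    refine ⟨g, W.erase w, hg, erase_subset _ _, hcard, hPS' g hg ?_, ?_, ?_⟩
    · intro z hz
      by_cases hn : Near G 4 w z
      · exact Or.inr hn
      · rw [hgo z hn] at hz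
        rcases hch z hz with h | rfl
        · exact Or.inl h
        · exact absurd hnu hn
    · rw [← hc none]
      exact cnt_none w u g f1 hgo hu hnu hgn hcol
    · intro c
      rw [← hc (some c)]
      exact ⟨cnt_le hd w f1 g (fun v hv => (hgo v hv).symm) _, cnt_le hd w g f1 hgo _⟩

end

end Pool.Agent.Work.MP_47f387_co.Five
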