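import Pool.Agent.Work.MP_47f387_co.Five.Stmts

/-!
# MP_47f387_co, maximum degree 5, item SP9: filling all holes
-/

namespace Pool.Agent.Work.MP_47f387_co.Five

open Finset Classical Large

noncomputable section

theorem prf_SP9 (h8 : SP8) : SP9 := by
  intro d V _ G f W a b hG hd hf hS hlt
  suffices H : ∀ (h : ℕ) (f : V → Option (Fin d)) (W : Finset V), Proper G f →
      PS G f W a b → cnt f none = h → h < W.card →
      ∃ (f' : V → Option (Fin d)) (W' : Finset V), Proper G f' ∧ W' ⊆ W ∧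
        W.card ≤ W'.card + h ∧ PS G f' W' a b ∧ cnt f' none = 0 ∧
        ∀ c, cnt f (some c) ≤ cnt f' (some c) + (d + 1) ^ 4 * h ∧
          cnt f' (some c) ≤ cnt f (some c) + (d + 1) ^ 4 * h by
    exact H _ f W hf hS rfl hlt
  intro h
  induction h with
  | zero =>
    intro f W hf hS h0 _
    exact ⟨f, W, hf, Subset.refl _, by omega, hS, h0, fun c => ⟨by omega, by omega⟩⟩
  | succ h ih =>
    intro f W hf hS h0 hlt
    have hne : W.Nonempty := Finset.card_pos.1 (by omega)
    obtain ⟨f1, W1, hf1, hW1, hc1, hS1, hn1, hb1⟩ :=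
      h8 d V G f W a b hG hd hf hS hne (by omega)
    obtain ⟨f2, W2, hf2, hW2, hc2, hS2, hn2, hb2⟩ :=
      ih f1 W1 hf1 hS1 (by omega) (by omega)
    refine ⟨f2, W2, hf2, hW2.trans hW1, by omega, hS2, hn2, fun c => ?_⟩
    have h1 := hb1 c
    have h2 := hb2 c
    have e : (d + 1) ^ 4 * (h + 1) = (d + 1) ^ 4 * h + (d + 1) ^ 4 := by ring
    rw [e]
    generalize (d + 1) ^ 4 * h = L at h2 ⊢
    generalize (d + 1) ^ 4 = K at h1 ⊢
    omega

end

end Pool.Agent.Work.MP_47f387_co.Five
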